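import Mathlib
import Pool.Agent.W873.Gmp.Defs

/-!
# Compactness principles at `ω₂`, towers and ultrafilter bases: definitions (MP_dbe197_lc)

`N1` and `N2` are the sets of the ordinals below `ω₁` and below `ω₂` of the ground model. First the
principles `SR(ω₂)` (stationary reflection) and `DSS(ω₂)` (disjoint stationary sequence) of the
ground model are defined. Then for a forcing notion `P` the same principles, the negation of the
weak Kurepa hypothesis, and the statements `𝔱 = κ` and `𝔲 = κ` are defined as sentences of the
forcing language: the forcing relation is the one of `Pool.Agent.Helper669.Forcing`, a sentence is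
the set of the conditions which force it, and a name for a subset of a ground model set `X` is a map
`X → Set P`. The forcing notions considered preserve all cardinals, so that `N1` and `N2` are `ω₁`
and `ω₂` also in the extension. In the extension each set is in bijection with a ground model set,
so that families of sets can be indexed by ground model sets.
-/

set_option autoImplicit false

namespace Pool.Agent.T2h65.CP

open Cardinal Pool.Agent.Helper669.Forcing Pool.Agent.W873.Gmp

/-- the ordinals below `ω₁` -/
abbrev N1 : Type := (Order.succ (ℵ₀ : Cardinal.{0})).ord.ToType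

/-- the ordinals below `ω₂` -/
abbrev N2 : Type := (Order.succ (Order.succ (ℵ₀ : Cardinal.{0}))).ord.ToType

/-! ### The ground model -/

/-- `X` (which is `ℕ` or `ω₁`) has a strictly increasing cofinal map into `{γ | γ < α}`:
`α` has cofinality `ω` (for `X = ℕ`), respectively `ω₁` (for `X = N1`). -/
def CofG (X : Type) [LinearOrder X] (α : N2) : Prop :=
  ∃ f : X → N2, (∀ x y, x < y → f x < f y) ∧ (∀ x, f x < α) ∧ ∀ γ < α, ∃ x, γ < f x

/-- `C` is closed and unbounded in `β`, where `β < ω₂` or `β = ω₂` (the latter is `β = ⊤`). -/
structure IsClub (C : Set N2) (β : WithTop N2) : Prop where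
  sub : ∀ γ ∈ C, (γ : WithTop N2) < β
  unb : ∀ γ : N2, (γ : WithTop N2) < β → ∃ δ ∈ C, γ < δ
  closed : ∀ γ : N2, (γ : WithTop N2) < β → (∃ δ ∈ C, δ < γ) →
    (∀ δ < γ, ∃ ε ∈ C, δ < ε ∧ ε < γ) → γ ∈ C

/-- `S ∩ β` is stationary in `β`. -/
def Stat (S : Set N2) (β : WithTop N2) : Prop := ∀ C : Set N2, IsClub C β → ∃ γ ∈ S, γ ∈ C

/-- `SR(ω₂)`: every stationary set of ordinals `< ω₂` of cofinality `ω` reflects at some
`β < ω₂` of cofinality `ω₁`. -/
def SR : Prop := ∀ S : Set N2, (∀ α ∈ S, CofG ℕ α) → Stat S ⊤ → ∃ β : N2, CofG N1 β ∧ Stat S β

/-- `N` is a stationary set of countable subsets of `α`: for every function `F` from the finite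
sequences of elements of `α` to `α` some `x ∈ N` is closed under `F`. -/
def StatP (α : N2) (N : Set (Set N2)) : Prop :=
  (∀ x ∈ N, x.Countable ∧ ∀ γ ∈ x, γ < α) ∧
    ∀ F : List N2 → N2, (∀ l : List N2, (∀ γ ∈ l, γ < α) → F l < α) →
      ∃ x ∈ N, ∀ l : List N2, (∀ γ ∈ l, γ ∈ x) → F l ∈ x

/-- `DSS(ω₂)`: there are a stationary set `S` of ordinals `< ω₂` of cofinality `ω₁` and pairwise
disjoint stationary sets `N α` of countable subsets of `α`, for `α ∈ S`. -/
def DSS : Prop := ∃ S : Set N2, (∀ α ∈ S, CofG N1 α) ∧ Stat S ⊤ ∧
  ∃ N : N2 → Set (Set N2), (∀ α ∈ S, StatP α (N α)) ∧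
    ∀ α ∈ S, ∀ β ∈ S, α ≠ β → ∀ x ∈ N α, x ∉ N β

/-! ### The extension -/

section forcing

variable {P : Type} [Preorder P]

/-- In the extension `α` has cofinality `ω` (for `X = ℕ`), respectively `ω₁` (for `X = N1`): there
is a strictly increasing function `f` from `X` to `{γ | γ < α}` with cofinal range. -/
def CofF (P : Type) [Preorder P] (X : Type) [LinearOrder X] (α : N2) : Set P :=
  fex fun f : X → N2 → Set P => fand (IsFun f)
    (fand (fall fun x : X => fall fun y : X => fall fun _ : x < y =>
      fall fun γ : N2 => fall fun δ : N2 =>
        fimp (fand (meets (f x γ)) (meets (f y δ))) (fground (γ < δ)))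
    (fand (fall fun x : X => fall fun γ : N2 => fimp (meets (f x γ)) (fground (γ < α)))
      (fall fun γ : N2 => fall fun _ : γ < α => fex fun x : X => fex fun δ : N2 =>
        fand (fground (γ < δ)) (meets (f x δ)))))

/-- In the extension `C` is closed and unbounded in `β`. -/
def ClubF (C : N2 → Set P) (β : WithTop N2) : Set P :=
  fand (fall fun γ : N2 => fimp (meets (C γ)) (fground ((γ : WithTop N2) < β)))
  (fand (fall fun γ : N2 => fall fun _ : (γ : WithTop N2) < β => fex fun δ : N2 =>
      fand (fground (γ < δ)) (meets (C δ)))
    (fall fun γ : N2 => fall fun _ : (γ : WithTop N2) < β =>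
      fimp (fand (fex fun δ : N2 => fand (fground (δ < γ)) (meets (C δ)))
        (fall fun δ : N2 => fall fun _ : δ < γ => fex fun ε : N2 =>
          fand (fground (δ < ε ∧ ε < γ)) (meets (C ε))))
        (meets (C γ))))

/-- In the extension `S ∩ β` is stationary in `β`. -/
def StatF (S : N2 → Set P) (β : WithTop N2) : Set P :=
  fall fun C : N2 → Set P => fimp (ClubF C β)
    (fex fun γ : N2 => fand (meets (S γ)) (meets (C γ)))

/-- `SR(ω₂)` holds in the extension. -/
def SRF (P : Type) [Preorder P] : Set P :=
  fall fun S : N2 → Set P =>
    fimp (fand (fall fun α : N2 => fimp (meets (S α)) (CofF P ℕ α)) (StatF S ⊤))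
      (fex fun β : N2 => fand (CofF P N1 β) (StatF S β))

/-- The named subset of `N2` is countable in the extension: it is contained in the range of a
function defined on `ℕ`. -/
def CountF (x : N2 → Set P) : Set P :=
  fex fun g : ℕ → N2 → Set P => fand (IsFun g)
    (fall fun γ : N2 => fimp (meets (x γ)) (fex fun n : ℕ => meets (g n γ)))

/-- In the extension the set of all `E y` with `y ∈ N` is a stationary set of countable subsets
of `α`: all its elements are countable subsets of `α`, and for every function `F` from the finite
sequences of elements of `α` to `α` some element is closed under `F`. -/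
def StatPF (α : N2) {Y : Type} (E : Y → N2 → Set P) (N : Y → Set P) : Set P :=
  fand (fall fun y : Y => fimp (meets (N y))
      (fand (CountF (E y)) (fall fun γ : N2 => fimp (meets (E y γ)) (fground (γ < α)))))
    (fall fun F : List N2 → N2 → Set P =>
      fimp (fand (IsFun F) (fall fun l : List N2 => fall fun _ : (∀ γ ∈ l, γ < α) =>
          fall fun δ : N2 => fimp (meets (F l δ)) (fground (δ < α))))
        (fex fun y : Y => fand (meets (N y)) (fall fun l : List N2 => fall fun δ : N2 =>
          fimp (fand (fall fun γ : N2 => fall fun _ : γ ∈ l => meets (E y γ)) (meets (F l δ)))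
            (meets (E y δ)))))

/-- The named subsets of `X` are equal. -/
def SameOn {X : Type} (x y : X → Set P) : Set P :=
  fall fun a : X => fand (fimp (meets (x a)) (meets (y a))) (fimp (meets (y a)) (meets (x a)))

/-- `DSS(ω₂)` holds in the extension. The elements of the sets `N α` are among the sets `E y`
for `y : Y`, where `Y` is a set of the ground model. -/
def DSSF (P : Type) [Preorder P] : Set P :=
  fex fun S : N2 → Set P => fand (fall fun α : N2 => fimp (meets (S α)) (CofF P N1 α))
    (fand (StatF S ⊤)
      (fex fun Y : Type => fex fun E : Y → N2 → Set P => fex fun N : N2 → Y → Set P =>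
        fand (fall fun α : N2 => fimp (meets (S α)) (StatPF α E (N α)))
          (fall fun α : N2 => fall fun β : N2 => fall fun _ : α ≠ β =>
            fall fun y : Y => fall fun z : Y =>
              fimp (fand (fand (meets (S α)) (meets (S β)))
                (fand (meets (N α y)) (meets (N β z)))) (fnot (SameOn (E y) (E z))))))

/-- The weak Kurepa hypothesis fails in the extension: no tree of height and size `ω₁` (without
loss of generality its underlying set is `N1`) has `ω₂` many pairwise distinct cofinal branches.
Here `ℓ` is the level function of the tree. -/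
def NoWeakKurepaF (P : Type) [Preorder P] : Set P :=
  fall fun R : N1 → N1 → Set P => fall fun ℓ : N1 → N1 → Set P => fimp (IsTree N1 R ℓ)
    (fnot (fex fun b : N2 → N1 → Set P =>
      fand (fall fun ξ : N2 => IsCofinalBranch R ℓ (b ξ))
        (fall fun ξ : N2 => fall fun η : N2 => fall fun _ : ξ ≠ η =>
          fnot (SameOn (b ξ) (b η)))))

/-- The named subset of `ℕ` is infinite. -/
def InfF (x : ℕ → Set P) : Set P :=
  fall fun N : ℕ => fex fun k : ℕ => fand (fground (N ≤ k)) (meets (x k))

/-- `x ⊆* y`: the set `x \ y` is finite. -/
def AlmF (x y : ℕ → Set P) : Set P :=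
  fex fun N : ℕ => fall fun k : ℕ => fall fun _ : N ≤ k => fimp (meets (x k)) (meets (y k))

/-- In the extension `E` is a tower indexed by the well-ordered set `X`: all `E i` are infinite,
`E j ⊆* E i` and not `E i ⊆* E j` for `i < j` (so the family of all `E i` is well-ordered
by `⊇*` in the order type of `X`), and there is no infinite pseudo-intersection. -/
def TowerF {X : Type} [LinearOrder X] (E : X → ℕ → Set P) : Set P :=
  fand (fall fun i : X => InfF (E i))
  (fand (fall fun i : X => fall fun j : X => fall fun _ : i < j =>
      fand (AlmF (E j) (E i)) (fnot (AlmF (E i) (E j))))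
    (fnot (fex fun x : ℕ → Set P => fand (InfF x) (fall fun i : X => AlmF x (E i)))))

/-- `𝔱 = κ` in the extension: there is a tower of length `κ` and there is no shorter one. -/
def TowerNumberIs (P : Type) [Preorder P] (κ : Cardinal.{0}) : Set P :=
  fand (fex fun E : κ.ord.ToType → ℕ → Set P => TowerF E)
    (fall fun o : Ordinal.{0} => fall fun _ : o < κ.ord =>
      fnot (fex fun E : o.ToType → ℕ → Set P => TowerF E))

/-- In the extension `E` is a base of a nonprincipal ultrafilter (the ultrafilter consists of all
sets containing some `E i`): all `E i` are infinite, any two of them contain a third one, and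
every set of natural numbers contains some `E i` or is disjoint from some `E i`. -/
def UltBaseF {Y : Type} (E : Y → ℕ → Set P) : Set P :=
  fand (fall fun i : Y => InfF (E i))
  (fand (fall fun i : Y => fall fun j : Y => fex fun k : Y => fall fun n : ℕ =>
      fimp (meets (E k n)) (fand (meets (E i n)) (meets (E j n))))
    (fall fun x : ℕ → Set P => fex fun i : Y =>
      for' (fall fun n : ℕ => fimp (meets (E i n)) (meets (x n)))
        (fall fun n : ℕ => fimp (meets (E i n)) (fnot (meets (x n))))))

/-- `𝔲 = κ` in the extension: some nonprincipal ultrafilter has a base indexed by `κ`, and none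
has a base indexed by a smaller cardinal. -/
def UltNumberIs (P : Type) [Preorder P] (κ : Cardinal.{0}) : Set P :=
  fand (fex fun E : κ.out → ℕ → Set P => UltBaseF E)
    (fall fun ν : Cardinal.{0} => fall fun _ : ν < κ =>
      fnot (fex fun E : ν.out → ℕ → Set P => UltBaseF E))

end forcing

end Pool.Agent.T2h65.CP
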