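import Mathlib
import Pool.Agent.Helper669.Iter
import Pool.Agent.Helper669.MIter

/-!
# Mathias-Prikry iterations with prescribed subfamilies of the ultrafilters

As `Pool.Agent.Helper669.MIter`, with two changes: all names are countable unions of basic sets, and
at stage `ξ` a family `St ξ RR` of names is prescribed, where `RR` are the promises of the earlier
stages. If it has the finite intersection property, then the ultrafilter of stage `ξ` contains it.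
-/

set_option autoImplicit false

namespace Pool.Agent.T2h65.CP

open Cardinal Pool.Agent.Helper669.Iter

set_option linter.unusedSectionVars false

variable {I : Type} [LinearOrder I] [WellFoundedLT I]

/-- names of subsets of `ℕ`: sequences of countable unions of basic sets -/
def Nm (B : Set (Rep I)) (ξ : I) : Set (ℕ → Set (Om I)) :=
  {X | ∀ k, ∃ A : Set (Rep I), A ⊆ B ∧ A.Countable ∧ X k = ⋃ a ∈ A, bs a ξ}

/-- finite intersections are forced to be infinite -/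
def Fip (B : Set (Rep I)) (ξ : I) (U : Set (ℕ → Set (Om I))) : Prop :=
  ∀ F : Finset (ℕ → Set (Om I)), (∀ X ∈ F, X ∈ U) → ∀ q ∈ B, ∀ N : ℕ,
    ∃ q' ∈ B, q' ≤ q ∧ ∃ k ≥ N, ∀ X ∈ F, bs q' ξ ⊆ X k

theorem exists_max_of (B : Set (Rep I)) (ξ : I) (S : Set (ℕ → Set (Om I))) (hS : S ⊆ Nm B ξ)
    (hS' : Fip B ξ S) :
    ∃ U, U ⊆ Nm B ξ ∧ Fip B ξ U ∧ S ⊆ U ∧ ∀ V, U ⊆ V → V ⊆ Nm B ξ → Fip B ξ V → V ⊆ U := by
  classical
  obtain ⟨U, hSU, hU⟩ := zorn_subset_nonempty {U | U ⊆ Nm B ξ ∧ Fip B ξ U} (by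
      intro c hc hchain hne
      refine ⟨⋃₀ c, ⟨Set.sUnion_subset fun s hs => (hc hs).1, ?_⟩,
        fun s hs => Set.subset_sUnion_of_mem hs⟩
      intro F hF q hq N
      have hex : ∃ s ∈ c, ∀ X ∈ F, X ∈ s := by
        clear hq N q
        induction F using Finset.induction_on with
        | empty =>
          obtain ⟨s, hs⟩ := hne
          exact ⟨s, hs, by simp⟩
        | insert a F _ ih =>
          obtain ⟨s, hs, h1⟩ := ih fun X hX => hF X (Finset.mem_insert_of_mem hX)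
          obtain ⟨t, ht, h2⟩ := hF a (Finset.mem_insert_self a F)
          rcases hchain.total hs ht with h | h
          · refine ⟨t, ht, fun X hX => ?_⟩
            rcases Finset.mem_insert.1 hX with rfl | hX
            · exact h2
            · exact h (h1 X hX)
          · refine ⟨s, hs, fun X hX => ?_⟩
            rcases Finset.mem_insert.1 hX with rfl | hX
            · exact h h2
            · exact h1 X hX
      obtain ⟨s, hs, h1⟩ := hex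
      exact (hc hs).2 F h1 q hq N) S ⟨hS, hS'⟩
  exact ⟨U, hU.prop.1, hU.prop.2, hSU, fun V h1 h2 h3 => hU.le_of_ge ⟨h2, h3⟩ h1⟩

theorem exists_max (B : Set (Rep I)) (ξ : I) (S : Set (ℕ → Set (Om I))) :
    ∃ U, U ⊆ Nm B ξ ∧ Fip B ξ U ∧ (S ⊆ Nm B ξ → Fip B ξ S → S ⊆ U) ∧
      ∀ V, U ⊆ V → V ⊆ Nm B ξ → Fip B ξ V → V ⊆ U := by
  by_cases h : S ⊆ Nm B ξ ∧ Fip B ξ S
  · obtain ⟨U, h1, h2, h3, h4⟩ := exists_max_of B ξ S h.1 h.2
    exact ⟨U, h1, h2, fun _ _ => h3, h4⟩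
  · obtain ⟨U, h1, h2, h3, h4⟩ := exists_max_of B ξ ∅ (Set.empty_subset _)
      fun F hF q hq N => ⟨q, hq, le_rfl, N, le_rfl, fun X hX => absurd (hF X hX) (Set.notMem_empty _)⟩
    exact ⟨U, h1, h2, fun h5 h6 => absurd ⟨h5, h6⟩ h, h4⟩

/-- the chosen name of an ultrafilter -/
noncomputable def Uf (B : Set (Rep I)) (ξ : I) (S : Set (ℕ → Set (Om I))) :
    Set (ℕ → Set (Om I)) := (exists_max B ξ S).choose

theorem Uf_sub (B : Set (Rep I)) (ξ : I) (S : Set (ℕ → Set (Om I))) : Uf B ξ S ⊆ Nm B ξ :=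
  (exists_max B ξ S).choose_spec.1

theorem Uf_fip (B : Set (Rep I)) (ξ : I) (S : Set (ℕ → Set (Om I))) : Fip B ξ (Uf B ξ S) :=
  (exists_max B ξ S).choose_spec.2.1

theorem sub_Uf (B : Set (Rep I)) (ξ : I) {S : Set (ℕ → Set (Om I))} (h : S ⊆ Nm B ξ)
    (h' : Fip B ξ S) : S ⊆ Uf B ξ S :=
  (exists_max B ξ S).choose_spec.2.2.1 h h'

theorem Uf_max (B : Set (Rep I)) (ξ : I) (S : Set (ℕ → Set (Om I))) {V : Set (ℕ → Set (Om I))}
    (h : Uf B ξ S ⊆ V) (h' : V ⊆ Nm B ξ) (h'' : Fip B ξ V) : V ⊆ Uf B ξ S :=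
  (exists_max B ξ S).choose_spec.2.2.2 V h h' h''

/-- the promise that the first components lie in the set named by `X` -/
def pm (X : ℕ → Set (Om I)) : Pr I := fun _ m => X (Nat.unpair m).1

/-- the admissible promises at stage `ξ` -/
noncomputable def MStep (B : Set (Rep I)) (ξ : I) (S : Set (ℕ → Set (Om I))) : Set (Pr I) :=
  pm '' Uf B ξ S

/-- a strategy: it prescribes a family of names at each stage, depending on the promises of the
earlier stages -/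
abbrev Strat (I : Type) : Type := I → (I → Set (Pr I)) → Set (ℕ → Set (Om I))

open Classical in
/-- the part of a sequence below `ξ` -/
noncomputable def cut (RR : I → Set (Pr I)) (ξ : I) : I → Set (Pr I) :=
  fun η => if η < ξ then RR η else ∅

variable (St : Strat I)

open Classical in
/-- the admissible promises, by recursion -/
noncomputable def MR : I → Set (Pr I) :=
  WellFoundedLT.fix (motive := fun _ : I => Set (Pr I)) fun ξ f =>
    MStep {r | (∀ η, ∀ h : η < ξ, ∀ R ∈ r.pr η, R ∈ f η h) ∧ Below r ξ} ξ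
      (St ξ fun η => if h : η < ξ then f η h else ∅)

theorem MR_eq (ξ : I) : MR St ξ = MStep (Vd (MR St) ξ) ξ (St ξ (cut (MR St) ξ)) := by
  rw [MR, WellFoundedLT.fix_eq]
  have h1 : {r : Rep I | (∀ η, ∀ _ : η < ξ, ∀ R ∈ r.pr η, R ∈ MR St η) ∧ Below r ξ} =
      Vd (MR St) ξ := by
    ext r
    constructor
    · rintro ⟨h1, h2⟩
      refine ⟨fun η R hR => ?_, h2⟩
      by_cases hη : η < ξ
      · exact h1 η hη R hR
      · rw [(h2 η (not_lt.1 hη)).2] at hR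
        exact absurd hR (Finset.notMem_empty R)
    · rintro ⟨h1, h2⟩
      exact ⟨fun η _ R hR => h1 η R hR, h2⟩
  have h2 : (fun η => if _ : η < ξ then MR St η else ∅) = cut (MR St) ξ := by
    funext η
    by_cases hη : η < ξ
    · simp [cut, hη]
    · simp [cut, hη]
  exact congrArg₂ (fun B S => MStep B ξ (St ξ S)) h1 h2

/-- the chosen ultrafilter at stage `ξ` -/
noncomputable def UU (ξ : I) : Set (ℕ → Set (Om I)) :=
  Uf (Vd (MR St) ξ) ξ (St ξ (cut (MR St) ξ))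

variable {St}

theorem mem_MR {ξ : I} {X : ℕ → Set (Om I)} (h : X ∈ UU St ξ) : pm X ∈ MR St ξ := by
  rw [MR_eq]
  exact ⟨X, h, rfl⟩

theorem Vd_cut (RR : I → Set (Pr I)) {η ξ : I} (h : η ≤ ξ) : Vd (cut RR ξ) η = Vd RR η := by
  ext r
  constructor
  · rintro ⟨h1, h2⟩
    refine ⟨fun ζ R hR => ?_, h2⟩
    have h3 := h1 ζ R hR
    unfold cut at h3
    split_ifs at h3
    · exact h3
    · exact absurd h3 (Set.notMem_empty R)
  · rintro ⟨h1, h2⟩
    refine ⟨fun ζ R hR => ?_, h2⟩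
    by_cases hζ : ζ < η
    · unfold cut
      rw [if_pos (hζ.trans_le h)]
      exact h1 ζ R hR
    · rw [(h2 ζ (not_lt.1 hζ)).2] at hR
      exact absurd hR (Finset.notMem_empty R)

theorem Nm_open {B : Set (Rep I)} {ξ : I} {X : ℕ → Set (Om I)} (hX : X ∈ Nm B ξ) (k : ℕ)
    {w : Om I} (hw : w ∈ X k) : ∃ q ∈ B, w ∈ bs q ξ ∧ bs q ξ ⊆ X k := by
  obtain ⟨A, hA, _, h⟩ := hX k
  rw [h] at hw
  simp only [Set.mem_iUnion] at hw
  obtain ⟨a, ha, hwa⟩ := hw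
  exact ⟨a, hA ha, hwa, by rw [h]; exact fun v hv => Set.mem_biUnion ha hv⟩

theorem amal_MR (ξ : I) (F : Finset (Pr I)) (hF : ∀ R ∈ F, R ∈ MR St ξ) (N : ℕ) (q : Rep I)
    (hq : q ∈ Vd (MR St) ξ) : ∃ q' ∈ Vd (MR St) ξ, q' ≤ q ∧ ∃ k ≥ N, ∀ R ∈ F, ∀ n i,
      bs q' ξ ⊆ R n (Nat.pair k i) := by
  classical
  have h : ∀ R : Pr I, ∃ X, R ∈ F → (X ∈ UU St ξ ∧ pm X = R) := by
    intro R
    by_cases hR : R ∈ F
    · have := hF R hR
      rw [MR_eq] at this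
      obtain ⟨X, hX, hXR⟩ := this
      exact ⟨X, fun _ => ⟨hX, hXR⟩⟩
    · exact ⟨fun _ => ∅, fun h => absurd h hR⟩
  choose X hX using h
  obtain ⟨q', hq', hle, k, hk, h1⟩ := Uf_fip (Vd (MR St) ξ) ξ _ (F.image X) (fun Y hY => by
    obtain ⟨R, hR, rfl⟩ := Finset.mem_image.1 hY
    exact (hX R hR).1) q hq N
  refine ⟨q', hq', hle, k, hk, fun R hR n i => ?_⟩
  have h2 := h1 (X R) (Finset.mem_image_of_mem X hR)
  rw [← (hX R hR).2]
  simpa [pm] using h2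

theorem good (ξ : I) : Good (MR St) ξ where
  opn R hR n m w hw := by
    rw [MR_eq] at hR
    obtain ⟨X, hX, rfl⟩ := hR
    exact Nm_open (Uf_sub _ _ _ hX) _ hw
  amal F hF n q hq := by
    obtain ⟨q', hq', hle, k, _, h⟩ := amal_MR ξ F hF 0 q hq
    exact ⟨q', hq', hle, Nat.pair k 0, fun R hR => h R hR n 0⟩

/-- every set of valid conditions below `ξ` has a countable predense subset -/
theorem exists_predense_Vd {RR : I → Set (Pr I)} (ξ : I) (D : Set (Rep I)) (hD : D ⊆ Vd RR ξ)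
    (hdown : ∀ a ∈ D, ∀ b ∈ Vd RR ξ, b ≤ a → b ∈ D) : ∃ A ⊆ D, A.Countable ∧
      ∀ d ∈ D, ∃ a ∈ A, ∃ s ∈ D, s ≤ a ∧ s ≤ d := by
  obtain ⟨A, hA⟩ := zorn_subset {A : Set (Rep I) | A ⊆ D ∧ ∀ a ∈ A, ∀ b ∈ A,
    (∃ s ∈ Vd RR ξ, s ≤ a ∧ s ≤ b) → a = b} (by
      intro c hc hchain
      refine ⟨⋃₀ c, ⟨Set.sUnion_subset fun s hs => (hc hs).1, ?_⟩,
        fun s hs => Set.subset_sUnion_of_mem hs⟩
      rintro a ⟨s, hs, ha⟩ b ⟨t, ht, hb⟩ hab
      rcases hchain.total hs ht with h | h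
      · exact (hc ht).2 a (h ha) b hb hab
      · exact (hc hs).2 a ha b (h hb) hab)
  refine ⟨A, hA.prop.1, ?_, fun d hd => ?_⟩
  · by_contra hcount
    have hcount' : ¬ Countable A := hcount
    obtain ⟨y, y', hne, q, hq, h⟩ := ccc (RR := RR) (τ := ξ) (fun a : A => a.1)
      (fun a => hD (hA.prop.1 a.2)) hcount'
    exact hne (Subtype.ext (hA.prop.2 y.1 y.2 y'.1 y'.2 ⟨q, hq, h⟩))
  · by_contra hcon
    push Not at hcon
    have hd' : d ∉ A := fun h => hcon d h d hd le_rfl le_rfl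
    have hmem : insert d A ∈ {A : Set (Rep I) | A ⊆ D ∧ ∀ a ∈ A, ∀ b ∈ A,
        (∃ s ∈ Vd RR ξ, s ≤ a ∧ s ≤ b) → a = b} := by
      refine ⟨Set.insert_subset hd hA.prop.1, ?_⟩
      rintro a (rfl | ha) b (rfl | hb) ⟨s, hs, h1, h2⟩
      · rfl
      · exact absurd h1 (hcon b hb s (hdown _ hd s hs h1) h2)
      · exact absurd h2 (hcon a ha s (hdown _ hd s hs h2) h1)
      · exact hA.prop.2 a ha b hb ⟨s, hs, h1, h2⟩
    exact hd' (hA.le_of_ge hmem (Set.subset_insert d A) (Set.mem_insert d A))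

/-- the ultrafilter decides every name -/
theorem decide_name {ξ : I} {X : ℕ → Set (Om I)} (hX : X ∈ Nm (Vd (MR St) ξ) ξ) (q : Rep I) :
    (∃ q' ∈ Vd (MR St) ξ, q' ≤ q ∧ ∃ F : Finset (ℕ → Set (Om I)), (∀ Y ∈ F, Y ∈ UU St ξ) ∧
      ∃ N : ℕ, ∀ r ∈ Vd (MR St) ξ, r ≤ q' → ∀ k ≥ N,
        ¬ ((∀ Y ∈ F, bs r ξ ⊆ Y k) ∧ bs r ξ ⊆ X k)) ∨
    ∃ X' ∈ UU St ξ, ∀ r ∈ Vd (MR St) ξ, r ≤ q → ∀ k, bs r ξ ⊆ X' k → bs r ξ ⊆ X k := by
  classical
  set D : Set (Rep I) := {q' | q' ∈ Vd (MR St) ξ ∧ ∃ F : Finset (ℕ → Set (Om I)),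
    (∀ Y ∈ F, Y ∈ UU St ξ) ∧ ∃ N : ℕ, ∀ r ∈ Vd (MR St) ξ, r ≤ q' → ∀ k ≥ N,
      ¬ ((∀ Y ∈ F, bs r ξ ⊆ Y k) ∧ bs r ξ ⊆ X k)} with hD
  have hdown : ∀ a ∈ D, ∀ b ∈ Vd (MR St) ξ, b ≤ a → b ∈ D := by
    rintro a ⟨_, F, hF, N, h⟩ b hb hba
    exact ⟨hb, F, hF, N, fun r hr hrb => h r hr (hrb.trans hba)⟩
  by_cases hcase : ∃ q' ∈ D, q' ≤ q
  · left
    obtain ⟨q', ⟨h1, F, hF, N, h⟩, hle⟩ := hcase
    exact ⟨q', h1, hle, F, hF, N, h⟩
  right
  obtain ⟨A, hAD, hAc, hApre⟩ := exists_predense_Vd ξ D (fun a ha => ha.1) hdown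
  set X' : ℕ → Set (Om I) := fun k => (⋃ a ∈ A, bs a ξ) ∪ X k with hX'
  have hX'Nm : X' ∈ Nm (Vd (MR St) ξ) ξ := by
    intro k
    obtain ⟨A', hA', hA'c, h⟩ := hX k
    refine ⟨A ∪ A', Set.union_subset (hAD.trans fun a ha => ha.1) hA', hAc.union hA'c, ?_⟩
    show (⋃ a ∈ A, bs a ξ) ∪ X k = _
    rw [Set.biUnion_union, h]
  have hfip : Fip (Vd (MR St) ξ) ξ (insert X' (UU St ξ)) := by
    intro F hF p hp N
    have hF' : ∀ Y ∈ F.erase X', Y ∈ UU St ξ := by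
      intro Y hY
      obtain ⟨h1, h2⟩ := Finset.mem_erase.1 hY
      rcases hF Y h2 with h | h
      · exact absurd h h1
      · exact h
    have key : ∃ q' ∈ Vd (MR St) ξ, q' ≤ p ∧ ∃ k ≥ N, (∀ Y ∈ F.erase X', bs q' ξ ⊆ Y k) ∧
        bs q' ξ ⊆ X' k := by
      by_cases hc : ∃ p' ∈ D, p' ≤ p
      · obtain ⟨p', hp', hle⟩ := hc
        obtain ⟨a, ha, s, hs, hsa, hsp⟩ := hApre p' hp'
        obtain ⟨q', hq', hle', k, hk, h⟩ := Uf_fip (Vd (MR St) ξ) ξ _ (F.erase X') hF' s hs.1 N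
        refine ⟨q', hq', hle'.trans (hsp.trans hle), k, hk, h, fun w hw => Or.inl ?_⟩
        exact Set.mem_biUnion ha (bs_le (hle'.trans hsa) ξ hw)
      · have hp' : p ∉ D := fun h => hc ⟨p, h, le_rfl⟩
        have : ∃ r ∈ Vd (MR St) ξ, r ≤ p ∧ ∃ k ≥ N, (∀ Y ∈ F.erase X', bs r ξ ⊆ Y k) ∧
            bs r ξ ⊆ X k := by
          by_contra hcon
          push Not at hcon
          refine hp' ⟨hp, F.erase X', hF', N, fun r hr hrp k hk hh => ?_⟩
          exact hcon r hr hrp k hk hh.1 hh.2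
        obtain ⟨r, hr, hrp, k, hk, h1, h2⟩ := this
        exact ⟨r, hr, hrp, k, hk, h1, fun w hw => Or.inr (h2 hw)⟩
    obtain ⟨q', hq', hle, k, hk, h1, h2⟩ := key
    refine ⟨q', hq', hle, k, hk, fun Y hY => ?_⟩
    by_cases hYX : Y = X'
    · rw [hYX]; exact h2
    · exact h1 Y (Finset.mem_erase.2 ⟨hYX, hY⟩)
  have hmem : X' ∈ UU St ξ := by
    refine Uf_max (Vd (MR St) ξ) ξ _ (V := insert X' (UU St ξ)) (Set.subset_insert _ _) ?_ hfip
      (Set.mem_insert _ _)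
    exact Set.insert_subset hX'Nm (Uf_sub _ _ _)
  refine ⟨X', hmem, fun r hr hrq k hk w hw => ?_⟩
  rcases hk hw with h | h
  · exfalso
    simp only [Set.mem_iUnion] at h
    obtain ⟨a, ha, hwa⟩ := h
    obtain ⟨s, hs, h1, h2⟩ := compat_of_point good hr (hAD ha).1 hw hwa
    exact hcase ⟨s, hdown a (hAD ha) s hs h2, h1.trans hrq⟩
  · exact h

end Pool.Agent.T2h65.CP
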