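import Mathlib
import Pool.Agent.T2h65.CP.It
import Pool.Agent.Helper669.GBase
import Pool.Agent.Helper669.MMain
import Pool.Agent.T2h65.CP.Defs

/-!
# The poset of the iteration, the generic sets

As `Pool.Agent.Helper669.MMain`, for the iteration of `Pool.Agent.T2h65.CP.It`.
-/

set_option autoImplicit false

namespace Pool.Agent.T2h65.CP

open Cardinal Pool.Agent.Helper669.Iter Pool.Agent.Helper669.Forcing
  Pool.Agent.Helper669.GBase Pool.Agent.Helper669.Forcing2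
open Pool.Agent.Helper669.MMain (InfSet FSplits down_InfSet down_FSplits addG addG_pr addG_le
  addG_mem exists_stem_bound LtReaping)

set_option linter.unusedSectionVars false

variable {J : Type} [LinearOrder J] [WellFoundedLT J]

/-- the poset -/
abbrev PM (St : Strat (WithTop J)) : Type := Cd (MR St)

variable {St : Strat (WithTop J)}

/-! ### Extending conditions -/

theorem push_pair (r : PM St) (η : J) (N i : ℕ) :
    ∃ k ≥ N, ∃ r' ≤ r, r'.1.st (η : WithTop J) = r.1.st η ++ [Nat.pair k i] := by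
  have hη : (η : WithTop J) < ⊤ := WithTop.coe_lt_top η
  obtain ⟨q, hq, hle, k, hk, h⟩ := amal_MR (η : WithTop J) (r.1.pr η) (r.2.1 η) N
    (res r.1 η) (res_mem r.2.1 η)
  refine ⟨k, hk, ⟨push (glue q r.1 η) η (Nat.pair k i),
    push_mem (glue_mem hq r.2 hη.le) hη _⟩, ?_, ?_⟩
  · show push (glue q r.1 η) η (Nat.pair k i) ≤ r.1
    refine le_trans (push_le fun R hR => ?_) (glue_le hle)
    rw [glue_pr_ge le_rfl] at hR
    rw [glue_st_ge le_rfl, bs_glue le_rfl]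
    exact h R hR _ i
  · show (push (glue q r.1 η) η (Nat.pair k i)).st η = _
    rw [push_st_self, glue_st_ge le_rfl]

theorem push_to (ξ : J) (k i : ℕ) : ∀ d : ℕ, ∀ r : PM St, (r.1.st (ξ : WithTop J)).length + d = k →
    ∃ r' ≤ r, k < (r'.1.st (ξ : WithTop J)).length ∧
      (Nat.unpair ((r'.1.st (ξ : WithTop J)).getD k 0)).2 = i := by
  intro d
  induction d with
  | zero =>
    intro r hr
    obtain ⟨m, _, r', h1, h2⟩ := push_pair r ξ 0 i
    rw [Nat.add_zero] at hr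
    refine ⟨r', h1, by rw [h2]; simp; omega, ?_⟩
    rw [h2, List.getD_append_right _ _ _ _ hr.le, hr]
    simp
  | succ d ih =>
    intro r hr
    obtain ⟨m, _, r', h1, h2⟩ := push_pair r ξ 0 i
    obtain ⟨r'', h3, h4, h5⟩ := ih r' (by rw [h2]; simp; omega)
    exact ⟨r'', h3.trans h1, h4, h5⟩

/-! ### The generic sets -/

/-- the name of the generic pseudo-intersection added at coordinate `ξ` -/
def Mm (St : Strat (WithTop J)) (ξ : J) (k : ℕ) : Set (PM St) :=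
  {p | ∃ n < (p.1.st (ξ : WithTop J)).length,
    (Nat.unpair ((p.1.st (ξ : WithTop J)).getD n 0)).1 = k}

/-- the name of the Cohen set added at coordinate `ξ` -/
def Ch (St : Strat (WithTop J)) (ξ : J) (k : ℕ) : Set (PM St) :=
  {p | k < (p.1.st (ξ : WithTop J)).length ∧
    (Nat.unpair ((p.1.st (ξ : WithTop J)).getD k 0)).2 = 1}

theorem down_Mm (ξ : J) (k : ℕ) : Down (Mm St ξ k) := by
  rintro p ⟨n, h1, h2⟩ q hq
  obtain ⟨h3, h4⟩ := st_mono hq ξ h1
  exact ⟨n, h3, by rw [h4]; exact h2⟩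

theorem down_Ch (ξ : J) (k : ℕ) : Down (Ch St ξ k) := by
  rintro p ⟨h1, h2⟩ q hq
  obtain ⟨h3, h4⟩ := st_mono hq ξ h1
  exact ⟨h3, by rw [h4]; exact h2⟩

theorem not_Ch {ξ : J} {k i : ℕ} (hi : i ≠ 1) {p : PM St}
    (h1 : k < (p.1.st (ξ : WithTop J)).length)
    (h2 : (Nat.unpair ((p.1.st (ξ : WithTop J)).getD k 0)).2 = i) : p ∈ fnot (meets (Ch St ξ k)) := by
  intro q hq hm
  obtain ⟨r, hr, h3⟩ := exists_of_meets (down_Ch ξ k) hm
  obtain ⟨h4, h5⟩ := st_mono (hr.trans hq) ξ h1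
  apply hi
  rw [← h2, ← h5]
  exact h3.2

/-! ### Deciding names -/

theorem exists_decideA (x : ℕ → Set (PM St)) (k : ℕ) : ∃ A : Set (PM St), A.Countable ∧
    (∀ a ∈ A, a ∈ meets (x k) ∨ a ∈ fnot (meets (x k))) ∧ ∀ p, ∃ a ∈ A, Compat a p := by
  obtain ⟨A, h1, h2, h3, _⟩ := exists_antichain
    {q : PM St | q ∈ meets (x k) ∨ q ∈ fnot (meets (x k))} (fun q => by
      by_cases hq : q ∈ fnot (meets (x k))
      · exact ⟨q, le_rfl, Or.inr hq⟩
      · simp only [fnot, Set.mem_ofPred_eq, not_forall, not_not] at hq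
        obtain ⟨q', hq', h⟩ := hq
        exact ⟨q', hq', Or.inl h⟩)
  exact ⟨A, h2, h1, h3⟩

/-- the name `x` is decided by conditions below `ξ` -/
def DecBelow (x : ℕ → Set (PM St)) (ξ : J) : Prop :=
  ∀ k, ∃ A : Set (PM St), A.Countable ∧ (∀ a ∈ A, Below a.1 (ξ : WithTop J)) ∧
    (∀ a ∈ A, a ∈ meets (x k) ∨ a ∈ fnot (meets (x k))) ∧ ∀ p, ∃ a ∈ A, Compat a p

theorem exists_decBelow {κ : Cardinal.{0}} (hκ : ℵ₀ ≤ κ)
    (hcof : ∀ S : Set J, #S ≤ κ → ∃ b, ∀ s ∈ S, s < b) {Y : Type} (hY : #Y ≤ κ)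
    (E : Y → ℕ → Set (PM St)) : ∃ b : J, ∀ ξ, b ≤ ξ → ∀ y, DecBelow (E y) ξ := by
  choose A hA1 hA2 hA3 using fun y k => exists_decideA (E y) k
  obtain ⟨b, hb⟩ := exists_below hκ hcof (A := ⋃ y, ⋃ k, A y k) (by
    refine (mk_iUnion_le_sum_mk).trans ?_
    refine (Cardinal.sum_le_sum _ (fun _ => ℵ₀) fun y => ?_).trans ?_
    · exact Cardinal.le_aleph0_iff_set_countable.2 (Set.countable_iUnion fun k => hA1 y k)
    · rw [Cardinal.sum_const']
      exact (mul_le_mul' hY hκ).trans (mul_eq_self hκ).le)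
  refine ⟨b, fun ξ hξ y k => ⟨A y k, hA1 y k, fun a ha => ?_, hA2 y k, hA3 y k⟩⟩
  exact (hb a (Set.mem_iUnion.2 ⟨y, Set.mem_iUnion.2 ⟨k, ha⟩⟩)).mono (WithTop.coe_le_coe.2 hξ)

/-! ### The generic set is not split by earlier sets -/

theorem unsplit {x : ℕ → Set (PM St)} {ξ : J} (hx : DecBelow x ξ) (p : PM St) :
    ∃ p' ≤ p, ∃ N : ℕ, (∀ k ≥ N, ∀ r ≤ p', r ∈ meets (Mm St ξ k) → r ∉ meets (x k)) ∨
      (∀ k ≥ N, ∀ r ≤ p', r ∈ meets (Mm St ξ k) → r ∉ fnot (meets (x k))) := by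
  classical
  choose A hA0 hA1 hA2 hA3 using hx
  have hξ : (ξ : WithTop J) < ⊤ := WithTop.coe_lt_top ξ
  let X : ℕ → Set (Om (WithTop J)) := fun k =>
    ⋃ a ∈ {a | a ∈ A k ∧ a ∈ meets (x k)}, bs a.1 (ξ : WithTop J)
  have hX : X ∈ Nm (Vd (MR St) (ξ : WithTop J)) (ξ : WithTop J) := by
    intro k
    refine ⟨Subtype.val '' {a | a ∈ A k ∧ a ∈ meets (x k)}, ?_,
      ((hA0 k).mono fun a ha => ha.1).image _, ?_⟩
    · rintro _ ⟨a, ha, rfl⟩
      exact ⟨a.2.1, hA1 k a ha.1⟩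
    · rw [Set.biUnion_image]
      rfl
  obtain ⟨N₀, hN₀⟩ := exists_stem_bound (p.1.st (ξ : WithTop J))
  rcases decide_name hX (resP p ξ).1 with ⟨q', hq', hle, F, hF, N, h⟩ | ⟨X', hX', h⟩
  · let g : PM St := glueP ⟨q', hq'.1, hq'.2.mono le_top⟩ p ξ
    have hgp : g ≤ p := glueP_le hle
    have hgq : g ≤ (⟨q', hq'.1, hq'.2.mono le_top⟩ : PM St) := glueP_le_left hq'.2
    let p' : PM St := ⟨addG g.1 ξ (F.image pm), addG_mem g.2 hξ fun R hR => by
      obtain ⟨Y, hY, rfl⟩ := Finset.mem_image.1 hR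
      exact mem_MR (hF Y hY)⟩
    have hp'g : p' ≤ g := addG_le g.1 ξ _
    have hst : p'.1.st (ξ : WithTop J) = p.1.st ξ := by
      show (glue q' p.1 (ξ : WithTop J)).st ξ = _
      exact glue_st_ge le_rfl
    refine ⟨p', hp'g.trans hgp, max N N₀, Or.inl fun k hk r hr hm hrx => ?_⟩
    obtain ⟨r1, hr1, n, hn, hnk⟩ := exists_of_meets (down_Mm ξ k) hm
    have hr1p' : r1 ≤ p' := hr1.trans hr
    have hnlen : (p'.1.st (ξ : WithTop J)).length ≤ n := by
      by_contra hcon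
      obtain ⟨_, h2⟩ := st_mono hr1p' ξ (not_le.1 hcon)
      rw [h2, hst] at hnk
      have := hN₀ n (by rw [← hst]; exact not_le.1 hcon)
      rw [hnk] at this
      exact absurd ((le_max_right _ _).trans hk) (not_le.2 this)
    obtain ⟨a, ha, s, hsa, hsr⟩ := hA3 k r1
    have hax : a ∈ meets (x k) := by
      rcases hA2 k a ha with h1 | h1
      · exact h1
      · exact absurd (down_meets _ _ hrx s (hsr.trans hr1)) (h1 s hsa)
    refine h (resP s ξ).1 (resP_mem s ξ) ?_ k ((le_max_left _ _).trans hk) ⟨fun Y hY => ?_, ?_⟩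
    · exact resP_le (q := (⟨q', hq'.1, hq'.2.mono le_top⟩ : PM St))
        (hsr.trans (hr1p'.trans (hp'g.trans hgq))) hq'.2
    · have h1 := (hr1p' (ξ : WithTop J)).2.2 (pm Y)
        (addG_pr (Finset.mem_image_of_mem pm hY)) n hnlen hn
      have h2 : bs (resP s ξ).1 (ξ : WithTop J) = bs s.1 (ξ : WithTop J) := bs_res le_rfl
      rw [h2]
      have h3 : bs r1.1 (ξ : WithTop J) ⊆
        Y (Nat.unpair ((r1.1.st (ξ : WithTop J)).getD n 0)).1 := h1
      rw [hnk] at h3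
      exact (bs_le hsr _).trans h3
    · have h2 : bs (resP s ξ).1 (ξ : WithTop J) = bs s.1 (ξ : WithTop J) := bs_res le_rfl
      rw [h2]
      exact fun v hv => Set.mem_biUnion (⟨ha, hax⟩ : a ∈ {a | a ∈ A k ∧ a ∈ meets (x k)})
        (bs_le hsa _ hv)
  · let p' : PM St := ⟨addG p.1 ξ {pm X'}, addG_mem p.2 hξ fun R hR => by
      rw [Finset.mem_singleton] at hR
      rw [hR]
      exact mem_MR hX'⟩
    have hp'p : p' ≤ p := addG_le p.1 ξ _
    have hst : p'.1.st (ξ : WithTop J) = p.1.st ξ := rfl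
    refine ⟨p', hp'p, N₀, Or.inr fun k hk r hr hm hrx => ?_⟩
    obtain ⟨r1, hr1, n, hn, hnk⟩ := exists_of_meets (down_Mm ξ k) hm
    have hr1p' : r1 ≤ p' := hr1.trans hr
    have hnlen : (p'.1.st (ξ : WithTop J)).length ≤ n := by
      by_contra hcon
      obtain ⟨_, h2⟩ := st_mono hr1p' ξ (not_le.1 hcon)
      rw [h2, hst] at hnk
      have := hN₀ n (by rw [← hst]; exact not_le.1 hcon)
      rw [hnk] at this
      exact absurd hk (not_le.2 this)
    have h1 := (hr1p' (ξ : WithTop J)).2.2 (pm X')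
      (addG_pr (Finset.mem_singleton_self _)) n hnlen hn
    have h2 : bs (resP r1 ξ).1 (ξ : WithTop J) = bs r1.1 (ξ : WithTop J) := bs_res le_rfl
    have h1' : bs r1.1 (ξ : WithTop J) ⊆
      X' (Nat.unpair ((r1.1.st (ξ : WithTop J)).getD n 0)).1 := h1
    rw [hnk] at h1'
    have h3 := h (resP r1 ξ).1 (resP_mem r1 ξ) (resP_mono (hr1p'.trans hp'p) ξ) k (by
      rw [h2]
      exact h1')
    obtain ⟨w, hw⟩ := bs_nonempty good r1.2
    have h4 := h3 (by rw [h2]; exact hw ξ)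
    simp only [X, Set.mem_iUnion] at h4
    obtain ⟨a, ha, hwa⟩ := h4
    obtain ⟨q, hq, hq1, hq2⟩ := compat_of_point good (resP_mem r1 ξ)
      ⟨a.2.1, hA1 k a ha.1⟩ (by rw [h2]; exact hw ξ) hwa
    obtain ⟨s, hs1, hs2, _⟩ := compat_res (p := r1) (hA1 k a ha.1)
      ⟨⟨q, hq.1, hq.2.mono le_top⟩, hq2, hq1⟩
    exact hrx s (hs2.trans hr1) (down_meets _ _ ha.2 s hs1)

theorem infSet_Mm (ξ : J) (p : PM St) : p ∈ InfSet (Mm St ξ) := by
  refine fun N => mem_fex.2 fun q _ => ?_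
  obtain ⟨k, hk, r, hr, hst⟩ := push_pair q ξ N 0
  refine ⟨r, hr, k, hk, meets_of_mem ⟨(q.1.st (ξ : WithTop J)).length, ?_, ?_⟩⟩
  · rw [hst]; simp
  · rw [hst, List.getD_append_right _ _ _ _ le_rfl]; simp

/-! ### The Cohen set splits earlier sets -/

theorem cohen_hits {x : ℕ → Set (PM St)} {ξ : J} (hx : DecBelow x ξ) {p : PM St}
    (hp : p ∈ InfSet x) (N i : ℕ) : ∃ k ≥ N, ∃ t ≤ p, t ∈ meets (x k) ∧
      k < (t.1.st (ξ : WithTop J)).length ∧
      (Nat.unpair ((t.1.st (ξ : WithTop J)).getD k 0)).2 = i := by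
  obtain ⟨r, hr, k, hk, hrx⟩ :=
    mem_fex.1 (hp (max N (p.1.st (ξ : WithTop J)).length)) p le_rfl
  have hk' : max N (p.1.st (ξ : WithTop J)).length ≤ k := hk
  obtain ⟨A, _, hA1, hA2, hA3⟩ := hx k
  obtain ⟨a, ha, s, hsa, hsr⟩ := hA3 r
  have hax : a ∈ meets (x k) := by
    rcases hA2 a ha with h1 | h1
    · exact h1
    · exact absurd (down_meets _ _ hrx s hsr) (h1 s hsa)
  obtain ⟨t, ht1, ht2, ht3⟩ := compat_res (p := p) (hA1 a ha)
    ⟨s, hsa, (hsr.trans hr).trans (le_resP p ξ)⟩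
  have hlen : (t.1.st (ξ : WithTop J)).length ≤ k := by
    rw [(ht3 _ le_rfl).1]
    exact (le_max_right _ _).trans hk'
  obtain ⟨t', ht', h1, h2⟩ := push_to ξ k i (k - (t.1.st (ξ : WithTop J)).length) t (by omega)
  exact ⟨k, (le_max_left _ _).trans hk', t', ht'.trans ht2,
    down_meets _ _ hax t' (ht'.trans ht1), h1, h2⟩

theorem ltReaping {κ : Cardinal.{0}} (hκ : ℵ₀ ≤ κ)
    (hcof : ∀ S : Set J, #S ≤ κ → ∃ b, ∀ s ∈ S, s < b) {Y : Type} (hY : #Y ≤ κ) (p : PM St) :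
    p ∈ LtReaping (PM St) Y := by
  intro E
  obtain ⟨b, hb⟩ := exists_decBelow hκ hcof hY E
  refine mem_fimp.2 fun q _ hq => ⟨q, le_rfl, ?_⟩
  refine mem_fex_of_mem (Ch St b) (down_fall fun _ => down_FSplits _ _) fun y => ⟨fun N => ?_,
    fun N => ?_⟩
  · refine mem_fex.2 fun r hr => ?_
    obtain ⟨k, hk, t, ht, h1, h2, h3⟩ :=
      cohen_hits (hb b le_rfl y) (down_InfSet _ _ (hq y) r hr) N 1
    exact ⟨t, ht, k, hk, h1, meets_of_mem ⟨h2, h3⟩⟩
  · refine mem_fex.2 fun r hr => ?_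
    obtain ⟨k, hk, t, ht, h1, h2, h3⟩ :=
      cohen_hits (hb b le_rfl y) (down_InfSet _ _ (hq y) r hr) N 0
    exact ⟨t, ht, k, hk, h1, not_Ch (by norm_num) h2 h3⟩


end Pool.Agent.T2h65.CP
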