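import Mathlib
import Pool.Agent.T2h65.CP.MM
import Pool.Agent.W873.Gmp.Typed

/-!
# Board t65_tasks, project CP: the statements

Theorem (full answer to MP_dbe197_lc). If `GMP`, `SR(ω₂)`, `DSS(ω₂)` hold, `κ` is regular,
`ω₂ ≤ κ < μ = 2^ω` and `μ^ν ≤ μ` for all `ν < κ`, then some σ-centered forcing notion forces
`SR(ω₂)`, `TP(ω₂)`, `¬wKH(ω₁)`, `DSS(ω₂)` and `𝔱 = 𝔲 = κ < 2^ω = μ`.

The forcing notion is `PM (Stg κ μ o bk)`: the finite support iteration along `κ ×_lex μ` of
Mathias-Prikry forcings with ultrafilters (definitions and basic lemmas in `It.lean`, `MM.lean`).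

Each task `X` is the proposition `S_X`; the hypotheses of the form `S_Y →` in front of it are
results of other tasks. Deliver `Pool/Agent/T2h65/CP/T_X.lean` with `theorem t_X : S_X`.
-/

set_option autoImplicit false

namespace Pool.Agent.T2h65.CP

open Cardinal Pool.Agent.Helper669.Iter Pool.Agent.Helper669.Forcing
  Pool.Agent.Helper669.GBase Pool.Agent.W873.Gmp

/-! ### Ground model and extension -/

/-- the countable chain condition, in the form: each set of conditions has a countable subset
which is predense in it -/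
def CC (P : Type) [Preorder P] : Prop :=
  ∀ D : Set P, ∃ A ⊆ D, A.Countable ∧ ∀ d ∈ D, ∃ a ∈ A, ∃ r, r ≤ a ∧ r ≤ d

/-- countable subsets of `β` are bounded in `β` -/
def Bdd (β : WithTop N2) : Prop :=
  ∀ T : Set N2, T.Countable → (∀ t ∈ T, (t : WithTop N2) < β) →
    ∃ b : N2, (b : WithTop N2) < β ∧ ∀ t ∈ T, t < b

/-- Proof. For each class `i` with `D ∩ D i` nonempty choose one element of `D ∩ D i`; the set `A`
of the chosen conditions is countable (`ℵ₀.ord.ToType` is countable). If `d ∈ D` is in the class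
`i`, it is compatible with the element chosen for `i`. -/
def S_CCC : Prop := ∀ (P : Type) [Preorder P], Centered ℵ₀ P → CC P

/-- Proof. For `⊤`: `succ (succ ℵ₀)` is regular, so a countable `T ⊆ N2` is bounded
(cf. `Pool.Agent.W873.Gmp.bdd_of_small` with `κ = ℵ₀`, in `Gmp/Comb.lean`). For `β` with
`f : N1 → N2` strictly increasing and cofinal in `β`: for each `t ∈ T` choose `x t` with
`t < f (x t)`; the countable set of the `x t` has a strict upper bound `y : N1` (regularity of
`succ ℵ₀`), and `b := f y` works. -/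
def S_BDT : Prop := Bdd ⊤ ∧ ∀ β : N2, CofG N1 β → Bdd (β : WithTop N2)

/-- Proof. Closedness and `sub` are clear. Unboundedness: given `γ < β` let `g 0 = γ` and let
`g (n+1) > g n` be in `C (unpair n).1`. All `g n` are below `β`; let `γ'` be the least ordinal with
`g n < γ'` for all `n`; it exists and is below `β` by `Bdd β` for the range of `g`. For each `m` the
elements `g (pair m n + 1)` of `C m` are cofinal in `γ'` (if `δ < γ'` then `δ ≤ g n` for
some `n`), so `γ' ∈ C m` by closedness. -/
def S_INT : Prop := ∀ β : WithTop N2, Bdd β → ∀ C : ℕ → Set N2, (∀ n, IsClub (C n) β) →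
  IsClub (⋂ n, C n) β

/-- Every club of the extension contains a club of the ground model.
Proof. For `δ ε : N2` let `Q δ ε` be the statement `p ∈ fex fun δ' => fand (fground (δ < δ' ∧ δ' <
ε)) (meets (C δ'))`. (1) For each `δ < β` there is `ε < β` with `Q δ ε`: let `E` be the set of the
conditions `q ≤ p` such that `q ∈ meets (C δ')` for some `δ' > δ`; it is dense below `p`. By `CC`
take a countable `A ⊆ E` predense in `E`, for `a ∈ A` choose `δ' a`; it is below `β` (first part of
`ClubF`); by `Bdd β` there is `ε < β` above all `δ' a`. (2) `Q δ ε` and `δ₀ ≤ δ`, `ε ≤ ε₀` imply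
`Q δ₀ ε₀`; also `Q δ ε` implies `δ < ε`. Let `D` be the set of all `γ < β` such that some `δ` is
below `γ` and for all `δ < γ` there is `ε < γ` with `Q δ ε`. Closed: clear by (2). Unbounded: given
`γ < β` take `g 0 = γ` and `Q (g n) (g (n+1))`, `g (n+1) < β`; the least strict upper bound `γ'` of
the `g n` is below `β` and is in `D`. If `γ ∈ D` then `p` satisfies the premise of the closedness
clause of `ClubF C β` for `γ`, so `p ∈ meets (C γ)` (density argument: `mem_fimp`, and
`Pool.Agent.Helper669.Forcing2.meets_of_dense`). -/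
def S_CLB : Prop := ∀ (P : Type) [Preorder P], CC P → ∀ β : WithTop N2, Bdd β →
  ∀ (C : N2 → Set P) (p : P), p ∈ ClubF C β → ∃ D : Set N2, IsClub D β ∧
    ∀ γ ∈ D, p ∈ meets (C γ)

/-- Proof. Let `q ≤ p` and `f` be a name as in `CofF`. The set `T` of all `γ` such that
`r ∈ meets (f n γ)` for some `n` and some `r ≤ q` is countable: for each `n` take by `CC` a
countable set `A n` predense in `{r | r ≤ q ∧ ∃ γ, r ∈ meets (f n γ)}`; each possible value of
`f n` is the value decided by an element of `A n` (compatible conditions decide the same value).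
`T` is contained in `α` and cofinal in `α`, and `α` is not `0` (`f 0` has a value) and for each
`t ∈ T` (also each `γ < α`) there is a larger element of `T`. From an enumeration `t 0, t 1, …` of
`T` one gets a strictly increasing cofinal `g : ℕ → N2`: let `g (n+1)` be an element of `T` which is
larger than `g n` and `t n`. -/
def S_CFO : Prop := ∀ (P : Type) [Preorder P], CC P → ∀ (α : N2) (p : P), p ∈ CofF P ℕ α →
  CofG ℕ α

/-- Proof. Use the name `f x γ = {p | g x = γ}`, where `g` is the ground model function. -/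
def S_CFG : Prop := ∀ (P : Type) [Preorder P] (X : Type) [LinearOrder X] (α : N2), CofG X α →
  ∀ p : P, p ∈ CofF P X α

/-- Stationary reflection is preserved by ccc forcing.
Proof. Let `q ≤ p` force that `S` is a stationary set of ordinals of cofinality `ω`. Let
`T = {α | ∃ r ≤ q, r ∈ meets (S α)}`. Each `α ∈ T` has cofinality `ω` (`S_CFO`). `T` is stationary:
for a club `D` the name `{p | γ ∈ D}` is a name for a club, so some `r ≤ q` and `γ` satisfy
`r ∈ meets (S γ)` and `γ ∈ D`. By `SR` take `β` with `CofG N1 β` and `Stat T β`. Claim: some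
`r ≤ q` forces `StatF S β` (then `r ∈ CofF P N1 β` by `S_CFG` and we are done, since it suffices
to find `r` below any given `q`). Otherwise let `E` be the set of all `s ≤ q` for which there is a
name `C` with `s ∈ ClubF C β` and `s ∈ fnot (fex fun γ => fand (meets (S γ)) (meets (C γ)))`; it is
dense below `q` (`mem_fimp`). Take a countable `A ⊆ E` predense in `E`, and for `s ∈ A` a club
`D s` of `β` with `s ∈ meets (C_s γ)` for all `γ ∈ D s` (`S_CLB`, with `S_BDT`). The intersection
`D` of these is a club in `β` (`S_INT`; if `A` is empty there is nothing to do since `E` is dense).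
Take `γ ∈ T ∩ D` and `r ≤ q` with `r ∈ meets (S γ)`; some `s ∈ A` is compatible with `r` (extend `r`
into `E` first), a common extension forces `γ ∈ S` and `γ ∈ C_s`, a contradiction. -/
def S_SRT : Prop := S_CLB → S_BDT → S_INT → S_CFO → S_CFG →
  ∀ (P : Type) [Preorder P], CC P → SR → ∀ p : P, p ∈ SRF P

/-- A ground model stationary set of countable sets stays stationary.
Proof. Take the index set `Y = Set N2`, the names `E y γ = {p | γ ∈ y}`, and the name
`{p | y ∈ N}`. Each `y ∈ N` is countable: `CountF` by the check name of an enumeration (if `y` is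
empty, any constant function; `N2` is nonempty). Let `q ≤ p` force that `F` is a function mapping
the finite sequences of elements of `α` to `α`. For each list `l` let `G l` be the set of all `δ`
such that `r ∈ meets (F l δ)` for some `r ≤ q`; it is countable by `CC` and nonempty; let
`g l : ℕ → N2` enumerate it. For a list `l` of length `Nat.pair n m` (note
`m ≤ Nat.pair n m`, `Nat.right_le_pair`) let `F' l = g (l.take m) n`. By `StatP` some `x ∈ N` is
closed under `F'`. It is nonempty since `F' [] ∈ x`. If `l` is a list of elements of `x`, `m` its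
length and `n : ℕ`, extend `l` by some element `a ∈ x` to `l ++ List.replicate (Nat.pair n m - m) a`
of length `Nat.pair n m`; so `g l n = F' (l ++ …) ∈ x`. Hence `G l ⊆ x` and `q` forces that `x`
is closed under `F`. (If `l` is a list in `x` and `r ≤ q`, `r ∈ meets (F l δ)`, then
`δ ∈ G l ⊆ x`.) -/
def S_STP : Prop := ∀ (P : Type) [Preorder P], CC P → ∀ (α : N2) (N : Set (Set N2)),
  StatP α N → ∀ p : P,
    p ∈ StatPF α (fun (y : Set N2) (γ : N2) => ({_p | γ ∈ y} : Set P)) (fun y => {_p | y ∈ N})

/-- `DSS` is preserved by ccc forcing.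
Proof. Let `S`, `N` witness `DSS`. Take the names `{p | α ∈ S}`, `E y γ = {p | γ ∈ y}` for `y` in
`Y = Set N2`, and `N α y = {p | y ∈ N α}`. The first clause is `S_CFG`; stationarity of `S`: if
`q ∈ ClubF C ⊤` take a club `D` with `q ∈ meets (C γ)` for `γ ∈ D` by `S_CLB` and `S_BDT` and then
`γ ∈ S ∩ D`. The third clause is `S_STP`, and the last one is clear: if `α ≠ β` are in `S` and
`y ∈ N α`, `z ∈ N β` then `y ≠ z`, so some `γ` is in exactly one of `y`, `z`, and no condition is
in `SameOn`. (For `fex` use `mem_fex_of_mem` and the `down_…` lemmas, or `mem_fex` directly; all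
these names have the same truth value for all conditions.) -/
def S_DST : Prop := S_CLB → S_BDT → S_CFG → S_STP →
  ∀ (P : Type) [Preorder P], CC P → DSS → ∀ p : P, p ∈ DSSF P

/-- The nodes `(a, x)` (`x` is the element of the branch `b` at level `a`) which are forced by
elements of the class `D` below `p0`. -/
def Bi {P : Type} [Preorder P] (D : Set P) (p0 : P) (ℓ : N1 → N1 → Set P) (b : N1 → Set P) :
    Set (N1 × N1) :=
  {u | ∃ p ∈ D, p ≤ p0 ∧ p ∈ meets (b u.2) ∧ p ∈ meets (ℓ u.2 u.1)}

/-- The tree order on the nodes `(a, x)`, as forced by elements of the class `D` below `p0`. -/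
def lti {P : Type} [Preorder P] (D : Set P) (p0 : P) (R ℓ : N1 → N1 → Set P) (u u' : N1 × N1) :
    Prop :=
  ∃ p ∈ D, p ≤ p0 ∧ p ∈ meets (R u.2 u'.2) ∧ p ∈ meets (ℓ u.2 u.1) ∧ p ∈ meets (ℓ u'.2 u'.1)

/-- a directed set of conditions -/
def Dir {P : Type} [Preorder P] (D : Set P) : Prop :=
  ∀ p ∈ D, ∀ q ∈ D, ∃ r ∈ D, r ≤ p ∧ r ≤ q

/-- Proof. (1) A common extension `r ∈ D` of the two witnesses forces that `u.2`, `u'.2` are in `b`,
so they are comparable, and the levels `u.1 < u'.1` show that it forces `R u.2 u'.2`: below each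
`r' ≤ r` there is a condition forcing `u.2 = u'.2` or `R u.2 u'.2` or `R u'.2 u.2`, the first and
third are impossible by the uniqueness of the level (`IsFun ℓ`) and the second clause of `IsTree`;
so `r ∈ meets (R u.2 u'.2)` by density. (2) A common extension `r ∈ D` of the witnesses forces
`R u.2 u'.2` and `u'.2 ∈ b`. Let `r' ≤ r`; the branch meets level `u.1`, so some `r'' ≤ r'`
forces that `x ∈ b` is at level `u.1`; by (1) for names it forces `R x u'.2`, and by the
uniqueness of predecessors (fifth clause of `IsTree`) `x = u.2`. So `r ∈ meets (b u.2)` by density.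
The lemmas `t_unique`, `t_total`, `t_lt`, `t_pred`, `t_uniq` of `Gmp/Final.lean` unfold the clauses
of `IsTree`. -/
def S_KH1 : Prop := ∀ (P : Type) [Preorder P] (D : Set P) (p0 : P) (R ℓ : N1 → N1 → Set P)
  (b : N1 → Set P), Dir D → p0 ∈ IsTree N1 R ℓ → p0 ∈ IsCofinalBranch R ℓ b →
  (∀ u ∈ Bi D p0 ℓ b, ∀ u' ∈ Bi D p0 ℓ b, u.1 < u'.1 → lti D p0 R ℓ u u') ∧
  ∀ u u', lti D p0 R ℓ u u' → u' ∈ Bi D p0 ℓ b → u ∈ Bi D p0 ℓ b

/-- Proof. For each level `a : N1` some `p ≤ p0` and `x` satisfy `p ∈ meets (b x)` and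
`p ∈ meets (ℓ x a)`; `p ∈ D i` for some `i`, so `(a, x) ∈ Bi (D i) p0 ℓ b`. If for each `i` the levels
were bounded by `β i`, take a strict upper bound of the countably many `β i` in `N1` (regularity
of `succ ℵ₀`), and `a` equal to it for a contradiction. (`N1` has no largest element.) -/
def S_KH3 : Prop := ∀ (P : Type) [Preorder P] (D : Kt ℵ₀ → Set P), (∀ p, ∃ i, p ∈ D i) →
  ∀ (p0 : P) (R ℓ : N1 → N1 → Set P) (b : N1 → Set P), p0 ∈ IsCofinalBranch R ℓ b →
  ∃ i, ∀ a : N1, ∃ u ∈ Bi (D i) p0 ℓ b, a < u.1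

/-- Proof. Suppose `p0 ∈ fnot (SameOn b b')`. For each `a₀ : N1` there is `u ∈ Bi D p0 ℓ b`
with `a₀ < u.1`; as `u ∈ Bi D p0 ℓ b'`, a common extension `r ∈ D` (`r ≤ p0`) of the two witnesses
is in `meets (b u.2)`, `meets (b' u.2)`, `meets (ℓ u.2 u.1)`. Call such `r` good for `a = u.1`. There
is `q ≤ p0` such that for all `q' ≤ q` and all `a₀` some condition which is good for some `a > a₀`
is compatible with `q'`. Otherwise the set `E` of all `q' ≤ p0` for which there is `a(q')` such
that no condition which is good for some `a > a(q')` is compatible with `q'` is dense below `p0`;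
let `A ⊆ E` be countable and predense in `E` (`CC`); let `a*` be a strict upper bound of the
`a(q')`, `q' ∈ A` (regularity of `succ ℵ₀`), and let `r ≤ p0` be good for some `a > a*`: an extension
of `r` is in `E`, hence compatible with some `q' ∈ A`; contradiction. Now `q ∈ SameOn b b'`:
let `q' ≤ q` with `q' ∈ meets (b x)`; extend it such that `q' ∈ meets (ℓ x c)` for some `c`; take `r`
good for `a > c` with node `y`, compatible with `q'`. A common extension `s` forces `x, y ∈ b`,
`y ∈ b'`, and the levels are `c < a`, so `s` forces `R x y` and then `x ∈ b'` (as in (1), (2) of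
`S_KH1`; you may apply `S_KH1` to the directed set `{s}` and `p0 := s`: by (1) for `b`,
`lti {s} s R ℓ (c, x) (a, y)`, and by (2) for `b'`, `(c, x) ∈ Bi {s} s ℓ b'`). By density
`q' ∈ meets (b' x)`, and by symmetry `q ∈ SameOn b b'`, a contradiction. -/
def S_KH4 : Prop := S_KH1 → ∀ (P : Type) [Preorder P], CC P → ∀ (D : Set P) (p0 : P)
  (R ℓ : N1 → N1 → Set P) (b b' : N1 → Set P), Dir D → p0 ∈ IsTree N1 R ℓ →
  p0 ∈ IsCofinalBranch R ℓ b → p0 ∈ IsCofinalBranch R ℓ b' →
  (∀ a : N1, ∃ u ∈ Bi D p0 ℓ b, a < u.1) → Bi D p0 ℓ b = Bi D p0 ℓ b' → p0 ∉ fnot (SameOn b b')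

/-- The use of the guessing model.
Proof. Fix an injection `c : N1 × N1 → N2`. By `exists_model` (`Gmp/Typed.lean`, with `κ = ℵ₀`) take
`m : Mdl ℵ₀` closed under the following functions, indexed by a type of size `≤ succ ℵ₀` (e.g.
`(N1 × N1) ⊕ Kt ℵ₀ ⊕ Unit`): `LL`: the constant functions with the values `c u`; `PLP`: for
`j : Kt ℵ₀` the function `s, z ↦ {w ∈ s | ∃ u u', w = c u ∧ z = c u' ∧ lt j u u'}`, and
`s, z ↦ s ∩ range c`; `PL`: for `j` the function mapping `s` to some `ξ` with `i ξ = j` and
`c '' B ξ = s`, if there is one. (The other functions are arbitrary.) All `c u` are in `m.mL`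
(`m.nonempty`). As `#m.mL ≤ succ ℵ₀ < #N2` take `ξ ∉ m.mL`, and let `d = c '' B ξ`. If `a ∈ m.mP` is
countable then `d ∩ a ∈ m.mP`: the levels `u.1` of the `u` with `c u ∈ a` are bounded in `N1`, so by
(3) there is `u' ∈ B ξ` with a level larger than all of them, and
`d ∩ a = {w ∈ a | ∃ u u'', w = c u ∧ c u' = c u'' ∧ lt (i ξ) u u''}` by (1) and (2). By `m.guess` there
is `e ∈ m.mP` with `x ∈ e ↔ x ∈ d` for `x ∈ m.mL`; `e ∩ range c ∈ m.mP` equals `d`. So the value
of `PL (i ξ)` at `d` is in `m.mL`, and by (4) it is `ξ`, a contradiction. (`Mdl.small` is used for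
`ξ ∉ m.mL`; `mdl`-style examples: `exists_mdl` and `reflect` in `Gmp/Comb.lean`.) -/
def S_KHM : Prop := GMP ℵ₀ → ∀ (lt : Kt ℵ₀ → N1 × N1 → N1 × N1 → Prop)
  (B : N2 → Set (N1 × N1)) (i : N2 → Kt ℵ₀),
  (∀ ξ, ∀ u ∈ B ξ, ∀ u' ∈ B ξ, u.1 < u'.1 → lt (i ξ) u u') →
  (∀ ξ u u', lt (i ξ) u u' → u' ∈ B ξ → u ∈ B ξ) →
  (∀ ξ (a : N1), ∃ u ∈ B ξ, a < u.1) →
  (∀ ξ η, i ξ = i η → B ξ = B η → ξ = η) → False

/-- `GMP` implies that σ-centered forcing forces the failure of the weak Kurepa hypothesis.
Proof. Let `D i`, `i : Kt ℵ₀`, be the classes of `Centered ℵ₀ P` (`Dir (D i)`). Suppose some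
`p0 ∈ IsTree N1 R ℓ` forces that the `b ξ`, `ξ : N2`, are pairwise distinct cofinal branches (`mem_fex`
etc.; it suffices to refute this for every `p0`). By `S_KH3` choose `i ξ` for each `ξ`, and let
`B ξ = Bi (D (i ξ)) p0 ℓ (b ξ)`, `lt j = lti (D j) p0 R ℓ`. The hypotheses of `S_KHM` hold by `S_KH1`,
`S_KH3`, `S_KH4` (with `S_CCC`). -/
def S_KHT : Prop := S_CCC → S_KH1 → S_KH3 → S_KH4 → S_KHM → GMP ℵ₀ →
  ∀ (P : Type) [Preorder P], Centered ℵ₀ P → ∀ p : P, p ∈ NoWeakKurepaF P

/-- Proof. `CC P` implies `PCCC P` (in `Pool.Agent.W684.FM.Main`): if `A` is an antichain, a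
countable subset predense in `A` is all of `A`. Then `PCCC.cardinalsPreserved`
(`Pool.Agent.W684.FM.Ambient`). -/
def S_CRD : Prop := ∀ (P : Type) [Preorder P], CC P → ∀ p : P, p ∈ CardinalsPreserved.{0, 0} P

/-- Proof. As for `S_CRD` we have `PCCC P`. Upper bound: `continuumLe` in
`Pool.Agent.K4H97.SG.Card` with `Y = (2 ^ ℵ₀).out`. Lower bound: `not_continuumLe` there with
`I = ℕ → ℕ` and the check names `X i n a = {p | i n = a}`; if `i ≠ j` no condition is in
`SameReal (X i) (X j)`. -/
def S_CON : Prop := ∀ (P : Type) [Preorder P] [Nonempty P], CC P → #P ≤ 2 ^ (ℵ₀ : Cardinal.{0}) →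
  ∀ p : P, p ∈ ContinuumIs P (2 ^ (ℵ₀ : Cardinal.{0}))

/-! ### The iteration: general facts -/

/-- Proof. By well-founded induction on `ξ` show `#(Nm (Vd (MR St) ξ) ξ) ≤ μ` and hence
`#(MR St ξ) ≤ μ` (`MR_eq`, `Uf_sub`). Let the bound hold below `ξ`. A condition in `Vd (MR St) ξ` is
determined by its stems and promises at the finitely many coordinates `η < ξ` of its support, so
there is an injection from `Vd (MR St) ξ` into `Finset (WithTop J × List ℕ × Finset (Pr _))` with
promises in the union `W` of the `MR St η`, `η < ξ`, and `#W ≤ μ`; so `#(Vd (MR St) ξ) ≤ μ`. (E.g.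
map `r` to the finite set of the pairs `(η, r.st η)`, `η ∈ supp r`, and the finite set of the pairs
`(η, R)`, `R ∈ r.pr η`.) A member of `Nm B ξ` is determined by a sequence of countable subsets
of `B`, i.e. by a map `ℕ → ℕ → Option B`, so there are at most `(#B + 1) ^ ℵ₀ ≤ μ ^ ℵ₀ = μ` of
them. The last claim is the bound for `Vd (MR St) ⊤` (no promise at `⊤` is used). -/
def S_CNT : Prop := ∀ (J : Type) [LinearOrder J] [WellFoundedLT J] (St : Strat (WithTop J))
  (μ : Cardinal.{0}), ℵ₀ ≤ μ → #J ≤ μ → μ ^ (ℵ₀ : Cardinal.{0}) = μ →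
    (∀ ξ : WithTop J, #(Nm (Vd (MR St) ξ) ξ) ≤ μ) ∧ #(PM St) ≤ μ

/-- Proof. Let `g : J → ℕ → Bool` be injective. For `m : ℕ` and `c : (Fin m → Bool) → List ℕ` let
`D (m, c)` be the set of the conditions `p` such that for all `j ∈ supp p.1` (all such `j` are in
`J`) the stem `p.1.st j` is `c (fun k => g j k)`. The index set `Σ m, ((Fin m → Bool) → List ℕ)` is
countable, and so it is the image of `ℵ₀.ord.ToType`. Directed: if `p, q ∈ D (m, c)`
let `z` have the stems `p.1.st η` for `η ∈ supp p.1` and `q.1.st η` otherwise, and the promises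
`p.1.pr η ∪ q.1.pr η` (as in the proof of `compat_of_stems` in `Helper669/Iter.lean`); the
support of `z` is the union of the supports, so `z ∈ D (m, c)`, and `z ≤ p, q`. Each `p` is in some
`D (m, c)`: choose `m` such that the restrictions of `g j` to `m` for the finitely many `j` in the
support are distinct. -/
def S_CEN : Prop := ∀ (J : Type) [LinearOrder J] [WellFoundedLT J] (St : Strat (WithTop J)),
  #J ≤ 2 ^ (ℵ₀ : Cardinal.{0}) → Centered ℵ₀ (PM St)

/-- The set `X` of points is a name for `x`, at least below `p`. -/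
def Rpr {J : Type} [LinearOrder J] [WellFoundedLT J] {St : Strat (WithTop J)}
    (X : ℕ → Set (Om (WithTop J))) (x : ℕ → Set (PM St)) (ξ : J) (p : PM St) : Prop :=
  ∀ k, ∃ A : Set (PM St), (∀ a ∈ A, Below a.1 (ξ : WithTop J)) ∧
    X k = ⋃ a ∈ A, bs a.1 (ξ : WithTop J) ∧ ∀ a ∈ A, ∀ s ≤ a, s ≤ p → s ∈ meets (x k)

/-- The generic set is almost contained in the members of the ultrafilter.
Proof. Let `q ≤ p`. Let `q'` be `q` with the promise `pm X` added at `ξ` (`addG`, `addG_le`,
`addG_mem`, `mem_MR`), and let `N` be a bound for the first components of the stem of `q` at `ξ`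
(`exists_stem_bound`). Let `k ≥ N`, `r ≤ q'`, `r ∈ meets (Mm St ξ k)`. As in the second case of the
proof of `unsplit` (`MM.lean`): each `r' ≤ r` has an extension `r1 ∈ Mm St ξ k`, so `k` is the first
component of the entry `n` of its stem at `ξ`, where `n` is not in the stem of `q'`; hence
`bs r1.1 ξ ⊆ X k`. By `bs_nonempty` take a point `w` of `r1`; it is in `bs a.1 ξ` for some `a` in
the set `A` given by `Rpr` for `k`; by `compat_of_point` and `compat_res` the conditions `r1` and
`a` have a common extension `s`; as `s ≤ p`, we get `s ∈ meets (x k)`. So the conditions in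
`meets (x k)` are dense below `r`, and `r ∈ meets (x k)`. This proves the statement with
`mem_fex`, `mem_fimp`. -/
def S_ALM : Prop := ∀ (J : Type) [LinearOrder J] [WellFoundedLT J] (St : Strat (WithTop J))
  (ξ : J) (X : ℕ → Set (Om (WithTop J))) (x : ℕ → Set (PM St)) (p : PM St),
  X ∈ UU St (ξ : WithTop J) → Rpr X x ξ p → p ∈ AlmF (Mm St ξ) x

/-! ### The iteration along `κ ×_lex μ` -/

/-- the index set -/
abbrev Jx (κ μ : Cardinal.{0}) : Type := κ.ord.ToType ×ₗ μ.ord.ToType

/-- the set of the points for which `k` is in the generic set of coordinate `ξ` -/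
def MmS {I : Type} (ξ : I) (k : ℕ) : Set (Om I) := {w | ∃ n, (Nat.unpair (w ξ n)).1 = k}

section

variable {κ μ : Cardinal.{0}}

/-- the coordinate `(α, o)`; `o` will be the least element of `μ` -/
def tw (o : μ.ord.ToType) (α : κ.ord.ToType) : Jx κ μ := toLex (α, o)

/-- `bk 𝒩` enumerates all subsets of `𝒩` of size less than `κ`, if `𝒩` has size at most `μ` -/
def IsBook {X : Type} (κ : Cardinal.{0}) {μ : Cardinal.{0}} (o : μ.ord.ToType)
    (bk : Set X → μ.ord.ToType → Set X) : Prop :=
  ∀ 𝒩 : Set X, #𝒩 ≤ μ → ∀ S ⊆ 𝒩, #S < κ → ∃ β, β ≠ o ∧ bk 𝒩 β = S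

/-- The strategy: at stage `(α, o)` the generic sets of the stages `(α', o)` with `α' < α`, at
stage `(α, β)` with `β ≠ o` the family number `β` of names over stage `(α, o)`. -/
def Stg (κ μ : Cardinal.{0}) (o : μ.ord.ToType)
    (bk : Set (ℕ → Set (Om (WithTop (Jx κ μ)))) → μ.ord.ToType →
      Set (ℕ → Set (Om (WithTop (Jx κ μ))))) : Strat (WithTop (Jx κ μ)) := fun ξ RR =>
  {X | ∃ (α : κ.ord.ToType) (β : μ.ord.ToType), ξ = ((toLex (α, β) : Jx κ μ) : WithTop (Jx κ μ)) ∧
    ((β = o ∧ ∃ α' < α, X = MmS ((tw o α' : Jx κ μ) : WithTop (Jx κ μ))) ∨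
      (β ≠ o ∧ X ∈ bk (Nm (Vd RR ((tw o α : Jx κ μ) : WithTop (Jx κ μ)))
        ((tw o α : Jx κ μ) : WithTop (Jx κ μ))) β))}

/-- the assumptions on `κ`, `μ`, `o`, `bk` -/
structure Hyp (κ μ : Cardinal.{0}) (o : μ.ord.ToType)
    (bk : Set (ℕ → Set (Om (WithTop (Jx κ μ)))) → μ.ord.ToType →
      Set (ℕ → Set (Om (WithTop (Jx κ μ))))) : Prop where
  reg : κ.IsRegular
  unc : ℵ₀ < κ
  le : κ ≤ μ
  pow : ∀ ν < κ, μ ^ ν ≤ μ
  least : ∀ β, o ≤ β
  book : IsBook κ o bk

end

/-- Proof. Let `X`, `κ ≤ μ`. For `𝒩` with `#𝒩 ≤ μ` the set of the subsets `S ⊆ 𝒩` with `#S < κ` has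
size at most `Σ_{ν < κ} μ ^ ν ≤ κ * μ = μ` (each nonempty such `S` is the range of a function from
some `Set.Iio a`, `a : κ.ord.ToType`, to `𝒩`, as `#S = #(Set.Iio a)` for some `a`; for each `a`
there are at most `μ ^ #(Set.Iio a) ≤ μ` such functions). The set `{β | β ≠ o}` has size `μ`
(`μ` is infinite), so there is a surjection from it onto this set of sets. Put `bk 𝒩 β = ∅` for
`β = o` and for the `𝒩` with `#𝒩 > μ`. -/
def S_BKX : Prop := ∀ (κ μ : Cardinal.{0}) (o : μ.ord.ToType) (X : Type), ℵ₀ ≤ κ → κ ≤ μ →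
  (∀ ν < κ, μ ^ ν ≤ μ) → ∃ bk : Set X → μ.ord.ToType → Set X, IsBook κ o bk

/-- Proof. The set of the first coordinates of the elements of `S` has size less than `κ`, so it
has a strict upper bound `α` (regularity; cf. the end of the proof of `staysRegular` in
`Helper669/MMain.lean`). If `s = (α₀, β)` with `α₀ < α` then `s < (α, o)` in the lexicographic
order. -/
def S_COF : Prop := ∀ (κ μ : Cardinal.{0}) (o : μ.ord.ToType), κ.IsRegular →
  ∀ S : Set (Jx κ μ), #S < κ → ∃ α : κ.ord.ToType, ∀ s ∈ S, s < tw o α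

/-- Proof. By `exists_decBelow` and `exists_below` (with the cardinal `max #Y ℵ₀ < κ` and with `hcof`
from `S_COF`: `#S ≤ max #Y ℵ₀` implies `#S < κ`) there are `b`, `b' : Jx κ μ` such that all `E y`
are decided below each `ξ ≥ b`, and `Below p.1 b'`. By `S_COF` for `{b, b'}` there is `α` with
`b, b' < tw o α`. (For all `α' ≥ α` also `tw o α ≤ tw o α'`.) -/
def S_DEC : Prop := S_COF → ∀ (κ μ : Cardinal.{0}) (o : μ.ord.ToType)
  (St : Strat (WithTop (Jx κ μ))), κ.IsRegular → ℵ₀ < κ →
  ∀ (Y : Type), #Y < κ → ∀ (E : Y → ℕ → Set (PM St)) (p : PM St), ∃ α : κ.ord.ToType,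
    ∀ α' ≥ α, (∀ y, DecBelow (E y) (tw o α')) ∧
      Below p.1 ((tw o α' : Jx κ μ) : WithTop (Jx κ μ))

/-- The generic sets of the earlier tower stages belong to the ultrafilter of each tower stage.
Proof. Write `I = WithTop (Jx κ μ)`, `St = Stg κ μ o bk`. (1) `MmS η ∈ Nm (Vd (MR St) ξ) ξ`
for `η < ξ` in `I`: `MmS η k` is the union of `bs r ξ` over the countably many conditions `r` with
stem `l` at `η`, no promises and no other stems, where `l` is a list with an entry of first
component `k`. (2) By well-founded induction on `α` show `MmS (tw o α') ∈ UU St (tw o α)` for all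
`α' < α`. The family prescribed at the stage `ξ = tw o α` is `S = {MmS (tw o α') | α' < α}` (unfold
`Stg`), and it is contained in `Nm (Vd (MR St) ξ) ξ` by (1). By `sub_Uf` it remains to show `Fip`.
Let `F ⊆ S` be finite, `q ∈ Vd (MR St) ξ` and `N : ℕ`. If `F` is empty take `q' = q`. Otherwise let
`F = {MmS (tw o α') | α' ∈ G}` with `G` finite, nonempty, and let `γ` be the largest element
of `G`, `η = tw o γ`. By the induction hypothesis `MmS (tw o α') ∈ UU St η` for the `α' ∈ G`
with `α' < γ`, so `pm (MmS (tw o α')) ∈ MR St η`. Let `q1 = addG q η` with these promises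
(`addG_mem`, `η < ξ`). By `amal_MR` at `η` for the promises of `q1` at `η` there are
`q2 ∈ Vd (MR St) η`, `q2 ≤ res q1 η` and `k ≥ N` with `bs q2 η ⊆ R n (Nat.pair k 0)` for all
promises `R` of `q1` at `η` and all `n`; in particular `bs q2 η ⊆ MmS (tw o α') k` for the
`α' ∈ G` below `γ`. Let `q' = push (glue q2 q1 η) η (Nat.pair k 0)` (`push_le`, `push_mem`,
`glue_mem`, `glue_le`; as in `push_pair`). Then `q' ≤ q1 ≤ q`, `bs q' ξ ⊆ MmS η k` because of the
stem, and `bs q' ξ ⊆ bs q' η = bs q2 η ⊆ MmS (tw o α') k`. -/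
def S_TWF : Prop := ∀ (κ μ : Cardinal.{0}) (o : μ.ord.ToType)
  (bk : Set (ℕ → Set (Om (WithTop (Jx κ μ)))) → μ.ord.ToType →
      Set (ℕ → Set (Om (WithTop (Jx κ μ))))), ∀ (α' α : κ.ord.ToType), α' < α →
  MmS ((tw o α' : Jx κ μ) : WithTop (Jx κ μ)) ∈
    UU (Stg κ μ o bk) ((tw o α : Jx κ μ) : WithTop (Jx κ μ))

/-- The generic sets of the tower stages are decreasing mod finite.
Proof. Apply `S_ALM` with `ξ = tw o α`, `X = MmS (tw o α')` (by `S_TWF`) and `x = Mm St (tw o α')`.
`Rpr`: for `k` let `A` be the set of the conditions with a stem `l` at `tw o α'` with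
an entry of first component `k`, and nothing else; the union of the `bs a ξ` is `MmS _ k`, and each
`s ≤ a` is in `Mm St (tw o α') k`. -/
def S_DCR : Prop := S_ALM → S_TWF → ∀ (κ μ : Cardinal.{0}) (o : μ.ord.ToType)
  (bk : Set (ℕ → Set (Om (WithTop (Jx κ μ)))) → μ.ord.ToType →
      Set (ℕ → Set (Om (WithTop (Jx κ μ))))), ∀ (α' α : κ.ord.ToType), α' < α →
  ∀ p : PM (Stg κ μ o bk), p ∈ AlmF (Mm (Stg κ μ o bk) (tw o α)) (Mm (Stg κ μ o bk) (tw o α'))

/-- An earlier generic set is not almost contained in a later one.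
Proof. Let `η < ξ`. (1) `Ch St η` splits `Mm St η`: given `q` and `N`, by `push_pair` at `η` with
the bound `max N (length of the stem of q at η)` we get `k ≥ N` in the set `Mm St η` with `k` at
least the length of the stem; then extend the stem by one more entry if necessary and use
`push_to` to reach the position `k` with second component `i`, for `i = 1` and for `i = 0`
(`not_Ch`). (Be careful to have the length of the stem at most `k` when `push_to` is applied: choose
the bound larger by one.) (2) `Ch St η` is decided below `ξ` (`DecBelow (Ch St η) ξ`: for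
`k` the countable set of the conditions with a stem at `η` of length `k + 1` and nothing else is
predense, and each of them decides `Ch St η k`, see `not_Ch`). (3) If `q ≤ p` is in
`AlmF (Mm St η) (Mm St ξ)`, by `unsplit` for `x = Ch St η` there are `q' ≤ q` and `N` such that `q'`
forces that no `k ≥ N` is in `Mm St ξ ∩ Ch St η`, or that no `k ≥ N` is in `Mm St ξ \ Ch St η`.
With (1) find `r ≤ q'`, `k` large with `k ∈ Mm St η`, and `k ∈ Ch St η` respectively `k ∉ Ch St η`,
and by `AlmF` extend `r` to force `k ∈ Mm St ξ` (take `k` larger than the bound of `AlmF` as well), a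
contradiction. -/
def S_STR : Prop := ∀ (J : Type) [LinearOrder J] [WellFoundedLT J] (St : Strat (WithTop J))
  (η ξ : J), η < ξ → ∀ p : PM St, p ∈ fnot (AlmF (Mm St η) (Mm St ξ))

/-- The tower has no infinite pseudo-intersection.
Proof. Suppose `q ≤ p` and `x` is a name with `q ∈ InfF x` and `q ∈ AlmF x (Mm St (tw o α))` for all
`α`. By `S_DEC` let `x` be decided below `ξ = tw o α`; let `ζ = tw o α₁` with `α₁ > α` (there is no
largest element of `κ.ord.ToType`). `Ch St ξ` splits `x` (`cohen_hits`), and `Ch St ξ` is decided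
below `ζ` (as in the proof of `S_STR` (2); you may prove it again or use `S_DEC`-style: take
`α₁` from `S_DEC` applied to the name `Ch St ξ`). By `unsplit` for `Ch St ξ` at `ζ` and by
`x ⊆* Mm St ζ` we get an extension forcing `x ∩ Ch St ξ` or `x \ Ch St ξ` to be finite, which
contradicts `cohen_hits`. -/
def S_NPI : Prop := S_COF → S_DEC → ∀ (κ μ : Cardinal.{0}) (o : μ.ord.ToType)
  (St : Strat (WithTop (Jx κ μ))), κ.IsRegular → ℵ₀ < κ → ∀ p : PM St,
  p ∈ fnot (fex fun x : ℕ → Set (PM St) =>
    fand (InfF x) (fall fun α : κ.ord.ToType => AlmF x (Mm St (tw o α))))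

/-- Some nonprincipal ultrafilter has a base of size `κ`.
Proof. `κ.out` is in bijection with `κ.ord.ToType × ℕ`; let `e : κ.out ≃ κ.ord.ToType × ℕ` and
`E i k = {p | (e i).2 ≤ k ∧ p ∈ Mm St (tw o (e i).1) k}`, the name for `Mm St (tw o α) \ n`. All are
infinite (`infSet_Mm`). Two of them contain a third one: for `(α, n)`, `(α', n')` let `α ≤ α'`
(without loss of generality), by `S_DCR` (trivial if `α = α'`) extend the condition to decide a
bound `N` for `Mm St (tw o α') ⊆* Mm St (tw o α)` and take `(α', max N (max n n'))`. Every name `x`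
is decided below some `tw o α` (`S_DEC`), and by `unsplit` an extension forces that
`Mm St (tw o α) \ N` is disjoint from `x` or contained in `x` (`r ∉ fnot (meets (x k))` for all
`r ≤ p'` with `r ∈ meets (Mm ..)` gives `meets (x k)` by density). -/
def S_UUB : Prop := S_COF → S_DEC → S_DCR → S_ALM → S_TWF → ∀ (κ μ : Cardinal.{0})
  (o : μ.ord.ToType) (bk : Set (ℕ → Set (Om (WithTop (Jx κ μ)))) → μ.ord.ToType →
      Set (ℕ → Set (Om (WithTop (Jx κ μ))))), κ.IsRegular → ℵ₀ < κ →
  ∀ p : PM (Stg κ μ o bk), p ∈ fex fun E : κ.out → ℕ → Set (PM (Stg κ μ o bk)) => UltBaseF E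

/-- No nonprincipal ultrafilter has a base of size less than `κ`.
Proof. Let `ν < κ`, `q ≤ p` and `q ∈ UltBaseF E`, `E : ν.out → _`. By `ltReaping` (`MM.lean`; with
`max ν ℵ₀` and `S_COF`) some `r ≤ q` and name `s` satisfy `r ∈ FSplits s (E y)` for all `y`. Apply
the last clause of `UltBaseF` to `x = s`: an extension of `r` forces that some `E i` is contained
in `s` or disjoint from `s`, which contradicts `FSplits s (E i)`. -/
def S_ULB : Prop := S_COF → ∀ (κ μ : Cardinal.{0}) (o : μ.ord.ToType)
  (St : Strat (WithTop (Jx κ μ))), κ.IsRegular → ℵ₀ < κ → ∀ p : PM St,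
  ∀ ν < κ, p ∈ fnot (fex fun E : ν.out → ℕ → Set (PM St) => UltBaseF E)

/-- Each small centered family of the extension has an infinite pseudo-intersection.
Proof. Write `St = Stg κ μ o bk`. By `S_DEC` take `α` such that all `E i` are decided below
`η = tw o α` and `Below p.1 η`. For each `i`, `k` let `A i k` be the countable set given by
`DecBelow (E i) η`, and let `B` be a countable subset of `{b | Below b.1 η, b incompatible with p}`
such that each condition incompatible with `p` is compatible with some `b ∈ B` (if `b` is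
incompatible with `p` then so is `resP b η`, as `Below p.1 η`, see `compat_res`; use
`exists_predense_Vd` for this set). Let `X i k` be the union of the `bs a.1 η` over the `a ∈ A i k`
with `a ∈ meets (E i k)` and of the `bs b.1 η` over the `b ∈ B`. Then `X i ∈ Nm (Vd (MR St) η) η`.
The set `S = {X i}` has size less than `κ`, so by `Hyp.book` and `S_CNT` (for the bound
`#(Nm ..) ≤ μ`; `#(Jx κ μ) ≤ μ` and `μ ^ ℵ₀ = μ`) there is `β ≠ o` with
`bk (Nm (Vd (MR St) η) η) β = S`. Let `ξ = toLex (α, β) > η`. The family prescribed at `ξ` is `S`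
(unfold `Stg`, use `Vd_cut`). `S ⊆ Nm (Vd (MR St) ξ) ξ` since `bs a ξ = bs a η` for `a` below `η`
(`bs_below`). `Fip`: let `F ⊆ S` be finite, `q ∈ Vd (MR St) ξ`, `N : ℕ`, and let `G` be a finite set of
indices `i` such that each element of `F` is some `X i` with `i ∈ G`. If `q` (as a condition of
`PM St`) is compatible with `p`, take a common extension `s`; by the hypothesis there are `s' ≤ s`
and `k ≥ N` with `s' ∈ meets (E i k)` for all `i ∈ G`; extend `s'` further below elements
`a_i ∈ A i k`, `i ∈ G` to `s''`; then `a_i ∈ meets (E i k)` (it decides this and it is compatible with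
a condition in `meets (E i k)`). Take `q' = res s'' ξ ≤ q`; `q' ≤ a_i`, so
`bs q' ξ ⊆ bs a_i ξ = bs a_i η ⊆ X i k`. If `q` is incompatible with `p` then it is compatible
with some `b ∈ B`; take `q' = res s ξ` for a common extension `s`. Hence `S ⊆ UU St ξ` (`sub_Uf`).
By `S_ALM` we get `p ∈ AlmF (Mm St ξ) (E i)` for all `i` (`Rpr (X i) (E i) ξ p`: for `k` take the set
of the above conditions `a` and `b`; a condition `s ≤ b` is not below `p`). -/
def S_PSI : Prop := S_COF → S_DEC → S_ALM → S_CNT → ∀ (κ μ : Cardinal.{0})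
  (o : μ.ord.ToType) (bk : Set (ℕ → Set (Om (WithTop (Jx κ μ)))) → μ.ord.ToType →
      Set (ℕ → Set (Om (WithTop (Jx κ μ))))), Hyp κ μ o bk →
  ∀ (Y : Type) (E : Y → ℕ → Set (PM (Stg κ μ o bk))) (p : PM (Stg κ μ o bk)), #Y < κ →
    (∀ (G : Finset Y) (N : ℕ), ∀ s ≤ p, ∃ s' ≤ s, ∃ k ≥ N, ∀ i ∈ G, s' ∈ meets (E i k)) →
    ∃ ξ : Jx κ μ, ∀ i, p ∈ AlmF (Mm (Stg κ μ o bk) ξ) (E i)

/-- There is no tower of length less than `κ`.
Proof. Let `q ≤ p`, `q ∈ TowerF E` with `E : o'.ToType → _`; `#o'.ToType < κ`. The hypothesis of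
`S_PSI` holds for `q`: let `G` be a finite set of indices, `N : ℕ`, `s ≤ q`. If `G` is empty take
`k = N`. Otherwise let `j` be the largest element of `G`; extending `s` finitely often we get
`s' ≤ s` and a bound `N' ≥ N` such that `s' ∈ fall fun k => fall fun _ : N' ≤ k => fimp (meets (E j k))
(meets (E i k))` for the `i ∈ G` (induction on the finite set); `E j` is infinite, so some extension
is in `meets (E j k)` with `k ≥ N'`; extend it further for each `i ∈ G`. The set `Mm St ξ` given by
`S_PSI` is infinite (`infSet_Mm`), and this contradicts the last clause of `TowerF E`. -/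
def S_TLB : Prop := S_COF → S_DEC → S_ALM → S_CNT → S_PSI → ∀ (κ μ : Cardinal.{0})
  (o : μ.ord.ToType) (bk : Set (ℕ → Set (Om (WithTop (Jx κ μ)))) → μ.ord.ToType →
      Set (ℕ → Set (Om (WithTop (Jx κ μ))))), Hyp κ μ o bk →
  ∀ p : PM (Stg κ μ o bk), ∀ o' : Ordinal.{0}, o' < κ.ord →
    p ∈ fnot (fex fun E : o'.ToType → ℕ → Set (PM (Stg κ μ o bk)) => TowerF E)

end Pool.Agent.T2h65.CP
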