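import Mathlib
import Pool.Agent.T2h65.CP.Stm

/-!
# Task ALM: the generic set is almost contained in the members of the ultrafilter
-/

set_option autoImplicit false

namespace Pool.Agent.T2h65.CP

open Cardinal Pool.Agent.Helper669.Iter Pool.Agent.Helper669.Forcing
  Pool.Agent.Helper669.GBase Pool.Agent.Helper669.Forcing2
open Pool.Agent.Helper669.MMain (addG addG_pr addG_le addG_mem exists_stem_bound)

theorem t_ALM : S_ALM := by
  intro J _ _ St ξ X x p hX hR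
  have hξ : (ξ : WithTop J) < ⊤ := WithTop.coe_lt_top ξ
  refine mem_fex.2 fun q hqp => ?_
  let q' : PM St := ⟨addG q.1 ξ {pm X}, addG_mem q.2 hξ fun R hR => by
    rw [Finset.mem_singleton] at hR
    rw [hR]
    exact mem_MR hX⟩
  have hq'q : q' ≤ q := addG_le q.1 ξ _
  have hst : q'.1.st (ξ : WithTop J) = q.1.st ξ := rfl
  obtain ⟨N, hN⟩ := exists_stem_bound (q.1.st (ξ : WithTop J))
  refine ⟨q', hq'q, N, fun k hk => ?_⟩
  have hk : N ≤ k := hk
  refine mem_fimp.2 fun r hr hm => ⟨r, le_rfl, meets_of_dense fun r0 hr0 => ?_⟩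
  obtain ⟨r1, hr1, n, hn, hnk⟩ := exists_of_meets (down_Mm ξ k) (down_meets _ _ hm r0 hr0)
  have hr1q' : r1 ≤ q' := hr1.trans (hr0.trans hr)
  have hnlen : (q'.1.st (ξ : WithTop J)).length ≤ n := by
    by_contra hcon
    obtain ⟨_, h2⟩ := st_mono hr1q' ξ (not_le.1 hcon)
    rw [h2, hst] at hnk
    have := hN n (by rw [← hst]; exact not_le.1 hcon)
    rw [hnk] at this
    exact absurd hk (not_le.2 this)
  have h1 := (hr1q' (ξ : WithTop J)).2.2 (pm X)
    (addG_pr (Finset.mem_singleton_self _)) n hnlen hn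
  have h1' : bs r1.1 (ξ : WithTop J) ⊆
    X (Nat.unpair ((r1.1.st (ξ : WithTop J)).getD n 0)).1 := h1
  rw [hnk] at h1'
  obtain ⟨A, hA1, hA2, hA3⟩ := hR k
  obtain ⟨w, hw⟩ := bs_nonempty good r1.2
  have h4 := h1' (hw ξ)
  rw [hA2] at h4
  simp only [Set.mem_iUnion] at h4
  obtain ⟨a, ha, hwa⟩ := h4
  have h2 : bs (resP r1 ξ).1 (ξ : WithTop J) = bs r1.1 (ξ : WithTop J) := bs_res le_rfl
  obtain ⟨s0, hs0, hq1, hq2⟩ := compat_of_point good (resP_mem r1 ξ)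
    ⟨a.2.1, hA1 a ha⟩ (by rw [h2]; exact hw ξ) hwa
  obtain ⟨s, hs1, hs2, _⟩ := compat_res (p := r1) (hA1 a ha)
    ⟨⟨s0, hs0.1, hs0.2.mono le_top⟩, hq2, hq1⟩
  exact ⟨s, hs2.trans hr1, hA3 a ha s hs1
    (hs2.trans (hr1.trans (hr0.trans (hr.trans (hq'q.trans hqp)))))⟩

end Pool.Agent.T2h65.CP
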