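import Mathlib
import Pool.Agent.T2h65.CP.Stm

/-! Tasks CCC, BDT, INT (helper1). -/

set_option autoImplicit false

namespace Pool.Agent.T2h65.CP

open Cardinal Pool.Agent.Helper669.Iter Pool.Agent.Helper669.Forcing
  Pool.Agent.Helper669.GBase Pool.Agent.W873.Gmp

theorem t_CCC : S_CCC := by
  classical
  rintro P _ ⟨Dc, hcov, hdir⟩ D
  have hc : Countable (ℵ₀ : Cardinal.{0}).ord.ToType := by
    rw [← Cardinal.mk_le_aleph0_iff, mk_ord_toType]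
  let I := {i : (ℵ₀ : Cardinal.{0}).ord.ToType // (D ∩ Dc i).Nonempty}
  let g : I → P := fun i => i.2.choose
  have hg : ∀ i : I, g i ∈ D ∩ Dc i.1 := fun i => i.2.choose_spec
  refine ⟨Set.range g, ?_, Set.countable_range g, ?_⟩
  · rintro _ ⟨i, rfl⟩
    exact (hg i).1
  · intro d hd
    obtain ⟨i, hi⟩ := hcov d
    let j : I := ⟨i, d, hd, hi⟩
    obtain ⟨r, -, h1, h2⟩ := hdir i (g j) (hg j).2 d hi
    exact ⟨g j, ⟨j, rfl⟩, r, h1, h2⟩

theorem bdd_N2 (T : Set N2) (hT : T.Countable) : ∃ b : N2, ∀ t ∈ T, t < b := by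
  by_contra hcon
  push Not at hcon
  have h1 : IsCofinal T := fun β => by
    obtain ⟨x, hx, h⟩ := hcon β
    exact ⟨x, hx, h⟩
  have h2 := Order.cof_le h1
  rw [Ordinal.cof_toType, (isRegular_succ (Order.le_succ ℵ₀)).cof_ord] at h2
  have h3 : #T ≤ ℵ₀ := Cardinal.mk_le_aleph0_iff.2 hT
  exact absurd (h2.trans h3) (not_le.2 ((Order.lt_succ _).trans (Order.lt_succ _)))

theorem bdd_N1 (T : Set N1) (hT : T.Countable) : ∃ b : N1, ∀ t ∈ T, t < b := by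
  by_contra hcon
  push Not at hcon
  have h1 : IsCofinal T := fun β => by
    obtain ⟨x, hx, h⟩ := hcon β
    exact ⟨x, hx, h⟩
  have h2 := Order.cof_le h1
  rw [Ordinal.cof_toType, (isRegular_succ le_rfl).cof_ord] at h2
  have h3 : #T ≤ ℵ₀ := Cardinal.mk_le_aleph0_iff.2 hT
  exact absurd (h2.trans h3) (not_le.2 (Order.lt_succ _))

theorem t_BDT : S_BDT := by
  classical
  constructor
  · intro T hT _
    obtain ⟨b, hb⟩ := bdd_N2 T hT
    exact ⟨b, WithTop.coe_lt_top b, hb⟩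
  · rintro β ⟨f, hf, hfβ, hcof⟩ T hT hTβ
    have h1 : ∀ t : T, ∃ x : N1, t.1 < f x := fun t => hcof t.1 (WithTop.coe_lt_coe.1 (hTβ t.1 t.2))
    choose x hx using h1
    have : Countable T := hT
    obtain ⟨y, hy⟩ := bdd_N1 (Set.range x) (Set.countable_range x)
    refine ⟨f y, WithTop.coe_lt_coe.2 (hfβ y), fun t ht => ?_⟩
    exact (hx ⟨t, ht⟩).trans (hf _ _ (hy _ ⟨⟨t, ht⟩, rfl⟩))

/-- sequences below `β` have a least strict upper bound below `β` -/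
theorem exists_lub {β : WithTop N2} (hB : Bdd β) (g : ℕ → N2)
    (hg : ∀ n, (g n : WithTop N2) < β) : ∃ γ : N2, (γ : WithTop N2) < β ∧ (∀ n, g n < γ) ∧
      ∀ δ < γ, ∃ n, δ ≤ g n := by
  obtain ⟨b, hb, hbg⟩ := hB (Set.range g) (Set.countable_range g) (by
    rintro _ ⟨n, rfl⟩
    exact hg n)
  let U : Set N2 := {c | ∀ n, g n < c}
  have hU : U.Nonempty := ⟨b, fun n => hbg _ ⟨n, rfl⟩⟩
  let γ := wellFounded_lt.min U hU
  have hγ : γ ∈ U := wellFounded_lt.min_mem U hU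
  refine ⟨γ, ?_, hγ, ?_⟩
  · refine lt_of_le_of_lt ?_ hb
    rw [WithTop.coe_le_coe]
    exact not_lt.1 (wellFounded_lt.not_lt_min U (show b ∈ U from fun n => hbg _ ⟨n, rfl⟩))
  · intro δ hδ
    by_contra hcon
    push Not at hcon
    exact wellFounded_lt.not_lt_min U (show δ ∈ U from hcon) hδ

/-- iteration of a step -/
theorem exists_seq {β : WithTop N2} (Q : ℕ → N2 → N2 → Prop)
    (h : ∀ n (γ : N2), (γ : WithTop N2) < β → ∃ δ : N2, (δ : WithTop N2) < β ∧ Q n γ δ)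
    (γ : N2) (hγ : (γ : WithTop N2) < β) :
    ∃ g : ℕ → N2, g 0 = γ ∧ (∀ n, (g n : WithTop N2) < β) ∧ ∀ n, Q n (g n) (g (n + 1)) := by
  choose F hF hQ using h
  let G : ℕ → {x : N2 // (x : WithTop N2) < β} := fun n =>
    Nat.rec ⟨γ, hγ⟩ (fun n x => ⟨F n x.1 x.2, hF n x.1 x.2⟩) n
  exact ⟨fun n => (G n).1, rfl, fun n => (G n).2, fun n => hQ n (G n).1 (G n).2⟩

theorem t_INT : S_INT := by
  intro β hB C hC
  refine ⟨fun γ hγ => (hC 0).sub γ (Set.mem_iInter.1 hγ 0), ?_, ?_⟩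
  · intro γ hγ
    obtain ⟨g, hg0, hgβ, hg⟩ := exists_seq (β := β)
      (fun n a b => b ∈ C (Nat.unpair n).1 ∧ a < b) (fun n a ha => by
        obtain ⟨δ, hδ, hlt⟩ := (hC (Nat.unpair n).1).unb a ha
        exact ⟨δ, (hC _).sub δ hδ, hδ, hlt⟩) γ hγ
    have hmono : StrictMono g := strictMono_nat_of_lt_succ fun n => (hg n).2
    obtain ⟨γ', hγ', h1, h2⟩ := exists_lub hB g hgβ
    refine ⟨γ', Set.mem_iInter.2 fun m => ?_, by rw [← hg0]; exact h1 0⟩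
    have hm : ∀ n, g (Nat.pair m n + 1) ∈ C m := by
      intro n
      have h3 := (hg (Nat.pair m n)).1
      rwa [Nat.unpair_pair] at h3
    refine (hC m).closed γ' hγ' ⟨_, hm 0, h1 _⟩ fun δ hδ => ?_
    obtain ⟨n, hn⟩ := h2 δ hδ
    refine ⟨_, hm n, lt_of_le_of_lt hn (hmono ?_), h1 _⟩
    exact Nat.lt_succ_of_le (Nat.right_le_pair m n)
  · intro γ hγ hex hlim
    obtain ⟨δ, hδ, hδγ⟩ := hex
    refine Set.mem_iInter.2 fun m => (hC m).closed γ hγ ⟨δ, Set.mem_iInter.1 hδ m, hδγ⟩ ?_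
    intro δ' hδ'
    obtain ⟨ε, hε, h1, h2⟩ := hlim δ' hδ'
    exact ⟨ε, Set.mem_iInter.1 hε m, h1, h2⟩

end Pool.Agent.T2h65.CP
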