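import Mathlib
import Pool.Agent.T2h65.CP.Stm

/-!
# The bookkeeping function (helper38)
-/

set_option autoImplicit false
set_option linter.all false

namespace Pool.Agent.T2h65.CP

open Cardinal

theorem t_BKX : S_BKX := by
  classical
  intro κ μ o X hκ hκμ hpow
  have hμ : ℵ₀ ≤ μ := hκ.trans hκμ
  have key : ∀ N : Set X, ∃ b : μ.ord.ToType → Set X, #N ≤ μ → ∀ S ⊆ N, #S < κ →
      ∃ β, β ≠ o ∧ b β = S := by
    intro N
    by_cases hN : #N ≤ μ
    swap
    · exact ⟨fun _ => ∅, fun h => absurd h hN⟩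
    obtain ⟨ν, hν⟩ : ∃ ν : κ.ord.ToType → Cardinal.{0},
        ν = fun a => (Ordinal.ToType.mk.symm a : Ordinal.{0}).card := ⟨_, rfl⟩
    have hνlt : ∀ a, ν a < κ := by
      intro a
      rw [hν]
      exact Cardinal.lt_ord.1 (Ordinal.ToType.mk.symm a).2
    obtain ⟨F, hF⟩ : ∃ F : Set (Set X), F = {S | S ⊆ N ∧ #S < κ} := ⟨_, rfl⟩
    have hFsub : F ⊆ ⋃ a : κ.ord.ToType, {t : Set X | t ⊆ N ∧ #t ≤ ν a} := by
      intro S hS
      rw [hF] at hS
      rw [Set.mem_iUnion]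
      refine ⟨Ordinal.ToType.mk ⟨(#S).ord, Cardinal.ord_lt_ord.2 hS.2⟩, hS.1, ?_⟩
      rw [hν]
      simp
    have hFcard : #F ≤ μ := by
      refine (Cardinal.mk_le_mk_of_subset hFsub).trans ((Cardinal.mk_iUnion_le _).trans ?_)
      have h1 : ⨆ a : κ.ord.ToType, #{t : Set X | t ⊆ N ∧ #t ≤ ν a} ≤ μ := by
        refine ciSup_le' fun a => ?_
        have h2 : #{t : Set X | t ⊆ N ∧ #t ≤ ν a} ≤ max #N ℵ₀ ^ ν a :=
          Cardinal.mk_bounded_subset_le N (ν a)
        exact h2.trans ((Cardinal.power_le_power_right (max_le hN hμ)).trans (hpow _ (hνlt a)))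
      have h3 : #κ.ord.ToType = κ := by simp
      rw [h3]
      exact (mul_le_mul' hκμ h1).trans (le_of_eq (Cardinal.mul_eq_self hμ))
    have hinf : Infinite μ.ord.ToType := by
      rw [Cardinal.infinite_iff]
      simpa using hμ
    have hco : #({o}ᶜ : Set μ.ord.ToType) = μ := by
      have h1 := Cardinal.mk_compl_of_infinite ({o} : Set μ.ord.ToType) (by
        rw [Cardinal.mk_singleton]
        exact Cardinal.one_lt_aleph0.trans_le (by simpa using hμ))
      rw [h1]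
      simp
    obtain ⟨e⟩ : #F ≤ #({o}ᶜ : Set μ.ord.ToType) := by
      rw [hco]
      exact hFcard
    refine ⟨fun β => {x | ∃ S : F, (e S).1 = β ∧ x ∈ S.1}, fun _ S hS hSκ => ?_⟩
    have hSF : S ∈ F := by
      rw [hF]
      exact ⟨hS, hSκ⟩
    refine ⟨(e ⟨S, hSF⟩).1, (e ⟨S, hSF⟩).2, ?_⟩
    ext x
    constructor
    · rintro ⟨S', h1, h2⟩
      have h3 : S' = ⟨S, hSF⟩ := e.injective (Subtype.ext h1)
      rw [h3] at h2
      exact h2
    · intro hx
      exact ⟨⟨S, hSF⟩, rfl, hx⟩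
  choose bk hbk using key
  exact ⟨bk, fun N hN S hS hSκ => hbk N hN S hS hSκ⟩

end Pool.Agent.T2h65.CP
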