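import Mathlib
import Pool.Agent.T2h65.CP.Stm

/-!
# The iteration is sigma-centered (helper38)
-/

set_option autoImplicit false
set_option linter.all false

namespace Pool.Agent.T2h65.CP

open Cardinal Pool.Agent.Helper669.Iter Pool.Agent.Helper669.Forcing
  Pool.Agent.Helper669.GBase Pool.Agent.W873.Gmp

namespace CEN

/-- finitely many distinct sequences differ below some bound -/
theorem exists_bound {J : Type} (g : J → ℕ → Bool) (hg : Function.Injective g) (S : Set J)
    (hS : S.Finite) : ∃ m : ℕ, ∀ i ∈ S, ∀ j ∈ S, (∀ k < m, g i k = g j k) → i = j := by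
  classical
  have h1 : ∀ i j : J, ∃ k : ℕ, i ≠ j → g i k ≠ g j k := by
    intro i j
    by_cases h : i = j
    · exact ⟨0, fun h' => absurd h h'⟩
    · have h2 : g i ≠ g j := fun h' => h (hg h')
      obtain ⟨k, hk⟩ := Function.ne_iff.1 h2
      exact ⟨k, fun _ => hk⟩
  choose k hk using h1
  refine ⟨((hS.toFinset ×ˢ hS.toFinset).sup fun x => k x.1 x.2) + 1, fun i hi j hj h => ?_⟩
  by_contra hne
  apply hk i j hne
  apply h
  have h3 : k i j ≤ (hS.toFinset ×ˢ hS.toFinset).sup fun x => k x.1 x.2 :=
    Finset.le_sup (f := fun x : J × J => k x.1 x.2) (b := (i, j))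
      (Finset.mem_product.2 ⟨hS.mem_toFinset.2 hi, hS.mem_toFinset.2 hj⟩)
  omega

end CEN

open CEN

theorem t_CEN : S_CEN := by
  classical
  intro J _ _ St hJ
  obtain ⟨g, hg⟩ : ∃ g : J → ℕ → Bool, Function.Injective g := by
    have h1 : #J ≤ #(ℕ → Bool) := by
      refine hJ.trans (le_of_eq ?_)
      simp
    obtain ⟨e⟩ := h1
    exact ⟨e, e.injective⟩
  -- the index set
  have hcount : Countable (Σ m : ℕ, ((Fin m → Bool) → List ℕ)) := inferInstance
  have hne : Nonempty (Σ m : ℕ, ((Fin m → Bool) → List ℕ)) := ⟨⟨0, fun _ => []⟩⟩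
  obtain ⟨e1, he1⟩ := exists_surjective_nat (Σ m : ℕ, ((Fin m → Bool) → List ℕ))
  obtain ⟨e2⟩ : Nonempty ((ℵ₀ : Cardinal.{0}).ord.ToType ≃ ℕ) := by
    rw [← Cardinal.eq]
    simp
  obtain ⟨D, hD⟩ : ∃ D : (Σ m : ℕ, ((Fin m → Bool) → List ℕ)) → Set (PM St),
      D = fun x => {p | ∀ j : J, (j : WithTop J) ∈ supp p.1 →
        p.1.st (j : WithTop J) = x.2 fun k => g j k} := ⟨_, rfl⟩
  refine ⟨fun i => D (e1 (e2 i)), ?_, ?_⟩
  · intro p
    -- the support
    have hfin : {j : J | (j : WithTop J) ∈ supp p.1}.Finite := by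
      have h1 : (supp p.1).Finite := p.1.fin
      exact h1.preimage (WithTop.coe_injective.injOn)
    obtain ⟨m, hm⟩ := exists_bound g hg _ hfin
    have key : ∃ i, p ∈ D i := by
      refine ⟨⟨m, fun s => if h : ∃ j : J, (j : WithTop J) ∈ supp p.1 ∧
        (fun k : Fin m => g j k) = s then p.1.st (h.choose : WithTop J) else []⟩, ?_⟩
      rw [hD]
      intro j hj
      have hex : ∃ j' : J, (j' : WithTop J) ∈ supp p.1 ∧
        (fun k : Fin m => g j' k) = fun k : Fin m => g j k := ⟨j, hj, rfl⟩
      show p.1.st (j : WithTop J) = if h : ∃ j' : J, (j' : WithTop J) ∈ supp p.1 ∧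
        (fun k : Fin m => g j' k) = (fun k : Fin m => g j k) then p.1.st (h.choose : WithTop J)
        else []
      rw [dif_pos hex]
      obtain ⟨h1, h2⟩ := hex.choose_spec
      have h3 : hex.choose = j := by
        apply hm _ h1 _ hj
        intro k hk
        exact congrFun h2 ⟨k, hk⟩
      rw [h3]
    obtain ⟨i, hi⟩ := key
    obtain ⟨n, hn⟩ := he1 i
    refine ⟨e2.symm n, ?_⟩
    show p ∈ D (e1 (e2 (e2.symm n)))
    rw [e2.apply_symm_apply, hn]
    exact hi
  · intro i p hp q hq
    obtain ⟨x, hx⟩ : ∃ x, x = e1 (e2 i) := ⟨_, rfl⟩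
    simp only [← hx] at hp hq ⊢
    rw [hD] at hp hq ⊢
    obtain ⟨r, hr⟩ := p
    obtain ⟨r', hr'⟩ := q
    let z : Rep (WithTop J) :=
      { st := fun η => if η ∈ supp r then r.st η else r'.st η
        pr := fun η => r.pr η ∪ r'.pr η
        fin := by
          refine (r.fin.union r'.fin).subset fun η hη => ?_
          by_contra h'
          rw [Set.mem_union, not_or] at h'
          obtain ⟨h1, h2⟩ := notMem_supp (r := r) h'.1
          obtain ⟨h3, h4⟩ := notMem_supp (r := r') h'.2
          simp [h1, h2, h3, h4] at hη }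
    have hst : ∀ η ∈ supp r, η ∈ supp r' → r.st η = r'.st η := by
      intro η h1 h2
      have hηt : η < ⊤ := by
        by_contra h
        rw [not_lt, top_le_iff] at h
        obtain ⟨h3, h4⟩ := hr.2 η (by rw [h])
        rcases h1 with h1 | h1
        · exact h1 h3
        · exact h1 h4
      obtain ⟨j, rfl⟩ := WithTop.ne_top_iff_exists.1 hηt.ne
      rw [hp j h1, hq j h2]
    have hz : z ∈ Vd (MR St) ⊤ := by
      refine ⟨fun η R hR => ?_, fun η hη => ?_⟩
      · rcases Finset.mem_union.1 hR with h | h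
        · exact hr.1 η R h
        · exact hr'.1 η R h
      · obtain ⟨h1, h2⟩ := hr.2 η hη
        obtain ⟨h3, h4⟩ := hr'.2 η hη
        simp [z, h1, h2, h3, h4]
    refine ⟨⟨z, hz⟩, ?_, ?_, ?_⟩
    · intro j hj
      by_cases h1 : (j : WithTop J) ∈ supp r
      · have : z.st (j : WithTop J) = r.st (j : WithTop J) := if_pos h1
        show z.st (j : WithTop J) = _
        rw [this]
        exact hp j h1
      · have h2 : z.st (j : WithTop J) = r'.st (j : WithTop J) := if_neg h1
        show z.st (j : WithTop J) = _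
        rw [h2]
        apply hq j
        obtain ⟨_, h4⟩ := notMem_supp h1
        have h5 : z.pr (j : WithTop J) = r'.pr (j : WithTop J) := by
          show r.pr _ ∪ r'.pr _ = _
          rw [h4, Finset.empty_union]
        rcases hj with h6 | h6
        · left
          rw [← h2]
          exact h6
        · right
          rw [← h5]
          exact h6
    · show z ≤ r
      intro η
      by_cases h1 : η ∈ supp r
      · have : z.st η = r.st η := if_pos h1
        rw [this]
        exact ⟨List.prefix_refl _, Finset.subset_union_left,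
          fun _ _ _ h h' => absurd h' (not_lt.2 h)⟩
      · obtain ⟨h2, h3⟩ := notMem_supp h1
        rw [h2, h3]
        exact ⟨List.nil_prefix, Finset.empty_subset _, fun R hR => absurd hR (Finset.notMem_empty R)⟩
    · show z ≤ r'
      intro η
      by_cases h1 : η ∈ supp r'
      · have : z.st η = r'.st η := by
          by_cases h2 : η ∈ supp r
          · have : z.st η = r.st η := if_pos h2
            rw [this, hst η h2 h1]
          · exact if_neg h2
        rw [this]
        exact ⟨List.prefix_refl _, Finset.subset_union_right,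
          fun _ _ _ h h' => absurd h' (not_lt.2 h)⟩
      · obtain ⟨h2, h3⟩ := notMem_supp h1
        rw [h2, h3]
        exact ⟨List.nil_prefix, Finset.empty_subset _, fun R hR => absurd hR (Finset.notMem_empty R)⟩

end Pool.Agent.T2h65.CP
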