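import Mathlib
import Pool.Agent.T2h65.CP.T_BDT
import Pool.Agent.Helper669.Forcing2

/-! Tasks CLB, CFO, CFG, SRT (helper1). -/

set_option autoImplicit false

namespace Pool.Agent.T2h65.CP

open Cardinal Pool.Agent.Helper669.Iter Pool.Agent.Helper669.Forcing
  Pool.Agent.Helper669.GBase Pool.Agent.W873.Gmp Pool.Agent.Helper669.Forcing2

theorem meets_const {P : Type} [Preorder P] {h : Prop} {p : P} :
    p ∈ meets ({_q | h} : Set P) ↔ h := by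
  constructor
  · intro hp
    obtain ⟨r, _, s, hs, _⟩ := hp p le_rfl
    exact hs
  · intro hh
    exact meets_of_mem hh

theorem t_CLB : S_CLB := by
  intro P _ hcc β hB C p hp
  obtain ⟨hp1, hp2, hp3⟩ := hp
  let Q : N2 → N2 → Prop := fun δ ε => ∀ q ≤ p, ∃ r ≤ q, ∃ δ' : N2, (δ < δ' ∧ δ' < ε) ∧
    r ∈ meets (C δ')
  have hlt : ∀ (γ : N2) (r : P), r ≤ p → r ∈ meets (C γ) → (γ : WithTop N2) < β := by
    intro γ r hr hm
    obtain ⟨r', _, h⟩ := mem_fimp.1 (hp1 γ) r hr hm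
    exact h
  have hQ1 : ∀ δ : N2, (δ : WithTop N2) < β → ∃ ε : N2, (ε : WithTop N2) < β ∧ Q δ ε := by
    intro δ hδ
    obtain ⟨A, hAE, hA, hpre⟩ := hcc {q | q ≤ p ∧ ∃ δ', δ < δ' ∧ q ∈ meets (C δ')}
    have h1 : ∀ a : A, ∃ δ', δ < δ' ∧ a.1 ∈ meets (C δ') := fun a => (hAE a.2).2
    choose v hv1 hv2 using h1
    have : Countable A := hA
    obtain ⟨b, hb, hvb⟩ := hB (Set.range v) (Set.countable_range v) (by
      rintro _ ⟨a, rfl⟩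
      exact hlt _ a.1 (hAE a.2).1 (hv2 a))
    refine ⟨b, hb, fun q hq => ?_⟩
    obtain ⟨r, hr, δ'', h1, h2⟩ := mem_fex.1 (hp2 δ hδ) q hq
    obtain ⟨a, ha, s, hs1, hs2⟩ := hpre r ⟨hr.trans hq, δ'', h1, h2⟩
    exact ⟨s, hs2.trans hr, v ⟨a, ha⟩, ⟨hv1 ⟨a, ha⟩, hvb _ ⟨⟨a, ha⟩, rfl⟩⟩,
      down_meets _ _ (hv2 ⟨a, ha⟩) s hs1⟩
  have hQlt : ∀ δ ε, Q δ ε → δ < ε := by
    intro δ ε h
    obtain ⟨r, _, δ', h1, _⟩ := h p le_rfl
    exact h1.1.trans h1.2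
  have hQm : ∀ δ δ₀ ε, δ₀ ≤ δ → Q δ ε → Q δ₀ ε := by
    intro δ δ₀ ε hle h q hq
    obtain ⟨r, hr, δ', h1, h2⟩ := h q hq
    exact ⟨r, hr, δ', ⟨lt_of_le_of_lt hle h1.1, h1.2⟩, h2⟩
  refine ⟨{γ | (γ : WithTop N2) < β ∧ (∃ δ, δ < γ) ∧ ∀ δ < γ, ∃ ε < γ, Q δ ε},
    ⟨fun γ hγ => hγ.1, ?_, ?_⟩, ?_⟩
  · intro γ hγ
    obtain ⟨g, hg0, hgβ, hg⟩ := exists_seq (β := β) (fun _ a b => Q a b) (fun _ => hQ1) γ hγ
    obtain ⟨γ', hγ', h1, h2⟩ := exists_lub hB g hgβ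
    refine ⟨γ', ⟨hγ', ⟨g 0, h1 0⟩, fun δ hδ => ?_⟩, by rw [← hg0]; exact h1 0⟩
    obtain ⟨n, hn⟩ := h2 δ hδ
    exact ⟨g (n + 1), h1 _, hQm _ _ _ hn (hg n)⟩
  · rintro γ hγ ⟨δ₀, _, hδ₀⟩ hlim
    refine ⟨hγ, ⟨δ₀, hδ₀⟩, fun δ hδ => ?_⟩
    obtain ⟨ε, hε, h1, h2⟩ := hlim δ hδ
    obtain ⟨ε', hε', h3⟩ := hε.2.2 δ h1
    exact ⟨ε', hε'.trans h2, h3⟩
  · rintro γ ⟨hγβ, ⟨δ₀, hδ₀⟩, hγ⟩
    refine meets_of_dense fun q hq => ?_
    refine mem_fimp.1 (hp3 γ hγβ) q hq ⟨?_, ?_⟩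
    · obtain ⟨ε, hε, h1⟩ := hγ δ₀ hδ₀
      refine mem_fex.2 fun q' hq' => ?_
      obtain ⟨r, hr, δ', h2, h3⟩ := h1 q' (hq'.trans hq)
      exact ⟨r, hr, δ', h2.2.trans hε, h3⟩
    · intro δ hδ
      obtain ⟨ε, hε, h1⟩ := hγ δ hδ
      refine mem_fex.2 fun q' hq' => ?_
      obtain ⟨r, hr, δ', h2, h3⟩ := h1 q' (hq'.trans hq)
      exact ⟨r, hr, δ', ⟨h2.1, h2.2.trans hε⟩, h3⟩

/-- an ordinal with a countable cofinal set without largest element has cofinality `ω` -/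
theorem cofG_of_countable {α : N2} {T : Set N2} (hT : T.Countable) (hne : T.Nonempty)
    (hTα : ∀ t ∈ T, t < α) (hcof : ∀ γ < α, ∃ t ∈ T, γ < t) : CofG ℕ α := by
  obtain ⟨t, rfl⟩ := hT.exists_eq_range hne
  have hstep : ∀ (n : ℕ) (γ : N2), (γ : WithTop N2) < (α : WithTop N2) →
      ∃ δ : N2, (δ : WithTop N2) < (α : WithTop N2) ∧ (γ < δ ∧ t n < δ) := by
    intro n γ hγ
    obtain ⟨_, ⟨m, rfl⟩, hm⟩ := hcof (max γ (t n))
      (max_lt (WithTop.coe_lt_coe.1 hγ) (hTα _ ⟨n, rfl⟩))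
    exact ⟨t m, WithTop.coe_lt_coe.2 (hTα _ ⟨m, rfl⟩), (le_max_left _ _).trans_lt hm,
      (le_max_right _ _).trans_lt hm⟩
  obtain ⟨g, hg0, hgα, hg⟩ := exists_seq (fun n γ δ => γ < δ ∧ t n < δ) hstep (t 0)
    (WithTop.coe_lt_coe.2 (hTα _ ⟨0, rfl⟩))
  have hmono : StrictMono g := strictMono_nat_of_lt_succ fun n => (hg n).1
  refine ⟨g, fun x y h => hmono h, fun x => WithTop.coe_lt_coe.1 (hgα x), fun γ hγ => ?_⟩
  obtain ⟨_, ⟨n, rfl⟩, hn⟩ := hcof γ hγ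
  exact ⟨n + 1, hn.trans (hg n).2⟩

theorem t_CFO : S_CFO := by
  intro P _ hcc α p hp
  obtain ⟨q, _, f, hf, -, h3, h4⟩ := mem_fex.1 hp p le_rfl
  refine cofG_of_countable (T := {γ | ∃ n, ∃ r ≤ q, r ∈ meets (f n γ)}) ?_ ?_ ?_ ?_
  · have h5 : {γ | ∃ n, ∃ r ≤ q, r ∈ meets (f n γ)} =
        ⋃ n, {γ | ∃ r ≤ q, r ∈ meets (f n γ)} := by
      ext γ
      simp only [Set.mem_ofPred_eq, Set.mem_iUnion]
    rw [h5]
    refine Set.countable_iUnion fun n => ?_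
    obtain ⟨A, hAE, hA, hpre⟩ := hcc {r | r ≤ q ∧ ∃ γ, r ∈ meets (f n γ)}
    have h1 : ∀ a : A, ∃ γ, a.1 ∈ meets (f n γ) := fun a => (hAE a.2).2
    choose v hv using h1
    have : Countable A := hA
    refine (Set.countable_range v).mono ?_
    rintro γ ⟨r, hr, hγ⟩
    obtain ⟨a, ha, s, hs1, hs2⟩ := hpre r ⟨hr, γ, hγ⟩
    refine ⟨⟨a, ha⟩, ?_⟩
    exact IsFun.unique (down_IsFun f q hf s (hs2.trans hr))
      (down_meets _ _ (hv ⟨a, ha⟩) s hs1) (down_meets _ _ hγ s hs2)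
  · obtain ⟨q', hq', y, hy⟩ := IsFun.total hf 0
    exact ⟨y, 0, q', hq', hy⟩
  · rintro γ ⟨n, r, hr, hγ⟩
    obtain ⟨r', _, h⟩ := mem_fimp.1 (h3 n γ) r hr hγ
    exact h
  · intro γ hγ
    obtain ⟨r, hr, n, h5⟩ := mem_fex.1 (h4 γ hγ) q le_rfl
    obtain ⟨r', hr', δ, h6, h7⟩ := mem_fex.1 h5 r le_rfl
    exact ⟨δ, ⟨n, r', hr'.trans hr, h7⟩, h6⟩

theorem t_CFG : S_CFG := by
  rintro P _ X _ α ⟨g, hg, hgα, hcof⟩ p
  refine mem_fex.2 fun q hq => ⟨q, le_rfl, fun x γ => {_r | g x = γ}, ⟨?_, ?_⟩, ?_, ?_, ?_⟩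
  · intro x
    exact mem_fex_of_mem (g x) (down_meets _) (meets_const.2 rfl)
  · intro x y y'
    refine mem_fimp.2 fun r _ hr => ⟨r, le_rfl, ?_⟩
    have h1 : g x = y := meets_const.1 hr.1
    have h2 : g x = y' := meets_const.1 hr.2
    exact h1.symm.trans h2
  · intro x y hxy γ δ
    refine mem_fimp.2 fun r _ hr => ⟨r, le_rfl, ?_⟩
    have h1 : g x = γ := meets_const.1 hr.1
    have h2 : g y = δ := meets_const.1 hr.2
    show γ < δ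
    rw [← h1, ← h2]
    exact hg x y hxy
  · intro x γ
    refine mem_fimp.2 fun r _ hr => ⟨r, le_rfl, ?_⟩
    have h1 : g x = γ := meets_const.1 hr
    show γ < α
    rw [← h1]
    exact hgα x
  · intro γ hγ
    obtain ⟨x, hx⟩ := hcof γ hγ
    refine mem_fex_of_mem x (down_fex _) (mem_fex_of_mem (g x)
      (down_fand (down_fground _) (down_meets _)) ⟨hx, meets_const.2 rfl⟩)

/-- the check name of a club is a club -/
theorem clubF_check {P : Type} [Preorder P] {D : Set N2} {β : WithTop N2} (h : IsClub D β)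
    (p : P) : p ∈ ClubF (fun γ => ({_q | γ ∈ D} : Set P)) β := by
  refine ⟨?_, ?_, ?_⟩
  · intro γ
    refine mem_fimp.2 fun r _ hr => ⟨r, le_rfl, ?_⟩
    exact h.sub γ (meets_const.1 hr)
  · intro γ hγ
    obtain ⟨δ, hδ, hlt⟩ := h.unb γ hγ
    exact mem_fex_of_mem δ (down_fand (down_fground _) (down_meets _)) ⟨hlt, meets_const.2 hδ⟩
  · intro γ hγ
    refine mem_fimp.2 fun r _ hr => ⟨r, le_rfl, meets_const.2 ?_⟩
    obtain ⟨h1, h2⟩ := hr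
    refine h.closed γ hγ ?_ ?_
    · obtain ⟨r', _, δ, h3, h4⟩ := mem_fex.1 h1 r le_rfl
      exact ⟨δ, meets_const.1 h4, h3⟩
    · intro δ hδ
      obtain ⟨r', _, ε, h3, h4⟩ := mem_fex.1 (h2 δ hδ) r le_rfl
      exact ⟨ε, meets_const.1 h4, h3.1, h3.2⟩

theorem down_ClubF {P : Type} [Preorder P] (C : N2 → Set P) (β : WithTop N2) :
    Down (ClubF C β) :=
  down_fand (down_fall fun _ => down_fimp _ _)
    (down_fand (down_fall fun _ => down_fall fun _ => down_fex _)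
      (down_fall fun _ => down_fall fun _ => down_fimp _ _))

theorem down_StatF {P : Type} [Preorder P] (S : N2 → Set P) (β : WithTop N2) :
    Down (StatF S β) :=
  down_fall fun _ => down_fimp _ _

theorem t_SRT : S_SRT := by
  classical
  intro hCLB hBDT hINT hCFO hCFG P _ hcc hSR p S
  refine mem_fimp.2 fun q₀ _ hq₀ => ⟨q₀, le_rfl, mem_fex.2 fun q hqq => ?_⟩
  have h1 : ∀ α : N2, q ∈ fimp (meets (S α)) (CofF P ℕ α) := fun α =>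
    down_fimp _ _ _ (hq₀.1 α) q hqq
  have h2 : q ∈ StatF S ⊤ := down_StatF _ _ _ hq₀.2 q hqq
  have hT : ∀ α ∈ {α | ∃ r ≤ q, r ∈ meets (S α)}, CofG ℕ α := by
    rintro α ⟨r, hr, h⟩
    obtain ⟨r', _, h'⟩ := mem_fimp.1 (h1 α) r hr h
    exact hCFO P hcc α r' h'
  have hTs : Stat {α | ∃ r ≤ q, r ∈ meets (S α)} ⊤ := by
    intro D hD
    obtain ⟨r, hr, h⟩ := mem_fimp.1 (h2 (fun γ => {_q | γ ∈ D})) q le_rfl (clubF_check hD q)
    obtain ⟨r', hr', γ, h3, h4⟩ := mem_fex.1 h r le_rfl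
    exact ⟨γ, ⟨r', hr'.trans hr, h3⟩, meets_const.1 h4⟩
  obtain ⟨β, hβ, hst⟩ := hSR _ hT hTs
  have hBβ : Bdd (β : WithTop N2) := hBDT.2 β hβ
  have key : ∃ r ≤ q, r ∈ StatF S (β : WithTop N2) := by
    by_contra hcon
    push Not at hcon
    set E : Set P := {s | s ≤ q ∧ ∃ C : N2 → Set P, s ∈ ClubF C (β : WithTop N2) ∧
      ∀ r ≤ s, r ∉ fex fun γ : N2 => fand (meets (S γ)) (meets (C γ))} with hE
    have hdense : ∀ r ≤ q, ∃ s ≤ r, s ∈ E := by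
      intro r hr
      have h3 := hcon r hr
      unfold StatF at h3
      rw [mem_fall] at h3
      push Not at h3
      obtain ⟨C, hC⟩ := h3
      rw [mem_fimp] at hC
      push Not at hC
      obtain ⟨s, hs, h4, h5⟩ := hC
      exact ⟨s, hs, hs.trans hr, C, h4, h5⟩
    obtain ⟨A, hAE, hA, hpre⟩ := hcc E
    have hAne : A.Nonempty := by
      obtain ⟨s, _, hs⟩ := hdense q le_rfl
      obtain ⟨a, ha, _⟩ := hpre s hs
      exact ⟨a, ha⟩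
    obtain ⟨e, he⟩ := hA.exists_eq_range hAne
    have heA : ∀ n, e n ∈ A := fun n => by rw [he]; exact ⟨n, rfl⟩
    have h3 : ∀ n, ∃ (C : N2 → Set P) (D : Set N2), IsClub D (β : WithTop N2) ∧
        (∀ γ ∈ D, e n ∈ meets (C γ)) ∧
        ∀ r ≤ e n, r ∉ fex fun γ : N2 => fand (meets (S γ)) (meets (C γ)) := by
      intro n
      obtain ⟨_, C, h4, h5⟩ := hAE (heA n)
      obtain ⟨D, hD, h6⟩ := hCLB P hcc (β : WithTop N2) hBβ C (e n) h4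
      exact ⟨C, D, hD, h6, h5⟩
    choose C D hD hDC hno using h3
    obtain ⟨γ, ⟨r, hr, hγ⟩, hγD⟩ := hst _ (hINT _ hBβ D hD)
    obtain ⟨r1, hr1, hr1E⟩ := hdense r hr
    obtain ⟨a, ha, s, hs1, hs2⟩ := hpre r1 hr1E
    rw [he] at ha
    obtain ⟨n, rfl⟩ := ha
    refine hno n s hs1 (mem_fex_of_mem γ (down_fand (down_meets _) (down_meets _)) ⟨?_, ?_⟩)
    · exact down_meets _ _ hγ s (hs2.trans hr1)
    · exact down_meets _ _ (hDC n γ (Set.mem_iInter.1 hγD n)) s hs1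
  obtain ⟨r, hr, h⟩ := key
  exact ⟨r, hr, β, hCFG P N1 β hβ r, h⟩

end Pool.Agent.T2h65.CP
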