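import Mathlib
import Pool.Agent.T2h65.CP.Stm

/-!
# The number of names (helper38)
-/

set_option autoImplicit false
set_option linter.all false

namespace Pool.Agent.T2h65.CP

open Cardinal Pool.Agent.Helper669.Iter Pool.Agent.Helper669.Forcing
  Pool.Agent.Helper669.GBase Pool.Agent.W873.Gmp

namespace CNT

theorem mk_finset_le {α : Type} {μ : Cardinal.{0}} (hμ : ℵ₀ ≤ μ) (h : #α ≤ μ) :
    #(Finset α) ≤ μ := by
  classical
  have h1 : #(Finset α) ≤ #(List α) :=
    Cardinal.mk_le_of_surjective (f := fun l : List α => l.toFinset) fun s =>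
      ⟨s.toList, s.toList_toFinset⟩
  exact h1.trans ((Cardinal.mk_list_le_max α).trans (max_le hμ h))

variable {I : Type} [LinearOrder I] [WellFoundedLT I]

theorem mk_Vd_le (RR : I → Set (Pr I)) (ξ : I) {μ : Cardinal.{0}} (hμ : ℵ₀ ≤ μ) (hI : #I ≤ μ)
    (h : ∀ η < ξ, #(RR η) ≤ μ) : #(Vd RR ξ) ≤ μ := by
  classical
  obtain ⟨W, hW⟩ : ∃ W : Set (Pr I), W = ⋃ η : Set.Iio ξ, RR η := ⟨_, rfl⟩
  have hWc : #W ≤ μ := by
    rw [hW]
    refine (Cardinal.mk_iUnion_le _).trans ?_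
    have h1 : ⨆ η : Set.Iio ξ, #(RR η) ≤ μ := ciSup_le' fun η => h η η.2
    have h2 : #(Set.Iio ξ) ≤ μ := (Cardinal.mk_set_le _).trans hI
    exact (mul_le_mul' h2 h1).trans (le_of_eq (Cardinal.mul_eq_self hμ))
  have hmem : ∀ r ∈ Vd RR ξ, ∀ η, ∀ R ∈ r.pr η, R ∈ W := by
    intro r hr η R hR
    rw [hW, Set.mem_iUnion]
    have hη : η < ξ := by
      by_contra hη
      rw [(hr.2 η (not_lt.1 hη)).2] at hR
      exact absurd hR (Finset.notMem_empty R)
    exact ⟨⟨η, hη⟩, hr.1 η R hR⟩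
  have hfin : ∀ r : Rep I, (supp r).Finite := fun r => r.fin
  obtain ⟨f, hf⟩ : ∃ f : Vd RR ξ → Finset (I × List ℕ) × Finset (I × W),
      f = fun r => ((hfin r.1).toFinset.image (fun η => (η, r.1.st η)),
        (hfin r.1).toFinset.biUnion fun η => (r.1.pr η).attach.image fun R =>
          (η, ⟨R.1, hmem r.1 r.2 η R.1 R.2⟩)) := ⟨_, rfl⟩
  have h1 : ∀ (r : Vd RR ξ) (η : I) (l : List ℕ), l ≠ [] →
      ((η, l) ∈ (f r).1 ↔ r.1.st η = l) := by
    intro r η l hl
    rw [hf]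
    simp only [Finset.mem_image, Set.Finite.mem_toFinset, Prod.mk.injEq]
    constructor
    · rintro ⟨η', _, rfl, h3⟩
      exact h3
    · intro h2
      refine ⟨η, Or.inl ?_, rfl, h2⟩
      rw [h2]
      exact hl
  have h2 : ∀ (r : Vd RR ξ) (η : I) (R : Pr I), (∃ hR : R ∈ W, (η, (⟨R, hR⟩ : W)) ∈ (f r).2) ↔
      R ∈ r.1.pr η := by
    intro r η R
    rw [hf]
    simp only [Finset.mem_biUnion, Finset.mem_image, Set.Finite.mem_toFinset, Prod.mk.injEq,
      Finset.mem_attach, true_and, Subtype.mk.injEq, Subtype.exists]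
    constructor
    · rintro ⟨_, η', _, R', hR', rfl, h3⟩
      rw [← h3]
      exact hR'
    · intro hR
      refine ⟨hmem r.1 r.2 η R hR, η, Or.inr ?_, R, hR, rfl, rfl⟩
      intro h3
      rw [h3] at hR
      exact absurd hR (Finset.notMem_empty R)
  have hinj : Function.Injective f := by
    intro r r' hrr
    apply Subtype.ext
    ext1
    · funext η
      by_cases h3 : r.1.st η = []
      · by_cases h4 : r'.1.st η = []
        · rw [h3, h4]
        · have h5 := (h1 r' η _ h4).2 rfl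
          rw [← hrr] at h5
          exact (h1 r η _ h4).1 h5
      · have h5 := (h1 r η _ h3).2 rfl
        rw [hrr] at h5
        exact ((h1 r' η _ h3).1 h5).symm
    · funext η
      ext R
      rw [← h2 r, ← h2 r', hrr]
  refine (Cardinal.mk_le_of_injective hinj).trans ?_
  rw [Cardinal.mk_prod, Cardinal.lift_id, Cardinal.lift_id]
  have h3 : #(Finset (I × List ℕ)) ≤ μ := by
    apply mk_finset_le hμ
    rw [Cardinal.mk_prod, Cardinal.lift_id, Cardinal.lift_id]
    have h4 : #(List ℕ) ≤ μ := (Cardinal.mk_le_aleph0).trans hμ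
    exact (mul_le_mul' hI h4).trans (le_of_eq (Cardinal.mul_eq_self hμ))
  have h5 : #(Finset (I × W)) ≤ μ := by
    apply mk_finset_le hμ
    rw [Cardinal.mk_prod, Cardinal.lift_id, Cardinal.lift_id]
    exact (mul_le_mul' hI hWc).trans (le_of_eq (Cardinal.mul_eq_self hμ))
  exact (mul_le_mul' h3 h5).trans (le_of_eq (Cardinal.mul_eq_self hμ))

theorem mk_Nm_le (B : Set (Rep I)) (ξ : I) {μ : Cardinal.{0}} (hμ : ℵ₀ ≤ μ)
    (hμ2 : μ ^ (ℵ₀ : Cardinal.{0}) = μ) (hB : #B ≤ μ) : #(Nm B ξ) ≤ μ := by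
  classical
  obtain ⟨Φ, hΦ⟩ : ∃ Φ : (ℕ → ℕ → Option B) → (ℕ → Set (Om I)),
      Φ = fun f k => {w | ∃ n, ∃ b : B, f k n = some b ∧ w ∈ bs b.1 ξ} := ⟨_, rfl⟩
  have hsub : Nm B ξ ⊆ Set.range Φ := by
    intro X hX
    have h1 : ∀ k, ∃ g : ℕ → Option B, X k = {w | ∃ n, ∃ b : B, g n = some b ∧ w ∈ bs b.1 ξ} := by
      intro k
      obtain ⟨A, hA, hAc, hXk⟩ := hX k
      rcases A.eq_empty_or_nonempty with hAe | hAne
      · refine ⟨fun _ => none, ?_⟩
        rw [hXk, hAe]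
        simp
      · obtain ⟨e, he⟩ := hAc.exists_eq_range hAne
        have heB : ∀ n, e n ∈ B := fun n => hA (by rw [he]; exact ⟨n, rfl⟩)
        refine ⟨fun n => some ⟨e n, heB n⟩, ?_⟩
        rw [hXk, he]
        ext w
        simp only [Set.mem_iUnion, Set.mem_range, Set.mem_ofPred_eq, exists_prop]
        constructor
        · rintro ⟨_, ⟨n, rfl⟩, h2⟩
          exact ⟨n, _, rfl, h2⟩
        · rintro ⟨n, b, hb, h2⟩
          have h3 : b = ⟨e n, heB n⟩ := (Option.some.inj hb).symm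
          rw [h3] at h2
          exact ⟨e n, ⟨n, rfl⟩, h2⟩
    choose g hg using h1
    refine ⟨g, ?_⟩
    rw [hΦ]
    funext k
    exact (hg k).symm
  refine (Cardinal.mk_le_mk_of_subset hsub).trans (Cardinal.mk_range_le.trans ?_)
  have h4 : #(Option B) ≤ μ := by
    rw [Cardinal.mk_option]
    exact Cardinal.add_le_of_le hμ hB (Cardinal.one_le_aleph0.trans hμ)
  have h5 : #(ℕ → Option B) ≤ μ := by
    rw [← Cardinal.power_def, Cardinal.mk_nat]
    exact (Cardinal.power_le_power_right h4).trans (le_of_eq hμ2)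
  rw [← Cardinal.power_def, Cardinal.mk_nat]
  exact (Cardinal.power_le_power_right h5).trans (le_of_eq hμ2)

end CNT

open CNT

theorem t_CNT : S_CNT := by
  classical
  intro J _ _ St μ hμ hJ hμ2
  have hI : #(WithTop J) ≤ μ := by
    have h1 : #(WithTop J) = #J + 1 := Cardinal.mk_option
    rw [h1]
    exact Cardinal.add_le_of_le hμ hJ (Cardinal.one_le_aleph0.trans hμ)
  have hMR : ∀ ξ : WithTop J, #(MR St ξ) ≤ μ := by
    intro ξ
    induction ξ using WellFoundedLT.induction with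
    | ind ξ ih =>
      have h1 := mk_Vd_le (MR St) ξ hμ hI ih
      have h2 := mk_Nm_le (Vd (MR St) ξ) ξ hμ hμ2 h1
      rw [MR_eq]
      exact (Cardinal.mk_image_le).trans ((Cardinal.mk_le_mk_of_subset (Uf_sub _ _ _)).trans h2)
  have hV : ∀ ξ : WithTop J, #(Vd (MR St) ξ) ≤ μ := fun ξ =>
    mk_Vd_le (MR St) ξ hμ hI fun η _ => hMR η
  exact ⟨fun ξ => mk_Nm_le _ ξ hμ hμ2 (hV ξ), hV ⊤⟩

end Pool.Agent.T2h65.CP
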