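import Mathlib
import Pool.Agent.T2h65.CP.Stm

/-! Task COF. -/

set_option autoImplicit false

namespace Pool.Agent.T2h65.CP

open Cardinal

theorem t_COF : S_COF := by
  intro κ μ o hκ S hS
  have hb : ∃ b : κ.ord.ToType, ∀ y ∈ (fun s : Jx κ μ => (ofLex s).1) '' S, y < b := by
    by_contra hcon
    push Not at hcon
    have h1 : IsCofinal ((fun s : Jx κ μ => (ofLex s).1) '' S) := fun b => by
      obtain ⟨s, hs, hb⟩ := hcon b
      exact ⟨s, hs, hb⟩
    have h2 := Order.cof_le h1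
    rw [Ordinal.cof_toType, hκ.cof_ord] at h2
    exact absurd h2 (not_le.2 (mk_image_le.trans_lt hS))
  obtain ⟨b, hb⟩ := hb
  refine ⟨b, fun s hs => ?_⟩
  have h1 : (ofLex s).1 < b := hb _ ⟨s, hs, rfl⟩
  exact Prod.Lex.lt_iff.2 (Or.inl h1)

end Pool.Agent.T2h65.CP
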