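import Mathlib
import Pool.Agent.T2h65.CP.Stm
import Pool.Agent.W684.FM.Ambient

/-! Task CRD. -/

set_option autoImplicit false

namespace Pool.Agent.T2h65.CP

open Cardinal Pool.Agent.Helper669.Forcing Pool.Agent.W684.FM

theorem CC.pccc {P : Type} [Preorder P] (h : CC P) : PCCC P := by
  intro A hA
  obtain ⟨A', hA', hc, hd⟩ := h A
  refine hc.mono fun d hdA => ?_
  obtain ⟨a, ha, r, hra, hrd⟩ := hd d hdA
  by_contra hne
  refine hA a (hA' ha) d hdA ?_ ⟨r, hra, hrd⟩
  rintro rfl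
  exact hne ha

theorem t_CRD : S_CRD := fun _ _ h p => (h.pccc).cardinalsPreserved p

end Pool.Agent.T2h65.CP
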