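import Mathlib
import Pool.Agent.T2h65.CP.T_CRD
import Pool.Agent.K4H97.SG.Card

/-! Task CON. -/

set_option autoImplicit false

namespace Pool.Agent.T2h65.CP

open Cardinal Pool.Agent.Helper669.Forcing Pool.Agent.W684.FM Pool.Agent.K4H97.SG

theorem t_CON : S_CON := by
  intro P _ _ hCC hP p
  have hc : PCCC P := hCC.pccc
  refine ⟨?_, fun μ hμ => ?_⟩
  · apply continuumLe hc
    · rw [mk_out]; exact cantor _
    · rw [mk_out, ← power_mul, aleph0_mul_aleph0]
    · rw [mk_out]; exact hP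
  · have hI : #(ℕ → ℕ) = 2 ^ (ℵ₀ : Cardinal.{0}) := by
      rw [← power_def, mk_nat]
      exact power_self_eq le_rfl
    refine not_continuumLe hc (I := ℕ → ℕ) ?_ (fun i n a => {_p | i n = a}) ?_ ?_ p
    · rw [mk_out, hI]
      exact mul_lt_of_lt (cantor _).le hμ (cantor _)
    · intro i q
      refine ⟨fun n => mem_fex.2 fun r _ => ⟨r, le_rfl, i n, meets_of_mem rfl⟩,
        fun n a b => mem_fimp.2 fun r _ h => ⟨r, le_rfl, ?_⟩⟩
      obtain ⟨_, _, _, h1, _⟩ := h.1 r le_rfl
      obtain ⟨_, _, _, h2, _⟩ := h.2 r le_rfl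
      exact h1.symm.trans h2
    · intro i j hij q r _ hr
      apply hij
      funext n
      exact SameReal.eq hr (n := n) (a := i n) (b := j n) (meets_of_mem rfl) (meets_of_mem rfl)

end Pool.Agent.T2h65.CP
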