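import Mathlib
import Pool.Agent.T2h65.CP.Stm

/-!
# Conditions consisting of one stem
-/

set_option autoImplicit false

namespace Pool.Agent.T2h65.CP

open Cardinal Pool.Agent.Helper669.Iter Pool.Agent.Helper669.Forcing
  Pool.Agent.Helper669.GBase Pool.Agent.W873.Gmp
open Pool.Agent.Helper669.MMain (addG addG_pr addG_le addG_mem exists_stem_bound)

open Classical in
/-- the condition with the stem `l` at `η` and nothing else -/
noncomputable def stc {I : Type} (η : I) (l : List ℕ) : Rep I where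
  st ζ := if ζ = η then l else []
  pr _ := ∅
  fin := by
    refine (Set.finite_singleton η).subset fun ζ hζ => ?_
    by_contra h
    have h' : ζ ≠ η := h
    simp [h'] at hζ

theorem stc_st {I : Type} (η : I) (l : List ℕ) : (stc η l).st η = l := by simp [stc]

theorem stc_st_ne {I : Type} {η ζ : I} (l : List ℕ) (h : ζ ≠ η) : (stc η l).st ζ = [] := by
  simp [stc, h]

theorem stc_pr {I : Type} (η ζ : I) (l : List ℕ) : (stc η l).pr ζ = ∅ := rfl

section

variable {I : Type} [LinearOrder I]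

theorem mem_bs_stc {η ξ : I} (h : η < ξ) {l : List ℕ} {w : Om I} :
    w ∈ bs (stc η l) ξ ↔ ∀ i < l.length, w η i = l.getD i 0 := by
  constructor
  · intro hw
    have := (hw η h).1
    rwa [stc_st] at this
  · intro hw ζ _
    by_cases hζ : ζ = η
    · subst hζ
      rw [stc_st, stc_pr]
      exact ⟨hw, fun R hR => absurd hR (Finset.notMem_empty R)⟩
    · rw [stc_st_ne l hζ, stc_pr]
      exact ⟨fun i hi => absurd hi (by simp), fun R hR => absurd hR (Finset.notMem_empty R)⟩

theorem stc_below {η ξ : I} (h : η < ξ) (l : List ℕ) : Below (stc η l) ξ :=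
  fun _ hζ => ⟨stc_st_ne l (h.trans_le hζ).ne', rfl⟩

theorem stc_mem {RR : I → Set (Pr I)} {η ξ : I} (h : η < ξ) (l : List ℕ) :
    stc η l ∈ Vd RR ξ :=
  ⟨fun _ R hR => absurd hR (Finset.notMem_empty R), stc_below h l⟩

theorem le_stc {r : Rep I} {η : I} {l : List ℕ} (h : l <+: r.st η) : r ≤ stc η l := fun ζ => by
  by_cases hζ : ζ = η
  · subst hζ
    rw [stc_st, stc_pr]
    exact ⟨h, Finset.empty_subset _, fun R hR => absurd hR (Finset.notMem_empty R)⟩
  · rw [stc_st_ne l hζ, stc_pr]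
    exact ⟨List.nil_prefix, Finset.empty_subset _, fun R hR => absurd hR (Finset.notMem_empty R)⟩

theorem MmS_eq {η ξ : I} (h : η < ξ) (k : ℕ) :
    MmS η k = ⋃ a ∈ stc η '' {l : List ℕ | ∃ n < l.length, (Nat.unpair (l.getD n 0)).1 = k},
      bs a ξ := by
  ext w
  rw [Set.biUnion_image]
  simp only [Set.mem_iUnion, MmS, Set.mem_ofPred_eq]
  constructor
  · rintro ⟨n, hn⟩
    refine ⟨(List.range (n + 1)).map (w η), ⟨n, by simp, ?_⟩, ?_⟩
    · rw [List.getD_eq_getElem _ _ (by simp)]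
      simpa using hn
    · rw [mem_bs_stc h]
      intro i hi
      rw [List.getD_eq_getElem _ _ hi]
      simp
  · rintro ⟨l, ⟨n, hn, hk⟩, hw⟩
    exact ⟨n, by rw [(mem_bs_stc h).1 hw n hn]; exact hk⟩

theorem MmS_mem_Nm {RR : I → Set (Pr I)} {η ξ : I} (h : η < ξ) : MmS η ∈ Nm (Vd RR ξ) ξ := by
  intro k
  refine ⟨stc η '' {l : List ℕ | ∃ n < l.length, (Nat.unpair (l.getD n 0)).1 = k}, ?_,
    (Set.to_countable _).image _, MmS_eq h k⟩
  rintro _ ⟨l, _, rfl⟩
  exact stc_mem h l

end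

end Pool.Agent.T2h65.CP
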