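import Mathlib
import Pool.Agent.T2h65.CP.Bas

/-!
# Task DCR: the generic sets of the tower stages are decreasing mod finite
-/

set_option autoImplicit false

namespace Pool.Agent.T2h65.CP

open Cardinal Pool.Agent.Helper669.Iter Pool.Agent.Helper669.Forcing
  Pool.Agent.Helper669.GBase Pool.Agent.Helper669.Forcing2

theorem dcr_tw_lt {κ μ : Cardinal.{0}} (o : μ.ord.ToType) {α' α : κ.ord.ToType} (h : α' < α) :
    (tw o α' : Jx κ μ) < tw o α := by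
  unfold tw
  rw [Prod.Lex.toLex_lt_toLex]
  exact Or.inl h

theorem t_DCR : S_DCR := by
  intro hALM hTWF κ μ o bk α' α hlt p
  have hlt' : ((tw o α' : Jx κ μ) : WithTop (Jx κ μ)) < ((tw o α : Jx κ μ) : WithTop (Jx κ μ)) :=
    WithTop.coe_lt_coe.2 (dcr_tw_lt o hlt)
  refine hALM (Jx κ μ) (Stg κ μ o bk) (tw o α) _ _ p (hTWF κ μ o bk α' α hlt) ?_
  intro k
  refine ⟨{a : PM (Stg κ μ o bk) | ∃ l : List ℕ,
    a.1 = stc ((tw o α' : Jx κ μ) : WithTop (Jx κ μ)) l ∧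
      ∃ n < l.length, (Nat.unpair (l.getD n 0)).1 = k}, ?_, ?_, ?_⟩
  · rintro a ⟨l, hl, -⟩
    rw [hl]
    exact stc_below hlt' l
  · rw [MmS_eq hlt' k]
    ext w
    simp only [Set.mem_iUnion]
    constructor
    · rintro ⟨a, ⟨l, hl, rfl⟩, hw⟩
      exact ⟨⟨_, stc_mem (WithTop.coe_lt_top _) l⟩, ⟨l, rfl, hl⟩, hw⟩
    · rintro ⟨a, ⟨l, ha, hl⟩, hw⟩
      refine ⟨_, ⟨l, hl, rfl⟩, ?_⟩
      rwa [← ha]
  · rintro a ⟨l, ha, n, hn, hk⟩ s hs _
    refine meets_of_mem ?_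
    have h1 : n < (a.1.st ((tw o α' : Jx κ μ) : WithTop (Jx κ μ))).length := by
      rw [ha, stc_st]; exact hn
    obtain ⟨h2, h3⟩ := st_mono hs ((tw o α' : Jx κ μ) : WithTop (Jx κ μ)) h1
    refine ⟨n, h2, ?_⟩
    rw [h3, ha, stc_st]
    exact hk

end Pool.Agent.T2h65.CP
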