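import Mathlib
import Pool.Agent.T2h65.CP.Stm

/-! Task DEC. -/

set_option autoImplicit false

namespace Pool.Agent.T2h65.CP

open Cardinal Pool.Agent.Helper669.GBase Pool.Agent.Helper669.Iter

theorem t_DEC : S_DEC := by
  intro hCOF κ μ o St hκ hunc Y hY E p
  have hν : max (#Y) ℵ₀ < κ := max_lt hY hunc
  have hcof : ∀ S : Set (Jx κ μ), #S ≤ max (#Y) ℵ₀ → ∃ b, ∀ s ∈ S, s < b := fun S hS => by
    obtain ⟨α, hα⟩ := hCOF κ μ o hκ S (hS.trans_lt hν)
    exact ⟨tw o α, hα⟩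
  obtain ⟨b, hb⟩ := exists_decBelow (le_max_right _ _) hcof (le_max_left _ _) E
  obtain ⟨b', hb'⟩ := exists_below (le_max_right _ _) hcof (A := ({p} : Set (PM St)))
    (by rw [mk_singleton]; exact one_le_aleph0.trans (le_max_right _ _))
  obtain ⟨α, hα⟩ := hCOF κ μ o hκ {b, b'} ((Set.Finite.lt_aleph0 (Set.toFinite _)).trans hunc)
  refine ⟨α, fun α' hα' => ?_⟩
  have h1 : tw (μ := μ) o α ≤ tw o α' := by
    rcases hα'.lt_or_eq with h | h
    · exact (Prod.Lex.lt_iff.2 (Or.inl h)).le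
    · rw [h]
  exact ⟨hb _ ((hα b (by simp)).le.trans h1), (hb' p rfl).mono
    (WithTop.coe_le_coe.2 ((hα b' (by simp)).le.trans h1))⟩

end Pool.Agent.T2h65.CP
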