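import Pool.Agent.T2h65.CP.Stm

/-! Task DST: `DSS` is preserved by ccc forcing. -/

set_option autoImplicit false

namespace Pool.Agent.T2h65.CP

open Cardinal Pool.Agent.Helper669.Forcing

namespace DST

theorem mem_meets_const {P : Type} [Preorder P] (h : Prop) (p : P) :
    p ∈ meets ({_p | h} : Set P) ↔ h := by
  constructor
  · intro hp
    obtain ⟨_, _, _, hs, _⟩ := hp p le_rfl
    exact hs
  · intro hh
    exact meets_of_mem hh

end DST

open DST in
theorem t_DST : S_DST := by
  intro hCLB hBDT hCFG hSTP P _ hcc hDSS p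
  obtain ⟨S, hS1, hS2, N, hN1, hN2⟩ := hDSS
  refine mem_fex_of_mem (fun α => ({_p | α ∈ S} : Set P))
    (down_fand (down_fall fun _ => down_fimp _ _)
      (down_fand (down_fall fun _ => down_fimp _ _) (down_fex _))) ⟨?_, ?_, ?_⟩
  · intro α
    refine mem_fimp.2 fun q _ hq2 => ⟨q, le_rfl, ?_⟩
    exact hCFG P N1 α (hS1 α ((DST.mem_meets_const _ _).1 hq2)) q
  · intro C
    refine mem_fimp.2 fun q _ hq2 => ⟨q, le_rfl, ?_⟩
    obtain ⟨D, hD, hDC⟩ := hCLB P hcc ⊤ hBDT.1 C q hq2
    obtain ⟨γ, hγS, hγD⟩ := hS2 D hD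
    exact mem_fex_of_mem γ (down_fand (down_meets _) (down_meets _))
      ⟨(DST.mem_meets_const _ _).2 hγS, hDC γ hγD⟩
  · refine mem_fex_of_mem (Set N2) (down_fex _) ?_
    refine mem_fex_of_mem (fun (y : Set N2) (γ : N2) => ({_p | γ ∈ y} : Set P)) (down_fex _) ?_
    refine mem_fex_of_mem (fun (α : N2) (y : Set N2) => ({_p | y ∈ N α} : Set P))
      (down_fand (down_fall fun _ => down_fimp _ _)
        (down_fall fun _ => down_fall fun _ => down_fall fun _ => down_fall fun _ =>
          down_fall fun _ => down_fimp _ _)) ⟨?_, ?_⟩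
    · intro α
      refine mem_fimp.2 fun q _ hq2 => ⟨q, le_rfl, ?_⟩
      exact hSTP P hcc α (N α) (hN1 α ((DST.mem_meets_const _ _).1 hq2)) q
    · intro α β hαβ y z
      refine mem_fimp.2 fun q _ hq2 => ⟨q, le_rfl, ?_⟩
      obtain ⟨⟨h1, h2⟩, h3, h4⟩ := hq2
      have h1' : α ∈ S := (DST.mem_meets_const _ _).1 h1
      have h2' : β ∈ S := (DST.mem_meets_const _ _).1 h2
      have h3' : y ∈ N α := (DST.mem_meets_const _ _).1 h3
      have h4' : z ∈ N β := (DST.mem_meets_const _ _).1 h4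
      intro r _ hsame
      apply hN2 α h1' β h2' hαβ y h3'
      have hyz : y = z := by
        ext γ
        have h5 := hsame γ
        constructor
        · intro hγ
          obtain ⟨s, _, hs⟩ := mem_fimp.1 h5.1 r le_rfl ((DST.mem_meets_const _ _).2 hγ)
          exact (DST.mem_meets_const _ _).1 hs
        · intro hγ
          obtain ⟨s, _, hs⟩ := mem_fimp.1 h5.2 r le_rfl ((DST.mem_meets_const _ _).2 hγ)
          exact (DST.mem_meets_const _ _).1 hs
      rw [hyz]
      exact h4'

end Pool.Agent.T2h65.CP
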