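import Pool.Agent.T2h65.CP.T_BDT

/-! Task INT: `t_INT` is in `T_BDT.lean` (helper1). -/
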