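import Mathlib
import Pool.Agent.T2h65.CP.Stm
import Pool.Agent.W873.Gmp.Final

/-!
# Branches of named trees, tools
-/

set_option autoImplicit false

namespace Pool.Agent.T2h65.CP

open Cardinal Pool.Agent.Helper669.Forcing Pool.Agent.W873.Gmp

theorem for'_elim {P : Type} [Preorder P] {φ ψ : Set P} {p : P} (h : p ∈ for' φ ψ) :
    ∃ q ≤ p, q ∈ φ ∨ q ∈ ψ := by
  by_contra hc
  push Not at hc
  exact h p le_rfl ⟨fun q hq hφ => (hc q hq).1 hφ, fun q hq hψ => (hc q hq).2 hψ⟩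

theorem down_SameOn {P : Type} [Preorder P] {X : Type} (x y : X → Set P) : Down (SameOn x y) :=
  down_fall fun _ => down_fand (down_fimp _ _) (down_fimp _ _)

/-- a strict upper bound of a countable family in `N1` -/
theorem bdd1 {ι : Type} [Countable ι] (f : ι → N1) : ∃ a : N1, ∀ i, f i < a := by
  by_contra hcon
  push Not at hcon
  have h1 : IsCofinal (Set.range f) := fun β => by
    obtain ⟨i, h⟩ := hcon β
    exact ⟨f i, ⟨i, rfl⟩, h⟩
  have h2 := Order.cof_le h1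
  rw [Ordinal.cof_toType, (isRegular_succ (le_refl ℵ₀)).cof_ord] at h2
  have h3 : #(Set.range f) ≤ ℵ₀ := (Set.countable_range f).le_aleph0
  exact absurd (h2.trans h3) (not_le.2 (Order.lt_succ _))

section

variable {P : Type} [Preorder P] {W : Type} {p0 : P} {R ℓ : N1 → N1 → Set P} {b : N1 → Set P}

theorem br_comp (h0 : p0 ∈ IsTree W R ℓ) (hb : p0 ∈ IsCofinalBranch R ℓ b) {p : P} (hp : p ≤ p0)
    {x y a c : N1} (hx : p ∈ meets (b x)) (hy : p ∈ meets (b y)) (ha : p ∈ meets (ℓ x a))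
    (hc : p ∈ meets (ℓ y c)) (hac : a < c) : p ∈ meets (R x y) := by
  refine Pool.Agent.W873.Gmp.meets_of_dense fun q hq => ?_
  obtain ⟨r, hr, h⟩ := mem_fimp.1 (hb.1 x y) q (hq.trans hp) ⟨meets_dn hx hq, meets_dn hy hq⟩
  obtain ⟨s, hs, h1 | h1⟩ := for'_elim h
  · exfalso
    have h2 : x = y := h1
    subst h2
    exact absurd (t_unique h0 hp ha hc) hac.ne
  · obtain ⟨s', hs', h2 | h2⟩ := for'_elim h1
    · exact ⟨s', hs'.trans (hs.trans hr), h2⟩
    · exfalso
      have hle : s' ≤ p := hs'.trans (hs.trans (hr.trans hq))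
      have := t_lt h0 (hle.trans hp) h2 (meets_dn hc hle) (meets_dn ha hle)
      exact absurd this (not_lt.2 hac.le)

theorem br_down (h0 : p0 ∈ IsTree W R ℓ) (hb : p0 ∈ IsCofinalBranch R ℓ b) {p : P} (hp : p ≤ p0)
    {x y a c : N1} (hxy : p ∈ meets (R x y)) (ha : p ∈ meets (ℓ x a))
    (hc : p ∈ meets (ℓ y c)) (hy : p ∈ meets (b y)) : p ∈ meets (b x) := by
  refine Pool.Agent.W873.Gmp.meets_of_dense fun q hq => ?_
  obtain ⟨s, hs, z, hz, hza⟩ := mem_fex.1 (hb.2 a) q (hq.trans hp)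
  have hle : s ≤ p := hs.trans hq
  have hac : a < c := t_lt h0 hp hxy ha hc
  have h1 : s ∈ meets (R z y) := br_comp h0 hb (hle.trans hp) hz (meets_dn hy hle) hza
    (meets_dn hc hle) hac
  have h2 : z = x := t_uniq h0 (hle.trans hp) h1 (meets_dn hxy hle) hza (meets_dn ha hle)
  exact ⟨s, hs, h2 ▸ hz⟩

end

end Pool.Agent.T2h65.CP
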