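import Mathlib
import Pool.Agent.T2h65.CP.KHB

/-! Task KH1. -/

set_option autoImplicit false

namespace Pool.Agent.T2h65.CP

open Cardinal Pool.Agent.Helper669.Forcing Pool.Agent.W873.Gmp

theorem t_KH1 : S_KH1 := by
  intro P _ D p0 R ℓ b hD h0 hb
  constructor
  · rintro u ⟨p, hpD, hp0, hpb, hpl⟩ u' ⟨p', hpD', hp0', hpb', hpl'⟩ huu
    obtain ⟨r, hrD, hrp, hrp'⟩ := hD p hpD p' hpD'
    exact ⟨r, hrD, hrp.trans hp0, br_comp h0 hb (hrp.trans hp0) (meets_dn hpb hrp)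
      (meets_dn hpb' hrp') (meets_dn hpl hrp) (meets_dn hpl' hrp') huu, meets_dn hpl hrp,
      meets_dn hpl' hrp'⟩
  · rintro u u' ⟨p, hpD, hp0, hpR, hpl, hpl'⟩ ⟨p', hpD', hp0', hpb', hpc'⟩
    obtain ⟨r, hrD, hrp, hrp'⟩ := hD p hpD p' hpD'
    exact ⟨r, hrD, hrp.trans hp0, br_down h0 hb (hrp.trans hp0) (meets_dn hpR hrp)
      (meets_dn hpl hrp) (meets_dn hpl' hrp) (meets_dn hpb' hrp'), meets_dn hpl hrp⟩

end Pool.Agent.T2h65.CP
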