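import Mathlib
import Pool.Agent.T2h65.CP.KHB

/-! Task KH3. -/

set_option autoImplicit false

namespace Pool.Agent.T2h65.CP

open Cardinal Pool.Agent.Helper669.Forcing Pool.Agent.W873.Gmp

theorem t_KH3 : S_KH3 := by
  intro P _ D hD p0 R ℓ b hb
  by_contra hcon
  push Not at hcon
  choose f hf using hcon
  have : Countable (Kt ℵ₀) := by
    rw [← Cardinal.mk_le_aleph0_iff, mk_ord_toType]
  obtain ⟨a, ha⟩ := bdd1 f
  obtain ⟨s, hs, x, hx, hxa⟩ := mem_fex.1 (hb.2 a) p0 le_rfl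
  obtain ⟨i, hi⟩ := hD s
  have h1 := hf i (a, x) ⟨s, hi, hs, hx, hxa⟩
  exact absurd (ha i) (not_lt.2 h1)

end Pool.Agent.T2h65.CP
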