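import Mathlib
import Pool.Agent.T2h65.CP.KHB

/-! Task KH4. -/

set_option autoImplicit false

namespace Pool.Agent.T2h65.CP

open Cardinal Pool.Agent.Helper669.Forcing Pool.Agent.W873.Gmp

theorem t_KH4 : S_KH4 := by
  intro _ P _ hCC D p0 R ℓ b b' hD h0 hb hb' hun hBi hne
  have hgood : ∀ a0 : N1, ∃ (r : P) (a y : N1), (r ≤ p0 ∧ r ∈ meets (b y) ∧ r ∈ meets (b' y) ∧
      r ∈ meets (ℓ y a)) ∧ a0 < a := by
    intro a0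
    obtain ⟨u, hu, ha⟩ := hun a0
    have hu' : u ∈ Bi D p0 ℓ b' := hBi ▸ hu
    obtain ⟨p, hpD, hp0, hpb, hpl⟩ := hu
    obtain ⟨p', hpD', _, hpb', _⟩ := hu'
    obtain ⟨r, _, hrp, hrp'⟩ := hD p hpD p' hpD'
    exact ⟨r, u.1, u.2, ⟨hrp.trans hp0, meets_dn hpb hrp, meets_dn hpb' hrp', meets_dn hpl hrp⟩,
      ha⟩
  have hq : ∃ q ≤ p0, ∀ q' ≤ q, ∀ a0 : N1, ∃ (r : P) (a y : N1), (r ≤ p0 ∧ r ∈ meets (b y) ∧
      r ∈ meets (b' y) ∧ r ∈ meets (ℓ y a)) ∧ a0 < a ∧ ∃ s ≤ r, s ≤ q' := by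
    by_contra hcon
    push Not at hcon
    obtain ⟨A, hAE, hAc, hA⟩ := hCC {q' | ∃ a0 : N1, ∀ (r : P) (a y : N1), (r ≤ p0 ∧
      r ∈ meets (b y) ∧ r ∈ meets (b' y) ∧ r ∈ meets (ℓ y a)) → a0 < a → ∀ s ≤ r, ¬ s ≤ q'}
    have : Countable A := hAc.to_subtype
    choose f hf using fun e : A => hAE e.2
    obtain ⟨a0, ha0⟩ := bdd1 f
    obtain ⟨r, a, y, hg, ha⟩ := hgood a0
    obtain ⟨q', hq', a1, h1⟩ := hcon r hg.1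
    obtain ⟨e, he, s, hse, hsq⟩ := hA q' ⟨a1, h1⟩
    exact hf ⟨e, he⟩ r a y hg ((ha0 ⟨e, he⟩).trans ha) s (hsq.trans hq') hse
  obtain ⟨q, hq0, hq⟩ := hq
  refine hne q hq0 fun x => ⟨?_, ?_⟩
  · refine mem_fimp.2 fun q' hq' hx => ?_
    obtain ⟨q2, hq2, c, hc⟩ := t_total h0 (hq'.trans hq0) x
    obtain ⟨r, a, y, ⟨hr0, hrb, hrb', hrl⟩, hca, s, hsr, hsq⟩ := hq q2 (hq2.trans hq') c
    have hs0 : s ≤ p0 := hsr.trans hr0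
    have h1 := br_comp h0 hb hs0 (meets_dn hx (hsq.trans hq2)) (meets_dn hrb hsr)
      (meets_dn hc hsq) (meets_dn hrl hsr) hca
    exact ⟨s, hsq.trans hq2, br_down h0 hb' hs0 h1 (meets_dn hc hsq) (meets_dn hrl hsr)
      (meets_dn hrb' hsr)⟩
  · refine mem_fimp.2 fun q' hq' hx => ?_
    obtain ⟨q2, hq2, c, hc⟩ := t_total h0 (hq'.trans hq0) x
    obtain ⟨r, a, y, ⟨hr0, hrb, hrb', hrl⟩, hca, s, hsr, hsq⟩ := hq q2 (hq2.trans hq') c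
    have hs0 : s ≤ p0 := hsr.trans hr0
    have h1 := br_comp h0 hb' hs0 (meets_dn hx (hsq.trans hq2)) (meets_dn hrb' hsr)
      (meets_dn hc hsq) (meets_dn hrl hsr) hca
    exact ⟨s, hsq.trans hq2, br_down h0 hb hs0 h1 (meets_dn hc hsq) (meets_dn hrl hsr)
      (meets_dn hrb hsr)⟩

end Pool.Agent.T2h65.CP
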