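import Mathlib
import Pool.Agent.T2h65.CP.Stm

/-!
# The use of the guessing model (helper38)
-/

set_option autoImplicit false
set_option linter.all false

namespace Pool.Agent.T2h65.CP

open Cardinal Pool.Agent.Helper669.Iter Pool.Agent.Helper669.Forcing
  Pool.Agent.Helper669.GBase Pool.Agent.W873.Gmp

namespace KHM

theorem mk_N1 : #N1 = Order.succ (ℵ₀ : Cardinal.{0}) := by simp

theorem mk_N2 : #N2 = Order.succ (Order.succ (ℵ₀ : Cardinal.{0})) := by simp

theorem countable_Iic (t : N1) : (Set.Iic t).Countable := by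
  have h1 : (Set.Iio t).Countable := by
    rw [← Cardinal.le_aleph0_iff_set_countable]
    exact Order.lt_succ_iff.1 (Cardinal.mk_Iio_toType_ord_lt t)
  have h2 : Set.Iic t = insert t (Set.Iio t) := (Set.Iio_insert (a := t)).symm
  rw [h2]
  exact h1.insert t

theorem bdd_countable (S : Set N1) (hS : S.Countable) : ∃ b : N1, ∀ t ∈ S, t < b := by
  by_contra hcon
  push Not at hcon
  have h1 : (Set.univ : Set N1) ⊆ ⋃ t ∈ S, Set.Iic t := by
    intro b _
    obtain ⟨t, ht, hbt⟩ := hcon b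
    exact Set.mem_biUnion ht hbt
  have h2 : (Set.univ : Set N1).Countable :=
    (hS.biUnion fun t _ => countable_Iic t).mono h1
  have h3 : #N1 ≤ ℵ₀ := Cardinal.mk_le_aleph0_iff.2 (Set.countable_univ_iff.1 h2)
  rw [mk_N1] at h3
  exact absurd h3 (not_le.2 (Order.lt_succ _))

end KHM

open KHM

theorem t_KHM : S_KHM := by
  classical
  intro hG lt B i h1 h2 h3 h4
  have hs1 : ℵ₀ ≤ Order.succ (ℵ₀ : Cardinal.{0}) := Order.le_succ _
  obtain ⟨c, hc⟩ : ∃ c : N1 × N1 → N2, Function.Injective c := by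
    have e1 : #(N1 × N1) ≤ #N2 := by
      have e0 : #(N1 × N1) = #N1 * #N1 := by
        rw [Cardinal.mk_prod]
        simp only [Cardinal.lift_id]
      rw [e0, mk_N1, mk_N2, Cardinal.mul_eq_self hs1]
      exact Order.le_succ _
    obtain ⟨e⟩ := e1
    exact ⟨e, e.injective⟩
  have hne : Nonempty N2 := by
    rw [← Cardinal.mk_ne_zero_iff, mk_N2]
    exact (Cardinal.aleph0_pos.trans_le (hs1.trans (Order.le_succ _))).ne'
  obtain ⟨x0⟩ := hne
  have hKt : Nonempty (Kt ℵ₀) := ⟨i x0⟩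
  obtain ⟨k0⟩ := hKt
  let q0 : Qt ℵ₀ := ⟨k0, fun _ => ∅⟩
  let F : Fns ℵ₀ ((N1 × N1) ⊕ Kt ℵ₀ ⊕ Unit) :=
    { LL := fun j x => Sum.elim (fun u => c u) (fun _ => x) j
      PL := fun j s => Sum.elim (fun _ => x0) (Sum.elim (fun j' : Kt ℵ₀ =>
        if h : ∃ ξ, i ξ = j' ∧ c '' B ξ = s then h.choose else x0) fun _ => x0) j
      PLP := fun j s z => Sum.elim (fun _ => s) (Sum.elim (fun j' : Kt ℵ₀ =>
        {w | w ∈ s ∧ ∃ u u', w = c u ∧ z = c u' ∧ lt j' u u'}) fun _ => s ∩ Set.range c) j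
      XQ := fun _ _ => q0
      XLL := fun _ _ x => x0 }
  have hJ : #((N1 × N1) ⊕ Kt ℵ₀ ⊕ Unit) ≤ Order.succ (ℵ₀ : Cardinal.{0}) := by
    rw [Cardinal.mk_sum, Cardinal.mk_sum]
    simp only [Cardinal.lift_id]
    refine Cardinal.add_le_of_le hs1 ?_ (Cardinal.add_le_of_le hs1 ?_ ?_)
    · have e0 : #(N1 × N1) = #N1 * #N1 := by
        rw [Cardinal.mk_prod]
        simp only [Cardinal.lift_id]
      rw [e0, mk_N1, Cardinal.mul_eq_self hs1]
    · have e2 : #(Kt ℵ₀) = ℵ₀ := by simp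
      rw [e2]
      exact hs1
    · exact (Cardinal.mk_le_aleph0 (α := Unit)).trans hs1
  obtain ⟨m, hm⟩ := exists_model le_rfl hG hJ F
  obtain ⟨x1, hx1⟩ := m.nonempty
  have hcL : ∀ u, c u ∈ m.mL := fun u => hm.LL (Sum.inl u) x1 hx1
  obtain ⟨ξ, hξ⟩ : ∃ ξ : N2, ξ ∉ m.mL := by
    by_contra hcon
    push Not at hcon
    have e1 : m.mL = Set.univ := Set.eq_univ_of_forall hcon
    have e2 := m.small
    rw [e1, Cardinal.mk_univ] at e2
    have e3 : #N2 ≤ Order.succ (ℵ₀ : Cardinal.{0}) := e2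
    rw [mk_N2] at e3
    exact absurd e3 (not_le.2 (Order.lt_succ _))
  obtain ⟨d, hd⟩ : ∃ d : Set N2, d = c '' B ξ := ⟨_, rfl⟩
  obtain ⟨e, he, hed⟩ := m.guess d (by
    intro a ha hac
    have hcnt : ((fun u : N1 × N1 => u.1) '' (c ⁻¹' a)).Countable := by
      have : (c ⁻¹' a).Countable := (Cardinal.le_aleph0_iff_set_countable.1 hac).preimage hc
      exact this.image _
    obtain ⟨b, hb⟩ := bdd_countable _ hcnt
    obtain ⟨u', hu', hbu⟩ := h3 ξ b
    have key : d ∩ a = {w | w ∈ a ∧ ∃ u u'', w = c u ∧ c u' = c u'' ∧ lt (i ξ) u u''} := by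
      ext w
      constructor
      · rintro ⟨hw, hwa⟩
        rw [hd] at hw
        obtain ⟨u, hu, rfl⟩ := hw
        refine ⟨hwa, u, u', rfl, rfl, h1 ξ u hu u' hu' ?_⟩
        exact (hb u.1 ⟨u, hwa, rfl⟩).trans hbu
      · rintro ⟨hwa, u, u'', rfl, hcc, hlt⟩
        have := hc hcc
        subst this
        refine ⟨?_, hwa⟩
        rw [hd]
        exact ⟨u, h2 ξ u u' hlt hu', rfl⟩
    have := hm.PLP (Sum.inr (Sum.inl (i ξ))) a ha (c u') (hcL u')
    rw [key]
    exact this)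
  have hdP : d ∈ m.mP := by
    have e1 := hm.PLP (Sum.inr (Sum.inr ())) e he x1 hx1
    have e2 : e ∩ Set.range c = d := by
      ext w
      constructor
      · rintro ⟨hw, u, rfl⟩
        exact (hed _ (hcL u)).1 hw
      · intro hw
        have hw' := hw
        rw [hd] at hw'
        obtain ⟨u, _, rfl⟩ := hw'
        exact ⟨(hed _ (hcL u)).2 hw, u, rfl⟩
    rw [← e2]
    exact e1
  have hPL := hm.PL (Sum.inr (Sum.inl (i ξ))) d hdP
  have hex : ∃ ξ', i ξ' = i ξ ∧ c '' B ξ' = d := ⟨ξ, rfl, hd.symm⟩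
  have hval : F.PL (Sum.inr (Sum.inl (i ξ))) d = hex.choose := dif_pos hex
  rw [hval] at hPL
  obtain ⟨e3, e4⟩ := hex.choose_spec
  have e4' : c '' B hex.choose = c '' B ξ := e4.trans hd
  have e5 := hc.image_injective e4'
  have e6 := h4 _ _ e3 e5
  rw [e6] at hPL
  exact hξ hPL

end Pool.Agent.T2h65.CP
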