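import Mathlib
import Pool.Agent.T2h65.CP.KHB

/-! Task KHT. -/

set_option autoImplicit false

namespace Pool.Agent.T2h65.CP

open Cardinal Pool.Agent.Helper669.Forcing Pool.Agent.W873.Gmp

theorem down_IsTree {P : Type} [Preorder P] {W : Type} (R ℓ : N1 → N1 → Set P) :
    Down (IsTree W R ℓ) :=
  down_fand (down_IsFun _)
    (down_fand (down_fall fun _ => down_fall fun _ => down_fall fun _ => down_fall fun _ =>
      down_fimp _ _)
    (down_fand (down_fall fun _ => down_fall fun _ => down_fall fun _ => down_fimp _ _)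
    (down_fand (down_fall fun _ => down_fall fun _ => down_fall fun _ => down_fall fun _ =>
      down_fimp _ _)
    (down_fand (down_fall fun _ => down_fall fun _ => down_fall fun _ => down_fall fun _ =>
      down_fimp _ _)
    (down_fand (down_fall fun _ => down_fex _) (down_fall fun _ => down_fex _))))))

theorem t_KHT : S_KHT := by
  intro hCCC hKH1 hKH3 hKH4 hKHM hG P _ hP p R ℓ
  refine mem_fimp.2 fun q _ hq => ⟨q, le_rfl, ?_⟩
  intro r hr hrex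
  obtain ⟨p0, hp0, b, hb, hdist⟩ := mem_fex.1 hrex r le_rfl
  have h0 : p0 ∈ IsTree N1 R ℓ := down_IsTree R ℓ q hq p0 (hp0.trans hr)
  have hCC := hCCC P hP
  obtain ⟨D, hD1, hD2⟩ := hP
  choose i hi using fun ξ => hKH3 P D hD1 p0 R ℓ (b ξ) (hb ξ)
  refine hKHM hG (fun j => lti (D j) p0 R ℓ) (fun ξ => Bi (D (i ξ)) p0 ℓ (b ξ)) i
    (fun ξ => (hKH1 P (D (i ξ)) p0 R ℓ (b ξ) (hD2 (i ξ)) h0 (hb ξ)).1)
    (fun ξ => (hKH1 P (D (i ξ)) p0 R ℓ (b ξ) (hD2 (i ξ)) h0 (hb ξ)).2) hi ?_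
  intro ξ η hij hB
  by_contra hne
  refine hKH4 hKH1 P hCC (D (i ξ)) p0 R ℓ (b ξ) (b η) (hD2 (i ξ)) h0 (hb ξ) (hb η) (hi ξ) ?_
    (hdist ξ η hne)
  have h1 : Bi (D (i ξ)) p0 ℓ (b ξ) = Bi (D (i η)) p0 ℓ (b η) := hB
  rw [h1, hij]

end Pool.Agent.T2h65.CP
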