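import Mathlib
import Pool.Agent.T2h65.CP.Stm

/-!
# Task STR: an earlier generic set is not almost contained in a later one
-/

set_option autoImplicit false

namespace Pool.Agent.T2h65.CP

open Cardinal Pool.Agent.Helper669.Iter Pool.Agent.Helper669.Forcing
  Pool.Agent.Helper669.GBase Pool.Agent.W873.Gmp

namespace STR

variable {J : Type} [LinearOrder J] [WellFoundedLT J] {St : Strat (WithTop J)}

open Classical in
/-- the condition with the stem `l` at `η` and nothing else -/
noncomputable def stemC (St : Strat (WithTop J)) (η : J) (l : List ℕ) : PM St :=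
  ⟨{ st := fun ζ => if ζ = (η : WithTop J) then l else []
     pr := fun _ => ∅
     fin := by
      refine (Set.finite_singleton (η : WithTop J)).subset fun ζ hζ => ?_
      by_contra h
      have h' : ζ ≠ (η : WithTop J) := h
      simp [h'] at hζ },
    fun _ R hR => absurd hR (Finset.notMem_empty R), fun ζ hζ => by
      have h : ζ ≠ (η : WithTop J) := ((WithTop.coe_lt_top η).trans_le hζ).ne'
      simp [h]⟩

theorem stemC_st_self (η : J) (l : List ℕ) : (stemC St η l).1.st (η : WithTop J) = l := by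
  simp [stemC]

theorem stemC_st_ne {η : J} (l : List ℕ) {ζ : WithTop J} (h : ζ ≠ (η : WithTop J)) :
    (stemC St η l).1.st ζ = [] := by
  simp [stemC, h]

theorem stemC_pr (η : J) (l : List ℕ) (ζ : WithTop J) : (stemC St η l).1.pr ζ = ∅ := rfl

theorem below_stemC {η ξ : J} (h : η < ξ) (l : List ℕ) :
    Below (stemC St η l).1 (ξ : WithTop J) := fun ζ hζ =>
  ⟨stemC_st_ne l ((WithTop.coe_lt_coe.2 h).trans_le hζ).ne', rfl⟩

theorem le_stemC {η : J} {l : List ℕ} {p : PM St} (h : l <+: p.1.st (η : WithTop J)) :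
    p ≤ stemC St η l := by
  show p.1 ≤ (stemC St η l).1
  intro ζ
  refine ⟨?_, Finset.empty_subset _, fun R hR => absurd hR (Finset.notMem_empty R)⟩
  by_cases hζ : ζ = (η : WithTop J)
  · subst hζ
    rw [stemC_st_self]
    exact h
  · rw [stemC_st_ne l hζ]
    exact List.nil_prefix

theorem exists_long (η : J) (n : ℕ) (p : PM St) : ∃ r ≤ p, n ≤ (r.1.st (η : WithTop J)).length := by
  induction n with
  | zero => exact ⟨p, le_rfl, Nat.zero_le _⟩
  | succ n ih =>
    obtain ⟨r, hr, h⟩ := ih
    obtain ⟨m, _, r', h1, h2⟩ := push_pair r η 0 0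
    refine ⟨r', h1.trans hr, ?_⟩
    rw [h2]
    simp
    omega

theorem decBelow_Ch {η ξ : J} (h : η < ξ) : DecBelow (Ch St η) ξ := by
  intro k
  refine ⟨(stemC St η) '' {l | l.length = k + 1}, (Set.to_countable _).image _, ?_, ?_, ?_⟩
  · rintro _ ⟨l, _, rfl⟩
    exact below_stemC h l
  · rintro _ ⟨l, hl, rfl⟩
    have hlen : k < ((stemC St η l).1.st (η : WithTop J)).length := by
      rw [stemC_st_self]
      have : l.length = k + 1 := hl
      omega
    by_cases h1 : (Nat.unpair (((stemC St η l).1.st (η : WithTop J)).getD k 0)).2 = 1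
    · exact Or.inl (meets_of_mem ⟨hlen, h1⟩)
    · exact Or.inr (not_Ch h1 hlen rfl)
  · intro p
    obtain ⟨r, hr, h1⟩ := exists_long η (k + 1) p
    refine ⟨stemC St η ((r.1.st (η : WithTop J)).take (k + 1)), ⟨_, ?_, rfl⟩, r, ?_, hr⟩
    · show ((r.1.st (η : WithTop J)).take (k + 1)).length = k + 1
      rw [List.length_take]
      omega
    · exact le_stemC (List.take_prefix _ _)

/-- the Cohen set splits the generic set of the same coordinate -/
theorem exists_hit (η : J) (N i : ℕ) (q : PM St) : ∃ k ≥ N, ∃ r ≤ q, r ∈ meets (Mm St η k) ∧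
    k < (r.1.st (η : WithTop J)).length ∧
      (Nat.unpair ((r.1.st (η : WithTop J)).getD k 0)).2 = i := by
  obtain ⟨k, hk, r', hr', hst⟩ := push_pair q η (max N ((q.1.st (η : WithTop J)).length + 1)) 0
  have hk1 : (q.1.st (η : WithTop J)).length + 1 ≤ k := (le_max_right _ _).trans hk
  have hlen : (r'.1.st (η : WithTop J)).length = (q.1.st (η : WithTop J)).length + 1 := by
    rw [hst]; simp
  obtain ⟨r, hr, h1, h2⟩ := push_to η k i (k - (r'.1.st (η : WithTop J)).length) r' (by omega)
  refine ⟨k, (le_max_left _ _).trans hk, r, hr.trans hr', ?_, h1, h2⟩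
  refine down_meets _ r' (meets_of_mem (N := Mm St η k)
    ⟨(q.1.st (η : WithTop J)).length, ?_, ?_⟩) r hr
  · rw [hlen]; omega
  · rw [hst, List.getD_append_right _ _ _ _ le_rfl]; simp

end STR

open STR in
theorem t_STR : S_STR := by
  intro J _ _ St η ξ hηξ p q _ hq
  obtain ⟨q', hq', N, h⟩ := unsplit (decBelow_Ch (St := St) hηξ) q
  obtain ⟨r0, hr0, M, hM⟩ := mem_fex.1 hq q' hq'
  rcases h with h | h
  · obtain ⟨k, hk, r, hr, h1, h2, h3⟩ := exists_hit η (max N M) 1 r0
    obtain ⟨s, hs, hs'⟩ := mem_fimp.1 (hM k ((le_max_right _ _).trans hk)) r hr h1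
    exact h k ((le_max_left _ _).trans hk) s (hs.trans (hr.trans hr0)) hs'
      (down_meets _ r (meets_of_mem (N := Ch St η k) ⟨h2, h3⟩) s hs)
  · obtain ⟨k, hk, r, hr, h1, h2, h3⟩ := exists_hit η (max N M) 0 r0
    obtain ⟨s, hs, hs'⟩ := mem_fimp.1 (hM k ((le_max_right _ _).trans hk)) r hr h1
    exact h k ((le_max_left _ _).trans hk) s (hs.trans (hr.trans hr0)) hs'
      (down_fnot _ r (not_Ch (by norm_num) h2 h3) s hs)

end Pool.Agent.T2h65.CP
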