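import Mathlib
import Pool.Agent.T2h65.CP.T_STR

/-!
# Task NPI: the tower has no infinite pseudo-intersection
-/

set_option autoImplicit false

namespace Pool.Agent.T2h65.CP

open Cardinal Pool.Agent.Helper669.Iter Pool.Agent.Helper669.Forcing
  Pool.Agent.Helper669.GBase Pool.Agent.W873.Gmp

theorem t_NPI : S_NPI := by
  intro hCOF hDEC κ μ o St hκ hunc p q _ hq
  obtain ⟨r, hr, x, hinf, hx⟩ := mem_fex.1 hq q le_rfl
  obtain ⟨α, hα⟩ := hDEC hCOF κ μ o St hκ hunc Unit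
    (lt_of_le_of_lt (by simp) (one_lt_aleph0.trans hunc)) (fun _ => x) r
  obtain ⟨hdec, _⟩ := hα α le_rfl
  have hdecx : DecBelow x (tw o α) := hdec ()
  obtain ⟨α₁, hα₁⟩ := hCOF κ μ o hκ {tw o α}
    (lt_of_le_of_lt (by simp) (one_lt_aleph0.trans hunc))
  have hlt : tw o α < tw o α₁ := hα₁ _ rfl
  obtain ⟨q', hq', N, h⟩ := unsplit (STR.decBelow_Ch (St := St) hlt) r
  obtain ⟨r0, hr0, M, hM⟩ := mem_fex.1 (hx α₁) q' hq'
  have hinf0 : r0 ∈ Pool.Agent.Helper669.MMain.InfSet x :=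
    Pool.Agent.Helper669.MMain.down_InfSet x r hinf r0 (hr0.trans hq')
  rcases h with h | h
  · obtain ⟨k, hk, t, ht, h1, h2, h3⟩ := cohen_hits hdecx hinf0 (max N M) 1
    obtain ⟨s, hs, hs'⟩ := mem_fimp.1 (hM k ((le_max_right _ _).trans hk)) t ht h1
    exact h k ((le_max_left _ _).trans hk) s (hs.trans (ht.trans hr0)) hs'
      (down_meets _ t (meets_of_mem (N := Ch St (tw o α) k) ⟨h2, h3⟩) s hs)
  · obtain ⟨k, hk, t, ht, h1, h2, h3⟩ := cohen_hits hdecx hinf0 (max N M) 0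
    obtain ⟨s, hs, hs'⟩ := mem_fimp.1 (hM k ((le_max_right _ _).trans hk)) t ht h1
    exact h k ((le_max_left _ _).trans hk) s (hs.trans (ht.trans hr0)) hs'
      (down_fnot _ t (not_Ch (by norm_num) h2 h3) s hs)

end Pool.Agent.T2h65.CP
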