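import Mathlib
import Pool.Agent.T2h65.CP.Bas

set_option autoImplicit false

namespace Pool.Agent.T2h65.CP

open Cardinal Pool.Agent.Helper669.Iter Pool.Agent.Helper669.Forcing
  Pool.Agent.Helper669.GBase Pool.Agent.W873.Gmp
open Pool.Agent.Helper669.MMain (addG addG_pr addG_le addG_mem exists_stem_bound)

theorem tw_lt {κ μ : Cardinal.{0}} (o : μ.ord.ToType) {α' α : κ.ord.ToType} (h : α' < α) :
    ((tw o α' : Jx κ μ) : WithTop (Jx κ μ)) < ((tw o α : Jx κ μ) : WithTop (Jx κ μ)) :=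
  WithTop.coe_lt_coe.2 (Prod.Lex.toLex_lt_toLex.2 (Or.inl h))

theorem Stg_tw {κ μ : Cardinal.{0}} (o : μ.ord.ToType)
    (bk : Set (ℕ → Set (Om (WithTop (Jx κ μ)))) → μ.ord.ToType →
      Set (ℕ → Set (Om (WithTop (Jx κ μ))))) (α : κ.ord.ToType)
    (RR : WithTop (Jx κ μ) → Set (Pr (WithTop (Jx κ μ)))) :
    Stg κ μ o bk ((tw o α : Jx κ μ) : WithTop (Jx κ μ)) RR =
      {X | ∃ α' < α, X = MmS ((tw o α' : Jx κ μ) : WithTop (Jx κ μ))} := by
  ext X
  constructor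
  · rintro ⟨α₁, β, h1, h2⟩
    have h3 : (α, o) = (α₁, β) := toLex.injective (WithTop.coe_injective h1)
    obtain ⟨rfl, rfl⟩ := Prod.mk.inj h3
    rcases h2 with ⟨_, h⟩ | ⟨h, _⟩
    · exact h
    · exact absurd rfl h
  · intro h
    exact ⟨α, o, rfl, Or.inl ⟨rfl, h⟩⟩

theorem Stg_bk {κ μ : Cardinal.{0}} (o : μ.ord.ToType)
    (bk : Set (ℕ → Set (Om (WithTop (Jx κ μ)))) → μ.ord.ToType →
      Set (ℕ → Set (Om (WithTop (Jx κ μ))))) (α : κ.ord.ToType) {β : μ.ord.ToType} (hβ : β ≠ o)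
    (RR : WithTop (Jx κ μ) → Set (Pr (WithTop (Jx κ μ)))) :
    Stg κ μ o bk ((toLex (α, β) : Jx κ μ) : WithTop (Jx κ μ)) RR =
      bk (Nm (Vd RR ((tw o α : Jx κ μ) : WithTop (Jx κ μ)))
        ((tw o α : Jx κ μ) : WithTop (Jx κ μ))) β := by
  ext X
  constructor
  · rintro ⟨α₁, β₁, h1, h2⟩
    have h3 : (α, β) = (α₁, β₁) := toLex.injective (WithTop.coe_injective h1)
    obtain ⟨rfl, rfl⟩ := Prod.mk.inj h3
    rcases h2 with ⟨h, _⟩ | ⟨_, h⟩
    · exact absurd h hβ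
    · exact h
  · intro h
    exact ⟨α, β, rfl, Or.inr ⟨hβ, h⟩⟩

theorem t_TWF : S_TWF := by
  classical
  intro κ μ o bk α' α
  revert α'
  induction α using WellFoundedLT.induction with
  | ind α IH =>
  intro α' hα'
  set St := Stg κ μ o bk with hSt
  set ξ : WithTop (Jx κ μ) := ((tw o α : Jx κ μ) : WithTop (Jx κ μ)) with hξ
  have hfam : St ξ (cut (MR St) ξ) =
      {X | ∃ α' < α, X = MmS ((tw o α' : Jx κ μ) : WithTop (Jx κ μ))} := Stg_tw o bk α _
  have hsub : St ξ (cut (MR St) ξ) ⊆ Nm (Vd (MR St) ξ) ξ := by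
    rw [hfam]
    rintro _ ⟨γ, hγ, rfl⟩
    exact MmS_mem_Nm (tw_lt o hγ)
  have hmem : MmS ((tw o α' : Jx κ μ) : WithTop (Jx κ μ)) ∈ St ξ (cut (MR St) ξ) := by
    rw [hfam]
    exact ⟨α', hα', rfl⟩
  refine sub_Uf _ _ hsub ?_ hmem
  intro F hF q hq N
  have hF' : ∀ X : ℕ → Set (Om (WithTop (Jx κ μ))), ∃ γ : κ.ord.ToType, X ∈ F → γ < α ∧
      X = MmS ((tw o γ : Jx κ μ) : WithTop (Jx κ μ)) := by
    intro X
    by_cases hX : X ∈ F
    · have := hF X hX
      rw [hfam] at this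
      obtain ⟨γ, h1, h2⟩ := this
      exact ⟨γ, fun _ => ⟨h1, h2⟩⟩
    · exact ⟨α, fun h => absurd h hX⟩
  choose g hg using hF'
  by_cases hne : F.Nonempty
  · obtain ⟨γ, hγG, hmax⟩ : ∃ γ ∈ F.image g, ∀ δ ∈ F.image g, δ ≤ γ :=
      ⟨(F.image g).max' (hne.image g), Finset.max'_mem _ _, fun δ hδ => Finset.le_max' _ δ hδ⟩
    obtain ⟨X₀, hX₀, hX₀γ⟩ := Finset.mem_image.1 hγG
    have hγα : γ < α := hX₀γ ▸ (hg X₀ hX₀).1
    set η : WithTop (Jx κ μ) := ((tw o γ : Jx κ μ) : WithTop (Jx κ μ)) with hη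
    have hηξ : η < ξ := tw_lt o hγα
    let Gs : Finset (Pr (WithTop (Jx κ μ))) := (F.filter fun X => g X < γ).image pm
    have hGs : ∀ R ∈ Gs, R ∈ MR St η := by
      intro R hR
      obtain ⟨X, hX, rfl⟩ := Finset.mem_image.1 hR
      obtain ⟨hXF, hlt⟩ := Finset.mem_filter.1 hX
      rw [(hg X hXF).2]
      exact mem_MR (IH γ hγα (g X) hlt)
    have hq1 : addG q η Gs ∈ Vd (MR St) ξ := addG_mem hq hηξ hGs
    obtain ⟨q2, hq2, hle2, k, hk, h2⟩ := amal_MR η ((addG q η Gs).pr η) (hq1.1 η) N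
      (res (addG q η Gs) η) (res_mem hq1.1 η)
    refine ⟨push (glue q2 (addG q η Gs) η) η (Nat.pair k 0),
      push_mem (glue_mem hq2 hq1 hηξ.le) hηξ _, ?_, k, hk, ?_⟩
    · refine le_trans (push_le fun R hR => ?_) ((glue_le hle2).trans (addG_le q η Gs))
      rw [glue_pr_ge le_rfl] at hR
      rw [glue_st_ge le_rfl, bs_glue le_rfl]
      exact h2 R hR _ 0
    · intro X hX
      rcases (hmax (g X) (Finset.mem_image_of_mem g hX)).lt_or_eq with hlt | heq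
      · have hR : pm X ∈ (addG q η Gs).pr η :=
          addG_pr (Finset.mem_image_of_mem pm (Finset.mem_filter.2 ⟨hX, hlt⟩))
        have h3 := h2 (pm X) hR 0 0
        have h4 : bs q2 η ⊆ X k := by simpa [pm] using h3
        refine (bs_anti _ hηξ.le).trans ?_
        rw [bs_push _ _ le_rfl, bs_glue le_rfl]
        exact h4
      · rw [(hg X hX).2, heq]
        intro w hw
        have h3 := (hw η hηξ).1 ((glue q2 (addG q η Gs) η).st η).length (by
          rw [push_st_self]; simp)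
        refine ⟨((glue q2 (addG q η Gs) η).st η).length, ?_⟩
        show (Nat.unpair (w η _)).1 = k
        rw [h3, push_st_self, List.getD_append_right _ _ _ _ le_rfl]
        simp
  · rw [Finset.not_nonempty_iff_eq_empty] at hne
    exact ⟨q, hq, le_rfl, N, le_rfl, fun X hX => by rw [hne] at hX; exact absurd hX (by simp)⟩

end Pool.Agent.T2h65.CP
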