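import Mathlib
import Pool.Agent.T2h65.CP.T_TWF

set_option autoImplicit false

namespace Pool.Agent.T2h65.CP

open Cardinal Pool.Agent.Helper669.Iter Pool.Agent.Helper669.Forcing
  Pool.Agent.Helper669.GBase Pool.Agent.W873.Gmp
open Pool.Agent.Helper669.MMain (addG addG_pr addG_le addG_mem exists_stem_bound)

theorem mk_Jx_le {κ μ : Cardinal.{0}} (h : κ ≤ μ) (hμ : ℵ₀ ≤ μ) : #(Jx κ μ) ≤ μ := by
  have h1 : #(Jx κ μ) = #(κ.ord.ToType × μ.ord.ToType) := rfl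
  rw [h1, mk_prod, Cardinal.lift_id, Cardinal.lift_id, mk_ord_toType, mk_ord_toType]
  exact (mul_le_mul' h le_rfl).trans (mul_eq_self hμ).le

theorem t_PSI : S_PSI := by
  classical
  intro hCOF hDEC hALM hCNT κ μ o bk H
  have hμinf : ℵ₀ ≤ μ := H.unc.le.trans H.le
  have hμpow : μ ^ (ℵ₀ : Cardinal.{0}) = μ :=
    le_antisymm (H.pow ℵ₀ H.unc) (self_le_power μ one_le_aleph0)
  set St := Stg κ μ o bk with hSt
  intro Y E p hY hfip
  obtain ⟨α, hα⟩ := hDEC hCOF κ μ o St H.reg H.unc Y hY E p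
  obtain ⟨hdec, hpb⟩ := hα α le_rfl
  clear hα
  set η : WithTop (Jx κ μ) := ((tw o α : Jx κ μ) : WithTop (Jx κ μ)) with hη
  have hdec' : ∀ (y : Y) (k : ℕ), ∃ A : Set (PM St), A.Countable ∧ (∀ a ∈ A, Below a.1 η) ∧
    (∀ a ∈ A, a ∈ meets (E y k) ∨ a ∈ fnot (meets (E y k))) ∧ ∀ p, ∃ a ∈ A, Compat a p := hdec
  choose A hA0 hA1 hA2 hA3 using hdec'
  -- the conditions incompatible with `p`
  let D' : Set (Rep (WithTop (Jx κ μ))) :=
    {b | b ∈ Vd (MR St) η ∧ ∀ s : PM St, s.1 ≤ b → ¬ s ≤ p}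
  obtain ⟨B, hBD, hBc, hBp⟩ := exists_predense_Vd (RR := MR St) η D' (fun b hb => hb.1) (by
    rintro a ⟨_, ha⟩ b hb hba
    exact ⟨hb, fun s hs => ha s (hs.trans hba)⟩)
  let X : Y → ℕ → Set (Om (WithTop (Jx κ μ))) := fun i k =>
    (⋃ a ∈ {a : PM St | a ∈ A i k ∧ a ∈ meets (E i k)}, bs a.1 η) ∪ ⋃ b ∈ B, bs b η
  have hXrep : ∀ i k, X i k = ⋃ a ∈ (Subtype.val '' {a : PM St | a ∈ A i k ∧
      a ∈ meets (E i k)} ∪ B), bs a η := by
    intro i k
    rw [Set.biUnion_union, Set.biUnion_image]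
    rfl
  have hXsub : ∀ i k, (Subtype.val '' {a : PM St | a ∈ A i k ∧ a ∈ meets (E i k)} ∪ B) ⊆
      Vd (MR St) η := by
    intro i k
    refine Set.union_subset ?_ fun b hb => (hBD hb).1
    rintro _ ⟨a, ha, rfl⟩
    exact ⟨a.2.1, hA1 i k a ha.1⟩
  have hXc : ∀ i k, (Subtype.val '' {a : PM St | a ∈ A i k ∧ a ∈ meets (E i k)} ∪ B).Countable :=
    fun i k => (((hA0 i k).mono fun a ha => ha.1).image _).union hBc
  have hXNm : ∀ i, X i ∈ Nm (Vd (MR St) η) η := fun i k =>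
    ⟨_, hXsub i k, hXc i k, hXrep i k⟩
  -- the stage
  obtain ⟨β, hβ, hbk⟩ := H.book _ ((hCNT (Jx κ μ) St μ hμinf (mk_Jx_le H.le hμinf) hμpow).1 η)
    (Set.range X) (by rintro _ ⟨i, rfl⟩; exact hXNm i) (mk_range_le.trans_lt hY)
  set ξJ : Jx κ μ := toLex (α, β) with hξJ
  set ξ : WithTop (Jx κ μ) := (ξJ : WithTop (Jx κ μ)) with hξ
  have hηξ : η < ξ := WithTop.coe_lt_coe.2 (Prod.Lex.toLex_lt_toLex.2
    (Or.inr ⟨rfl, lt_of_le_of_ne (H.least β) (Ne.symm hβ)⟩))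
  have hfam : St ξ (cut (MR St) ξ) = Set.range X := by
    have h1 := Stg_bk o bk α hβ (cut (MR St) ξ)
    rw [Vd_cut (MR St) hηξ.le] at h1
    exact h1.trans hbk
  have hNmξ : Set.range X ⊆ Nm (Vd (MR St) ξ) ξ := by
    rintro _ ⟨i, rfl⟩ k
    refine ⟨_, (hXsub i k).trans fun r hr => ⟨hr.1, hr.2.mono hηξ.le⟩, hXc i k, ?_⟩
    rw [hXrep i k]
    refine Set.iUnion₂_congr fun a ha => ?_
    exact (bs_below (hXsub i k ha).2 hηξ.le).symm
  have hFip : Fip (Vd (MR St) ξ) ξ (Set.range X) := by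
    intro F hF q hq N
    have hidx : ∀ Z : ℕ → Set (Om (WithTop (Jx κ μ))), ∃ i : Option Y, Z ∈ F →
        ∃ j, i = some j ∧ X j = Z := by
      intro Z
      by_cases hZ : Z ∈ F
      · obtain ⟨j, hj⟩ := hF Z hZ
        exact ⟨some j, fun _ => ⟨j, rfl, hj⟩⟩
      · exact ⟨none, fun h => absurd h hZ⟩
    choose idx hidx using hidx
    let G : Finset Y := (F.image idx).eraseNone
    have hG : ∀ Z ∈ F, ∃ j ∈ G, X j = Z := by
      intro Z hZ
      obtain ⟨j, hj, hjZ⟩ := hidx Z hZ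
      refine ⟨j, ?_, hjZ⟩
      rw [Finset.mem_eraseNone, ← hj]
      exact Finset.mem_image_of_mem idx hZ
    let qP : PM St := ⟨q, hq.1, hq.2.mono le_top⟩
    by_cases hc : Compat qP p
    · obtain ⟨s, hsq, hsp⟩ := hc
      obtain ⟨s', hs', k, hk, hE⟩ := hfip G N s hsp
      have hext : ∀ G' : Finset Y, ∃ s'' ≤ s', ∀ i ∈ G', ∃ a ∈ A i k, s'' ≤ a := by
        intro G'
        induction G' using Finset.induction_on with
        | empty => exact ⟨s', le_rfl, by simp⟩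
        | insert i G' _ ih =>
          obtain ⟨s1, hs1, h1⟩ := ih
          obtain ⟨a, ha, t, hta, hts⟩ := hA3 i k s1
          refine ⟨t, hts.trans hs1, fun j hj => ?_⟩
          rcases Finset.mem_insert.1 hj with rfl | hj
          · exact ⟨a, ha, hta⟩
          · obtain ⟨b, hb, hb'⟩ := h1 j hj
            exact ⟨b, hb, hts.trans hb'⟩
      obtain ⟨s'', hs'', hsa⟩ := hext G
      refine ⟨res s''.1 ξ, res_mem s''.2.1 ξ, ?_, k, hk, fun Z hZ => ?_⟩
      · exact res_le (r := s''.1) (q := q) (hs''.trans (hs'.trans hsq)) hq.2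
      · obtain ⟨i, hi, rfl⟩ := hG Z hZ
        obtain ⟨a, ha, hsa'⟩ := hsa i hi
        have ham : a ∈ meets (E i k) := by
          rcases hA2 i k a ha with h | h
          · exact h
          · exact absurd (down_meets _ _ (hE i hi) s'' hs'') (h s'' hsa')
        rw [bs_res le_rfl]
        intro w hw
        have h1 : w ∈ bs a.1 ξ := bs_le hsa' ξ hw
        rw [bs_below (hA1 i k a ha) hηξ.le] at h1
        exact Or.inl (Set.mem_biUnion (show a ∈ {a : PM St | a ∈ A i k ∧ a ∈ meets (E i k)} from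
          ⟨ha, ham⟩) h1)
    · have hd : res q η ∈ D' := by
        refine ⟨res_mem hq.1 η, fun s hs hsp => hc ?_⟩
        obtain ⟨t, ht1, ht2, _⟩ := compat_res (q := p) (p := qP) (ξ := η) hpb ⟨s, hsp, hs⟩
        exact ⟨t, ht2, ht1⟩
      obtain ⟨b, hb, s, hs, hsb, hsd⟩ := hBp _ hd
      refine ⟨glue s q η, glue_mem hs.1 hq hηξ.le, glue_le hsd, N, le_rfl, fun Z hZ => ?_⟩
      obtain ⟨i, hi, rfl⟩ := hG Z hZ
      intro w hw
      have h1 : w ∈ bs b ξ := bs_le ((glue_le_left hs.1.2).trans hsb) ξ hw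
      rw [bs_below (hBD hb).1.2 hηξ.le] at h1
      exact Or.inr (Set.mem_biUnion hb h1)
  have hUU : ∀ i, X i ∈ UU St ξ := by
    intro i
    have h1 : Set.range X ⊆ UU St ξ := by
      rw [← hfam]
      exact sub_Uf (Vd (MR St) ξ) ξ (S := St ξ (cut (MR St) ξ)) (by rw [hfam]; exact hNmξ)
        (by rw [hfam]; exact hFip)
    exact h1 ⟨i, rfl⟩
  refine ⟨ξJ, fun i => hALM (Jx κ μ) St ξJ (X i) (E i) p (hUU i) fun k => ?_⟩
  refine ⟨{a : PM St | a ∈ A i k ∧ a ∈ meets (E i k)} ∪ {b : PM St | b.1 ∈ B}, ?_, ?_, ?_⟩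
  · rintro a (ha | ha)
    · exact (hA1 i k a ha.1).mono hηξ.le
    · exact (hBD ha).1.2.mono hηξ.le
  · rw [hXrep i k]
    ext w
    simp only [Set.mem_iUnion]
    constructor
    · rintro ⟨a, (⟨a, ha, rfl⟩ | ha), hw⟩
      · refine ⟨a, Or.inl ha, ?_⟩
        have := bs_below (hA1 i k a ha.1) hηξ.le
        rw [← this] at hw
        exact hw
      · refine ⟨⟨a, (hBD ha).1.1, (hBD ha).1.2.mono le_top⟩, Or.inr ha, ?_⟩
        have := bs_below (hBD ha).1.2 hηξ.le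
        rw [← this] at hw
        exact hw
    · rintro ⟨a, (ha | ha), hw⟩
      · refine ⟨a.1, Or.inl ⟨a, ha, rfl⟩, ?_⟩
        have := bs_below (hA1 i k a ha.1) hηξ.le
        rw [← this]
        exact hw
      · refine ⟨a.1, Or.inr ha, ?_⟩
        have := bs_below (hBD ha).1.2 hηξ.le
        rw [← this]
        exact hw
  · rintro a (ha | ha) s hsa hsp
    · exact down_meets _ _ ha.2 s hsa
    · exact absurd hsp ((hBD ha).2 s hsa)

end Pool.Agent.T2h65.CP
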