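import Pool.Agent.T2h65.CP.Stm

/-! Task STP: a ground model stationary set of countable sets stays stationary. -/

set_option autoImplicit false

namespace Pool.Agent.T2h65.CP

open Cardinal Pool.Agent.Helper669.Forcing

namespace STP

theorem mem_meets_const {P : Type} [Preorder P] (h : Prop) (p : P) :
    p ∈ meets ({_p | h} : Set P) ↔ h := by
  constructor
  · intro hp
    obtain ⟨_, _, _, hs, _⟩ := hp p le_rfl
    exact hs
  · intro hh
    exact meets_of_mem hh

theorem countF_const {P : Type} [Preorder P] (α : N2) (y : Set N2) (hy : y.Countable) (p : P) :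
    p ∈ CountF (fun γ : N2 => ({_p | γ ∈ y} : Set P)) := by
  obtain ⟨f, hf⟩ : ∃ f : ℕ → N2, y ⊆ Set.range f := by
    rcases y.eq_empty_or_nonempty with h | h
    · exact ⟨fun _ => α, by rw [h]; exact Set.empty_subset _⟩
    · obtain ⟨f, hf⟩ := hy.exists_eq_range h
      exact ⟨f, hf.le⟩
  refine mem_fex_of_mem (fun n γ => ({_p | f n = γ} : Set P))
    (down_fand (down_IsFun _) (down_fall fun _ => down_fimp _ _)) ⟨⟨?_, ?_⟩, ?_⟩
  · intro n
    exact mem_fex_of_mem (f n) (down_meets _) ((STP.mem_meets_const _ _).2 rfl)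
  · intro n γ γ'
    refine mem_fimp.2 fun q _ hq2 => ⟨q, le_rfl, ?_⟩
    have h1 := (STP.mem_meets_const _ _).1 hq2.1
    have h2 := (STP.mem_meets_const _ _).1 hq2.2
    exact h1.symm.trans h2
  · intro γ
    refine mem_fimp.2 fun q _ hq2 => ⟨q, le_rfl, ?_⟩
    have h1 : γ ∈ y := (STP.mem_meets_const _ _).1 hq2
    obtain ⟨n, hn⟩ := hf h1
    exact mem_fex_of_mem n (down_meets _) ((STP.mem_meets_const _ _).2 hn)

end STP

open STP in
theorem t_STP : S_STP := by
  intro P _ hcc α N hN p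
  obtain ⟨hN1, hN2⟩ := hN
  refine ⟨?_, ?_⟩
  · intro y
    refine mem_fimp.2 fun q _ hq2 => ⟨q, le_rfl, ?_⟩
    have hy : y ∈ N := (STP.mem_meets_const _ _).1 hq2
    refine ⟨countF_const α y (hN1 y hy).1 q, ?_⟩
    intro γ
    refine mem_fimp.2 fun r _ hr2 => ⟨r, le_rfl, ?_⟩
    exact (hN1 y hy).2 γ ((STP.mem_meets_const _ _).1 hr2)
  · intro F
    refine mem_fimp.2 fun q _ hq2 => ⟨q, le_rfl, ?_⟩
    obtain ⟨hFun, hBd⟩ := hq2
    -- possible values
    obtain ⟨G, hG⟩ : ∃ G : List N2 → Set N2, G = fun l => {δ | ∃ r ≤ q, r ∈ meets (F l δ)} :=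
      ⟨_, rfl⟩
    have hGm : ∀ l δ, δ ∈ G l ↔ ∃ r ≤ q, r ∈ meets (F l δ) := by
      intro l δ; rw [hG]; rfl
    have hGc : ∀ l, (G l).Countable := by
      intro l
      obtain ⟨A, hA1, hA2, hA3⟩ := hcc {r | r ≤ q ∧ ∃ δ, r ∈ meets (F l δ)}
      have hch : ∀ a : P, ∃ δ : N2, a ∈ A → a ∈ meets (F l δ) := by
        intro a
        by_cases ha : a ∈ A
        · obtain ⟨δ, hδ⟩ := (hA1 ha).2
          exact ⟨δ, fun _ => hδ⟩
        · exact ⟨α, fun h => absurd h ha⟩
      choose d hd using hch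
      refine (hA2.image d).mono ?_
      intro δ hδ
      obtain ⟨r, hr, hr2⟩ := (hGm l δ).1 hδ
      obtain ⟨a, ha, s, hs1, hs2⟩ := hA3 r ⟨hr, δ, hr2⟩
      refine ⟨a, ha, ?_⟩
      exact IsFun.unique (down_IsFun F _ hFun s (hs2.trans hr))
        (down_meets _ _ (hd a ha) s hs1) (down_meets _ _ hr2 s hs2)
    have hGn : ∀ l, (G l).Nonempty := by
      intro l
      obtain ⟨r, hr, δ, hδ⟩ := IsFun.total hFun l
      exact ⟨δ, (hGm l δ).2 ⟨r, hr, hδ⟩⟩
    have hGb : ∀ l : List N2, (∀ γ ∈ l, γ < α) → ∀ δ ∈ G l, δ < α := by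
      intro l hl δ hδ
      obtain ⟨r, hr, hr2⟩ := (hGm l δ).1 hδ
      obtain ⟨s, _, hs⟩ := mem_fimp.1 (hBd l hl δ) r hr hr2
      exact hs
    have hch : ∀ l, ∃ g : ℕ → N2, G l = Set.range g := fun l => (hGc l).exists_eq_range (hGn l)
    choose g hg using hch
    obtain ⟨x, hx, hxc⟩ := hN2
      (fun l => g (l.take (Nat.unpair l.length).2) (Nat.unpair l.length).1) (by
        intro l hl
        refine hGb (l.take (Nat.unpair l.length).2) (fun γ hγ => hl γ (List.mem_of_mem_take hγ)) _ ?_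
        rw [hg]
        exact ⟨_, rfl⟩)
    obtain ⟨a, ha⟩ : ∃ a, a ∈ x := ⟨_, hxc [] (by simp)⟩
    have hGx : ∀ l : List N2, (∀ γ ∈ l, γ ∈ x) → ∀ δ ∈ G l, δ ∈ x := by
      intro l hl δ hδ
      rw [hg] at hδ
      obtain ⟨n, rfl⟩ := hδ
      have h1 := hxc (l ++ List.replicate (Nat.pair n l.length - l.length) a) (by
        intro γ hγ
        rcases List.mem_append.1 hγ with h | h
        · exact hl γ h
        · rw [List.eq_of_mem_replicate h]
          exact ha)
      have h2 : (l ++ List.replicate (Nat.pair n l.length - l.length) a).length =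
          Nat.pair n l.length := by
        rw [List.length_append, List.length_replicate]
        have := Nat.right_le_pair n l.length
        omega
      simp only [h2, Nat.unpair_pair] at h1
      rw [List.take_left' rfl] at h1
      exact h1
    refine mem_fex_of_mem x
      (down_fand (down_meets _) (down_fall fun _ => down_fall fun _ => down_fimp _ _))
      ⟨(STP.mem_meets_const _ _).2 hx, ?_⟩
    intro l δ
    refine mem_fimp.2 fun r hr hr2 => ⟨r, le_rfl, ?_⟩
    obtain ⟨h1, h2⟩ := hr2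
    refine (STP.mem_meets_const _ _).2 (hGx l ?_ δ ((hGm l δ).2 ⟨r, hr, h2⟩))
    intro γ hγ
    exact (STP.mem_meets_const _ _).1 (h1 γ hγ)

end Pool.Agent.T2h65.CP
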