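import Mathlib
import Pool.Agent.T2h65.CP.Stm

/-!
# Task TLB: there is no tower of length less than `κ`
-/

set_option autoImplicit false

namespace Pool.Agent.T2h65.CP

open Cardinal Pool.Agent.Helper669.Iter Pool.Agent.Helper669.Forcing
  Pool.Agent.Helper669.GBase Pool.Agent.Helper669.Forcing2

/-- the members of a tower with small indices are finally larger than a given one -/
theorem tlb_fin {P : Type} [Preorder P] {X : Type} [LinearOrder X] (E : X → ℕ → Set P) (r : P)
    (j : X) (h : ∀ i, i < j → r ∈ AlmF (E j) (E i)) (F : Finset X) (hF : ∀ i ∈ F, i ≤ j) :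
    ∀ s ≤ r, ∃ s' ≤ s, ∃ N : ℕ, ∀ i ∈ F, ∀ k ≥ N, ∀ t ≤ s', t ∈ meets (E j k) →
      t ∈ meets (E i k) := by
  classical
  induction F using Finset.induction_on with
  | empty => exact fun s _ => ⟨s, le_rfl, 0, fun i hi => absurd hi (Finset.notMem_empty i)⟩
  | insert i F _ ih =>
    intro s hs
    obtain ⟨s1, hs1, N1, h1⟩ := ih (fun i hi => hF i (Finset.mem_insert_of_mem hi)) s hs
    rcases (hF i (Finset.mem_insert_self i F)).lt_or_eq with hlt | rfl
    · obtain ⟨s2, hs2, N2, h2⟩ := mem_fex.1 (h i hlt) s1 (hs1.trans hs)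
      refine ⟨s2, hs2.trans hs1, max N1 N2, fun i' hi' k hk t ht htm => ?_⟩
      rcases Finset.mem_insert.1 hi' with rfl | hi'
      · have h3 := h2 k ((le_max_right _ _).trans hk)
        refine meets_of_dense fun t' ht' => ?_
        exact mem_fimp.1 h3 t' (ht'.trans ht) (down_meets _ _ htm t' ht')
      · exact h1 i' hi' k ((le_max_left _ _).trans hk) t (ht.trans hs2) htm
    · refine ⟨s1, hs1, N1, fun i' hi' k hk t ht htm => ?_⟩
      rcases Finset.mem_insert.1 hi' with rfl | hi'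
      · exact htm
      · exact h1 i' hi' k hk t ht htm

theorem t_TLB : S_TLB := by
  intro hCOF hDEC hALM hCNT hPSI κ μ o bk hyp p o' ho' q hqp hq
  obtain ⟨r, hr, E, hE⟩ := mem_fex.1 hq q le_rfl
  obtain ⟨hInf, hAlm, hno⟩ := hE
  have hcard : #o'.ToType < κ := by
    rw [mk_toType]
    exact lt_ord.1 ho'
  obtain ⟨ξ, hξ⟩ := hPSI hCOF hDEC hALM hCNT κ μ o bk hyp o'.ToType E r hcard (by
    intro G N s hs
    rcases G.eq_empty_or_nonempty with rfl | hG
    · exact ⟨s, le_rfl, N, le_rfl, fun i hi => absurd hi (Finset.notMem_empty i)⟩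
    · obtain ⟨s1, hs1, N1, h1⟩ := tlb_fin E r (G.max' hG)
        (fun i hi => (hAlm i (G.max' hG) hi).1) G (fun i hi => G.le_max' i hi) s hs
      obtain ⟨s2, hs2, k, hk, hm⟩ := mem_fex.1 (hInf (G.max' hG) (max N N1)) s1 (hs1.trans hs)
      have hk' : max N N1 ≤ k := hk
      exact ⟨s2, hs2.trans hs1, k, (le_max_left _ _).trans hk', fun i hi =>
        h1 i hi k ((le_max_right _ _).trans hk') s2 hs2 hm⟩)
  refine hno r le_rfl (mem_fex_of_mem (Mm (Stg κ μ o bk) ξ) ?_ ⟨infSet_Mm ξ r, hξ⟩)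
  exact down_fand (down_fall fun _ => down_fex _) (down_fall fun _ => down_fex _)

end Pool.Agent.T2h65.CP
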