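import Mathlib
import Pool.Agent.T2h65.CP.KHB

/-! Task ULB. -/

set_option autoImplicit false

namespace Pool.Agent.T2h65.CP

open Cardinal Pool.Agent.Helper669.Forcing Pool.Agent.W873.Gmp
open Pool.Agent.Helper669.MMain (InfSet FSplits LtReaping down_FSplits)

theorem t_ULB : S_ULB := by
  intro hCOF κ μ o St hκ hunc p ν hν q _ hq
  obtain ⟨r, _, E, hE1, hE2, hE3⟩ := mem_fex.1 hq q le_rfl
  have hm : max ν ℵ₀ < κ := max_lt hν hunc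
  have hcof : ∀ S : Set (Jx κ μ), #S ≤ max ν ℵ₀ → ∃ b, ∀ s ∈ S, s < b := fun S hS => by
    obtain ⟨α, hα⟩ := hCOF κ μ o hκ S (hS.trans_lt hm)
    exact ⟨tw o α, hα⟩
  have h1 : r ∈ LtReaping (PM St) ν.out :=
    ltReaping (le_max_right _ _) hcof (by rw [mk_out]; exact le_max_left _ _) r
  obtain ⟨r1, hr1, h2⟩ := mem_fimp.1 (h1 E) r le_rfl (fun y => hE1 y)
  obtain ⟨r2, hr2, s, hs⟩ := mem_fex.1 h2 r1 le_rfl
  obtain ⟨r3, hr3, i, hi⟩ := mem_fex.1 (hE3 s) r2 (hr2.trans hr1)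
  have hsp : r3 ∈ FSplits s (E i) := down_FSplits _ _ _ (hs i) r3 hr3
  obtain ⟨r4, hr4, h4 | h4⟩ := for'_elim hi
  · obtain ⟨t, ht, k, _, hk1, hk2⟩ := mem_fex.1 (hsp.2 0) r4 hr4
    obtain ⟨t', ht', h5⟩ := mem_fimp.1 (h4 k) t ht hk1
    exact hk2 t' ht' h5
  · obtain ⟨t, ht, k, _, hk1, hk2⟩ := mem_fex.1 (hsp.1 0) r4 hr4
    obtain ⟨t', ht', h5⟩ := mem_fimp.1 (h4 k) t ht hk1
    exact h5 t' le_rfl (down_meets _ _ hk2 t' ht')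

end Pool.Agent.T2h65.CP
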