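import Mathlib
import Pool.Agent.T2h65.CP.Stm

/-!
# Task UUB: some nonprincipal ultrafilter has a base of size `κ`
-/

set_option autoImplicit false

namespace Pool.Agent.T2h65.CP

open Cardinal Pool.Agent.Helper669.Iter Pool.Agent.Helper669.Forcing
  Pool.Agent.Helper669.GBase Pool.Agent.Helper669.Forcing2

/-- a ground model condition in a name -/
theorem uub_meets {P : Type} [Preorder P] (c : Prop) (M : Set P) (p : P) :
    p ∈ meets {q : P | c ∧ q ∈ M} ↔ c ∧ p ∈ meets M := by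
  constructor
  · intro h
    obtain ⟨r, _, s, hs, _⟩ := h p le_rfl
    refine ⟨hs.1, fun q hq => ?_⟩
    obtain ⟨r, hr, s, hs, hle⟩ := h q hq
    exact ⟨r, hr, s, hs.2, hle⟩
  · rintro ⟨hc, h⟩ q hq
    obtain ⟨r, hr, s, hs, hle⟩ := h q hq
    exact ⟨r, hr, s, ⟨hc, hs⟩, hle⟩

theorem t_UUB : S_UUB := by
  intro hCOF hDEC hDCR hALM hTWF κ μ o bk hreg hκ p
  classical
  have hdcr := hDCR hALM hTWF κ μ o bk
  have heq : #κ.out = #(κ.ord.ToType × ℕ) := by
    rw [mk_prod, mk_toType, card_ord, mk_out, Cardinal.lift_id, Cardinal.lift_id, mk_nat,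
      Cardinal.mul_aleph0_eq hκ.le]
  obtain ⟨e⟩ := Cardinal.eq.1 heq
  let E : κ.out → ℕ → Set (PM (Stg κ μ o bk)) := fun i k =>
    {q | (e i).2 ≤ k ∧ q ∈ Mm (Stg κ μ o bk) (tw o (e i).1) k}
  have hE : ∀ i k q, q ∈ meets (E i k) ↔
      (e i).2 ≤ k ∧ q ∈ meets (Mm (Stg κ μ o bk) (tw o (e i).1) k) :=
    fun i k q => uub_meets _ _ q
  have hD : Down (UltBaseF E) :=
    down_fand (down_fall fun _ => down_fall fun _ => down_fex _)
      (down_fand (down_fall fun _ => down_fall fun _ => down_fex _)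
        (down_fall fun _ => down_fex _))
  refine mem_fex_of_mem E hD ⟨fun i N => ?_, fun i j => ?_, fun x => ?_⟩
  · refine mem_fex.2 fun q _ => ?_
    obtain ⟨r, hr, k, hk, hm⟩ := mem_fex.1
      (infSet_Mm (St := Stg κ μ o bk) (tw o (e i).1) q (max N (e i).2)) q le_rfl
    have hk' : max N (e i).2 ≤ k := hk
    exact ⟨r, hr, k, (le_max_left _ _).trans hk', (hE i k r).2 ⟨(le_max_right _ _).trans hk', hm⟩⟩
  · refine mem_fex.2 fun q _ => ?_
    have key : ∀ i j : κ.out, (e i).1 ≤ (e j).1 → ∃ r ≤ q, ∃ m : κ.out, ∀ n : ℕ,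
        ∀ t ≤ r, t ∈ meets (E m n) → t ∈ meets (E i n) ∧ t ∈ meets (E j n) := by
      intro i j hij
      rcases hij.lt_or_eq with hlt | heq
      · obtain ⟨r, hr, N, hN⟩ := mem_fex.1 (hdcr _ _ hlt q) q le_rfl
        refine ⟨r, hr, e.symm ((e j).1, max N (max (e i).2 (e j).2)), fun n t ht htm => ?_⟩
        rw [hE] at htm
        rw [Equiv.apply_symm_apply] at htm
        obtain ⟨h1, h2⟩ := htm
        have h3 : N ≤ n := (le_max_left _ _).trans h1
        have h4 : (e i).2 ≤ n := (le_max_left _ _).trans ((le_max_right _ _).trans h1)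
        have h5 : (e j).2 ≤ n := (le_max_right _ _).trans ((le_max_right _ _).trans h1)
        rw [hE, hE]
        refine ⟨⟨h4, meets_of_dense fun t' ht' => ?_⟩, h5, h2⟩
        exact mem_fimp.1 (hN n h3) t' (ht'.trans ht) (down_meets _ _ h2 t' ht')
      · refine ⟨q, le_rfl, e.symm ((e j).1, max (e i).2 (e j).2), fun n t ht htm => ?_⟩
        rw [hE] at htm
        rw [Equiv.apply_symm_apply] at htm
        obtain ⟨h1, h2⟩ := htm
        rw [hE, hE, heq]
        exact ⟨⟨(le_max_left _ _).trans h1, h2⟩, (le_max_right _ _).trans h1, h2⟩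
    have key2 : ∃ r ≤ q, ∃ m : κ.out, ∀ n : ℕ,
        ∀ t ≤ r, t ∈ meets (E m n) → t ∈ meets (E i n) ∧ t ∈ meets (E j n) := by
      rcases le_total (e i).1 (e j).1 with h | h
      · exact key i j h
      · obtain ⟨r, hr, m, hm⟩ := key j i h
        exact ⟨r, hr, m, fun n t ht htm => (hm n t ht htm).symm⟩
    obtain ⟨r, hr, m, hm⟩ := key2
    exact ⟨r, hr, m, fun n => mem_fimp.2 fun t ht htm => ⟨t, le_rfl, hm n t ht htm⟩⟩
  · refine mem_fex.2 fun q _ => ?_
    obtain ⟨α, hα⟩ := hDEC hCOF κ μ o (Stg κ μ o bk) hreg hκ Unit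
      (by rw [mk_unit]; exact one_lt_aleph0.trans hκ) (fun _ => x) q
    obtain ⟨p', hp', N, hN⟩ := unsplit ((hα α le_rfl).1 ()) q
    refine ⟨p', hp', e.symm (α, N), mem_for.2 fun t ht => ⟨t, le_rfl, ?_⟩⟩
    rcases hN with h | h
    · right
      intro n
      refine mem_fimp.2 fun u hu hum => ⟨u, le_rfl, fun v hv => ?_⟩
      rw [hE, Equiv.apply_symm_apply] at hum
      exact h n hum.1 v (hv.trans (hu.trans ht)) (down_meets _ _ hum.2 v hv)
    · left
      intro n
      refine mem_fimp.2 fun u hu hum => ⟨u, le_rfl, meets_of_dense fun v hv => ?_⟩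
      rw [hE, Equiv.apply_symm_apply] at hum
      have h3 := h n hum.1 v (hv.trans (hu.trans ht)) (down_meets _ _ hum.2 v hv)
      simp only [fnot, Set.mem_ofPred_eq, not_forall, not_not] at h3
      obtain ⟨w, hw, h4⟩ := h3
      exact ⟨w, hw, h4⟩

end Pool.Agent.T2h65.CP
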