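import Mathlib
import Pool.Agent.T2h65.CP.Stm
import Pool.Agent.W873.Gmp.Final

/-!
# The conclusion from the tasks
-/

set_option autoImplicit false

namespace Pool.Agent.T2h65.CP

open Cardinal Pool.Agent.Helper669.Iter Pool.Agent.Helper669.Forcing
  Pool.Agent.Helper669.GBase Pool.Agent.W873.Gmp

/-- the sentence forced by the forcing notion -/
def AllF (κ μ : Cardinal.{0}) (P : Type) [Preorder P] : Set P :=
  fand (CardinalsPreserved.{0, 0} P)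
  (fand (SRF P)
  (fand (TreeProp P N2 N1)
  (fand (NoWeakKurepaF P)
  (fand (DSSF P)
  (fand (TowerNumberIs P κ)
  (fand (UltNumberIs P κ) (ContinuumIs P μ)))))))

theorem main (hCCC : S_CCC) (hBDT : S_BDT) (hINT : S_INT) (hCLB : S_CLB) (hCFO : S_CFO)
    (hCFG : S_CFG) (hSRT : S_SRT) (hSTP : S_STP) (hDST : S_DST) (hKH1 : S_KH1) (hKH3 : S_KH3)
    (hKH4 : S_KH4) (hKHM : S_KHM) (hKHT : S_KHT) (hCRD : S_CRD) (hCON : S_CON) (hCNT : S_CNT)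
    (hCEN : S_CEN) (hALM : S_ALM) (hBKX : S_BKX) (hCOF : S_COF) (hDEC : S_DEC) (hTWF : S_TWF)
    (hDCR : S_DCR) (hSTR : S_STR) (hNPI : S_NPI) (hUUB : S_UUB) (hULB : S_ULB) (hPSI : S_PSI)
    (hTLB : S_TLB)
    (hG : GMP ℵ₀) (hSR : SR) (hDSS : DSS) (κ μ : Cardinal.{0}) (hκ : κ.IsRegular)
    (hκ2 : ℵ₀ < κ) (hκμ : κ < μ) (hμ : 2 ^ (ℵ₀ : Cardinal.{0}) = μ)
    (hpow : ∀ ν < κ, μ ^ ν ≤ μ) :
    ∃ (P : Type) (_ : Preorder P), Nonempty P ∧ Centered ℵ₀ P ∧ ∀ p : P, p ∈ AllF κ μ P := by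
  have hμinf : ℵ₀ ≤ μ := hκ2.le.trans hκμ.le
  have hne : Nonempty μ.ord.ToType := by
    rw [← mk_ne_zero_iff, mk_ord_toType]
    exact (aleph0_pos.trans_le hμinf).ne'
  obtain ⟨o, _, ho⟩ := WellFounded.has_min (wellFounded_lt (α := μ.ord.ToType)) Set.univ
    Set.univ_nonempty
  obtain ⟨bk, hbk⟩ := hBKX κ μ o (ℕ → Set (Om (WithTop (Jx κ μ)))) hκ2.le hκμ.le hpow
  have H : Hyp κ μ o bk := ⟨hκ, hκ2, hκμ.le, hpow, fun β => not_lt.1 (ho β trivial), hbk⟩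
  have hJ : #(Jx κ μ) ≤ μ := by
    have h1 : #(Jx κ μ) = #(κ.ord.ToType × μ.ord.ToType) := rfl
    rw [h1, mk_prod, Cardinal.lift_id, Cardinal.lift_id, mk_ord_toType, mk_ord_toType]
    exact (mul_le_mul' hκμ.le le_rfl).trans (mul_eq_self hμinf).le
  have hμpow : μ ^ (ℵ₀ : Cardinal.{0}) = μ :=
    le_antisymm (hpow ℵ₀ hκ2) (self_le_power μ one_le_aleph0)
  have hcen : Centered ℵ₀ (PM (Stg κ μ o bk)) := hCEN _ _ (hJ.trans hμ.ge)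
  have hCC : CC (PM (Stg κ μ o bk)) := hCCC _ hcen
  have hcard : #(PM (Stg κ μ o bk)) ≤ μ := (hCNT _ _ μ hμinf hJ hμpow).2
  refine ⟨PM (Stg κ μ o bk), inferInstance, inferInstance, hcen, fun p => ?_⟩
  refine ⟨hCRD _ hCC p, hSRT hCLB hBDT hINT hCFO hCFG _ hCC hSR p,
    treeProp le_rfl hG _ hcen p, hKHT hCCC hKH1 hKH3 hKH4 hKHM hG _ hcen p,
    hDST hCLB hBDT hCFG hSTP _ hCC hDSS p, ⟨?_, ?_⟩, ⟨?_, ?_⟩, ?_⟩
  · refine mem_fex.2 fun q _ => ⟨q, le_rfl, fun α => Mm (Stg κ μ o bk) (tw o α), ?_, ?_, ?_⟩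
    · exact fun α => infSet_Mm _ _
    · intro α' α hlt
      refine ⟨hDCR hALM hTWF κ μ o bk α' α hlt q, hSTR _ _ _ _ ?_ q⟩
      exact Prod.Lex.toLex_lt_toLex.2 (Or.inl hlt)
    · exact hNPI hCOF hDEC κ μ o _ hκ hκ2 q
  · intro o' ho'
    exact hTLB hCOF hDEC hALM hCNT hPSI κ μ o bk H p o' ho'
  · exact hUUB hCOF hDEC hDCR hALM hTWF κ μ o bk hκ hκ2 p
  · intro ν hν
    exact hULB hCOF κ μ o _ hκ hκ2 p ν hν
  · have h := hCON _ hCC (hcard.trans hμ.ge) p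
    rwa [hμ] at h

end Pool.Agent.T2h65.CP
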